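import Pool.Agent.Lib.MP_e2b313_al.Hyp

namespace Pool.Agent.NoMax

section act

variable {L : Type} [Field L] [StarRing L] [FD L]

/-- coordinatewise embedding into complex vectors -/
noncomputable def iV (v : ℕ →₀ L) : ℕ →₀ ℂ :=
  Finsupp.mapRange (emb : L → ℂ) (map_zero (emb : L →+* ℂ)) v

theorem iV_apply (v : ℕ →₀ L) (k : ℕ) : (iV v) k = emb (v k) := by
  unfold iV; rw [Finsupp.mapRange_apply]
theorem iV_add (u v : ℕ →₀ L) : iV (u + v) = iV u + iV v := by
  ext k; rw [Finsupp.add_apply, iV_apply, iV_apply, iV_apply, Finsupp.add_apply, map_add]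
theorem iV_smul (c : L) (v : ℕ →₀ L) : iV (c • v) = (emb c : ℂ) • iV v := by
  ext k; rw [Finsupp.smul_apply, iV_apply, iV_apply, Finsupp.smul_apply, smul_eq_mul, map_mul,
    smul_eq_mul]
theorem iV_zero : iV (0 : ℕ →₀ L) = 0 := by
  ext k; rw [iV_apply]; simp
theorem iV_e (k : ℕ) : iV (e k : ℕ →₀ L) = e k := by
  ext l; rw [iV_apply, e_apply, e_apply]; split_ifs <;> simp

theorem emb_sg (k : ℕ) : emb (sg k : L) = (sg k : ℂ) := by
  unfold sg; split_ifs <;> simp

theorem h_iV (u v : ℕ →₀ L) : h (iV u) (iV v) = emb (h u v) := by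
  have hs : (iV u).support ⊆ u.support := by
    intro k hk
    rw [Finsupp.mem_support_iff, iV_apply] at hk
    rw [Finsupp.mem_support_iff]
    intro h0
    rw [h0, map_zero] at hk
    exact hk rfl
  rw [h_eq_sum (iV u) (iV v) u.support hs, h_eq_sum u v u.support (Finset.Subset.refl _), map_sum]
  apply Finset.sum_congr rfl
  intro k _
  rw [iV_apply, iV_apply, map_mul, map_mul, emb_star, emb_sg]
  rfl

/-- complexification -/
noncomputable def gC (g : GLV L) : (ℕ →₀ ℂ) →ₗ[ℂ] (ℕ →₀ ℂ) :=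
  Finsupp.linearCombination ℂ (fun k => iV (g (e k)))

theorem gC_e (g : GLV L) (k : ℕ) : gC g (e k) = iV (g (e k)) := by
  unfold gC
  conv_lhs => rw [show (e k : ℕ →₀ ℂ) = Finsupp.single k 1 from rfl]
  rw [Finsupp.linearCombination_single, one_smul]

theorem gC_iV (g : GLV L) (v : ℕ →₀ L) : gC g (iV v) = iV (g v) := by
  induction v using Finsupp.induction_linear with
  | zero => rw [map_zero, iV_zero, map_zero]
  | add u v hu hv => rw [iV_add, map_add, map_add, iV_add, hu, hv]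
  | single i c =>
    have : Finsupp.single i c = c • (e i : ℕ →₀ L) := by simp [e]
    rw [this, iV_smul, map_smul, iV_e, gC_e, map_smul, iV_smul]

theorem gC_one : gC (1 : GLV L) = LinearMap.id := by
  apply lin_ext
  intro k
  rw [gC_e]
  exact iV_e k

theorem gC_mul (g g' : GLV L) : gC (g * g') = (gC g).comp (gC g') := by
  apply lin_ext
  intro k
  rw [gC_e, LinearMap.comp_apply, gC_e, gC_iV]
  rfl

theorem gC_iso {g : GLV L} (hg : Iso g) (x y : ℕ →₀ ℂ) : h (gC g x) (gC g y) = h x y := by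
  have h0 : ∀ i j : ℕ, h (gC g (e i)) (gC g (e j)) = h (e i : ℕ →₀ ℂ) (e j) := by
    intro i j
    rw [gC_e, gC_e, h_iV, hg, ← h_iV, iV_e, iV_e]
  have h1 : ∀ i : ℕ, ∀ y, h (gC g (e i)) (gC g y) = h (e i) y := by
    intro i y
    induction y using Finsupp.induction_linear with
    | zero => rw [map_zero, h_zero_right, h_zero_right]
    | add u v hu hv => rw [map_add, h_add_right, h_add_right, hu, hv]
    | single j c =>
      have : Finsupp.single j c = c • (e j : ℕ →₀ ℂ) := by simp [e]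
      rw [this, map_smul, h_smul_right, h_smul_right, h0]
  induction x using Finsupp.induction_linear with
  | zero => rw [map_zero, h_zero_left, h_zero_left]
  | add u v hu hv => rw [map_add, h_add_left, h_add_left, hu, hv]
  | single i c =>
    have : Finsupp.single i c = c • (e i : ℕ →₀ ℂ) := by simp [e]
    rw [this, map_smul, h_smul_left, h_smul_left, h1]

/-- action on the hyperboloid -/
noncomputable def actX (g : G L) (x : HX) : HX :=
  ⟨gC (g : GLV L) x.1, by rw [gC_iso g.2.1]; exact x.2⟩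

theorem actX_dist (g : G L) (x y : HX) : dist (actX g x) (actX g y) = dist x y := by
  rw [dist_HX, dist_HX]
  change Real.arcosh ‖h (gC (g : GLV L) x.1) (gC (g : GLV L) y.1)‖ = _
  rw [gC_iso g.2.1]

theorem actX_one (x : HX) : actX (1 : G L) x = x := by
  apply Subtype.ext
  change gC ((1 : G L) : GLV L) x.1 = x.1
  rw [Subgroup.coe_one, gC_one]
  rfl

theorem actX_mul (g g' : G L) (x : HX) : actX (g * g') x = actX g (actX g' x) := by
  apply Subtype.ext
  change gC ((g * g' : G L) : GLV L) x.1 = gC (g : GLV L) (gC (g' : GLV L) x.1)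
  rw [Subgroup.coe_mul, gC_mul]
  rfl

/-- action on the space -/
noncomputable def actS (g : G L) : HS → HS :=
  SeparationQuotient.lift (fun x => SeparationQuotient.mk (actX g x)) (by
    intro x y hxy
    rw [SeparationQuotient.mk_eq_mk, Metric.inseparable_iff, actX_dist]
    exact Metric.inseparable_iff.1 hxy)

theorem actS_mk (g : G L) (x : HX) :
    actS g (SeparationQuotient.mk x) = SeparationQuotient.mk (actX g x) := rfl

theorem actS_one (x : HS) : actS (1 : G L) x = x := by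
  obtain ⟨x, rfl⟩ := SeparationQuotient.surjective_mk x
  rw [actS_mk, actX_one]

theorem actS_mul (g g' : G L) (x : HS) : actS (g * g') x = actS g (actS g' x) := by
  obtain ⟨x, rfl⟩ := SeparationQuotient.surjective_mk x
  rw [actS_mk, actS_mk, actS_mk, actX_mul]

theorem actS_dist (g : G L) (x y : HS) : dist (actS g x) (actS g y) = dist x y := by
  obtain ⟨x, rfl⟩ := SeparationQuotient.surjective_mk x
  obtain ⟨y, rfl⟩ := SeparationQuotient.surjective_mk y
  rw [actS_mk, actS_mk, SeparationQuotient.dist_mk, SeparationQuotient.dist_mk, actX_dist]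

/-- the action homomorphism -/
noncomputable def Phi (L : Type) [Field L] [StarRing L] [FD L] : G L →* (HS ≃ᵢ HS) where
  toFun g :=
    { toFun := actS g
      invFun := actS g⁻¹
      left_inv := by
        intro x
        rw [← actS_mul, inv_mul_cancel, actS_one]
      right_inv := by
        intro x
        rw [← actS_mul, mul_inv_cancel, actS_one]
      isometry_toFun := Isometry.of_dist_eq (actS_dist g) }
  map_one' := by
    ext x
    exact actS_one x
  map_mul' g g' := by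
    ext x
    exact actS_mul g g' x

theorem Phi_mk (g : G L) (x : HX) :
    Phi L g (SeparationQuotient.mk x) = SeparationQuotient.mk (actX g x) := rfl

/-- boost linear map -/
noncomputable def bl (k : ℕ) (c s : L) : (ℕ →₀ L) →ₗ[L] (ℕ →₀ L) :=
  Finsupp.linearCombination L (fun m =>
    if m = 0 then c • (e 0 : ℕ →₀ L) + s • e k
    else if m = k then s • (e 0 : ℕ →₀ L) + c • e k else e m)

omit [StarRing L] [FD L] in
theorem bl_e (k : ℕ) (c s : L) (m : ℕ) : bl k c s (e m) =
    if m = 0 then c • (e 0 : ℕ →₀ L) + s • e k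
    else if m = k then s • (e 0 : ℕ →₀ L) + c • e k else e m := by
  unfold bl
  conv_lhs => rw [show (e m : ℕ →₀ L) = Finsupp.single m 1 from rfl]
  rw [Finsupp.linearCombination_single, one_smul]

omit [StarRing L] [FD L] in
theorem bl_comp {k : ℕ} (hk : k ≠ 0) (c s c' s' : L) :
    (bl k c s).comp (bl k c' s') = bl k (c * c' + s * s') (c * s' + s * c') := by
  apply lin_ext
  intro m
  rw [LinearMap.comp_apply]
  by_cases hm0 : m = 0
  · subst hm0
    rw [bl_e, if_pos rfl, map_add, map_smul, map_smul, bl_e, bl_e, bl_e, if_pos rfl, if_neg hk,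
      if_pos rfl, if_pos rfl]
    module
  · by_cases hmk : m = k
    · subst hmk
      rw [bl_e, if_neg hm0, if_pos rfl, map_add, map_smul, map_smul, bl_e, bl_e, bl_e, if_pos rfl,
        if_neg hk, if_pos rfl, if_neg hk, if_pos rfl]
      module
    · rw [bl_e k c' s' m, if_neg hm0, if_neg hmk, bl_e k c s m, if_neg hm0, if_neg hmk, bl_e,
        if_neg hm0, if_neg hmk]

omit [StarRing L] [FD L] in
theorem bl_one {k : ℕ} : bl k (1 : L) 0 = LinearMap.id := by
  apply lin_ext
  intro m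
  rw [bl_e, LinearMap.id_apply]
  by_cases hm0 : m = 0
  · rw [if_pos hm0, hm0]; simp
  · rw [if_neg hm0]
    by_cases hmk : m = k
    · rw [if_pos hmk, hmk]; simp
    · rw [if_neg hmk]

/-- boosts -/
def isB (T : GLV L) (k : ℕ) (q : L) : Prop :=
  (T : (ℕ →₀ L) →ₗ[L] (ℕ →₀ L)) = bl k ((q + q⁻¹) / 2) ((q - q⁻¹) / 2)

theorem isB.mul {T T' : GLV L} {k : ℕ} (hk : k ≠ 0) {q q' : L} (hq : q ≠ 0) (hq' : q' ≠ 0)
    (h : isB T k q) (h' : isB T' k q') : isB (T * T') k (q * q') := by
  have h2 := two_ne (L := L)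
  unfold isB at *
  have h1 : ((T * T' : GLV L) : (ℕ →₀ L) →ₗ[L] (ℕ →₀ L))
      = (T : (ℕ →₀ L) →ₗ[L] (ℕ →₀ L)).comp (T' : (ℕ →₀ L) →ₗ[L] (ℕ →₀ L)) := rfl
  rw [h1, h, h', bl_comp hk]
  congr 1
  · field_simp; ring
  · field_simp; ring

theorem exists_isB {k : ℕ} (hk : k ≠ 0) {q : L} (hq : q ≠ 0) : ∃ T : GLV L, isB T k q := by
  have h2 := two_ne (L := L)
  have h1 : (bl k ((q + q⁻¹) / 2) ((q - q⁻¹) / 2)).comp
      (bl k ((q⁻¹ + q⁻¹⁻¹) / 2) ((q⁻¹ - q⁻¹⁻¹) / 2)) = LinearMap.id := by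
    rw [bl_comp hk, ← bl_one (k := k)]
    congr 1
    · field_simp; ring
    · field_simp; ring
  have h3 : (bl k ((q⁻¹ + q⁻¹⁻¹) / 2) ((q⁻¹ - q⁻¹⁻¹) / 2)).comp
      (bl k ((q + q⁻¹) / 2) ((q - q⁻¹) / 2)) = LinearMap.id := by
    rw [bl_comp hk, ← bl_one (k := k)]
    congr 1
    · field_simp; ring
    · field_simp; ring
  exact ⟨LinearEquiv.ofLinearMap _ _ h1 h3, rfl⟩

omit [StarRing L] [FD L] in
theorem isB.ext {T T' : GLV L} {k : ℕ} {q : L} (h : isB T k q) (h' : isB T' k q) : T = T' :=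
  LinearEquiv.toLinearMap_injective (h.trans h'.symm)

theorem isB.one (k : ℕ) : isB (1 : GLV L) k 1 := by
  have h2 := two_ne (L := L)
  unfold isB
  have : bl k (((1 : L) + 1⁻¹) / 2) ((1 - 1⁻¹) / 2) = bl k 1 0 := by
    congr 1
    · field_simp; ring
    · simp
  rw [this, bl_one]
  rfl

theorem isB.inv {T : GLV L} {k : ℕ} (hk : k ≠ 0) {q : L} (hq : q ≠ 0) (h : isB T k q) :
    isB (T⁻¹) k (q⁻¹) := by
  obtain ⟨T', hT'⟩ := exists_isB hk (inv_ne_zero hq)
  have h1 := h.mul hk hq (inv_ne_zero hq) hT'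
  rw [mul_inv_cancel₀ hq] at h1
  have h3 : T * T' = 1 := h1.ext (isB.one k)
  rw [inv_eq_of_mul_eq_one_right h3]
  exact hT'

theorem isB.zpow {T : GLV L} {k : ℕ} (hk : k ≠ 0) {q : L} (hq : q ≠ 0) (h : isB T k q) (n : ℤ) :
    isB (T ^ n) k (q ^ n) := by
  have hnat : ∀ n : ℕ, isB (T ^ n) k (q ^ n) := by
    intro n
    induction n with
    | zero => rw [pow_zero, pow_zero]; exact isB.one k
    | succ n ih => rw [pow_succ, pow_succ]; exact ih.mul hk (pow_ne_zero _ hq) hq h
  rcases n with n | n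
  · rw [Int.ofNat_eq_natCast, zpow_natCast, zpow_natCast]; exact hnat n
  · rw [zpow_negSucc, zpow_negSucc]; exact (hnat _).inv hk (pow_ne_zero _ hq)

omit [StarRing L] [FD L] in
theorem isB.e0 {T : GLV L} {k : ℕ} {q : L} (h : isB T k q) :
    T (e 0) = ((q + q⁻¹) / 2) • e 0 + ((q - q⁻¹) / 2) • e k := by
  have h1 : (T : (ℕ →₀ L) →ₗ[L] (ℕ →₀ L)) (e 0) = bl k ((q + q⁻¹) / 2) ((q - q⁻¹) / 2) (e 0) := by
    rw [h]
  rw [bl_e, if_pos rfl] at h1
  exact h1
omit [StarRing L] [FD L] in
theorem isB.ek {T : GLV L} {k : ℕ} (hk : k ≠ 0) {q : L} (h : isB T k q) :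
    T (e k) = ((q - q⁻¹) / 2) • e 0 + ((q + q⁻¹) / 2) • e k := by
  have h1 : (T : (ℕ →₀ L) →ₗ[L] (ℕ →₀ L)) (e k) = bl k ((q + q⁻¹) / 2) ((q - q⁻¹) / 2) (e k) := by
    rw [h]
  rw [bl_e, if_neg hk, if_pos rfl] at h1
  exact h1
omit [StarRing L] [FD L] in
theorem isB.em {T : GLV L} {k m : ℕ} (hm0 : m ≠ 0) (hmk : m ≠ k) {q : L} (h : isB T k q) :
    T (e m) = e m := by
  have h1 : (T : (ℕ →₀ L) →ₗ[L] (ℕ →₀ L)) (e m) = bl k ((q + q⁻¹) / 2) ((q - q⁻¹) / 2) (e m) := by
    rw [h]
  rw [bl_e, if_neg hm0, if_neg hmk] at h1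
  exact h1

omit [FD L] in
theorem iso_of_basis' {g : GLV L} (hg : ∀ i j, h (g (e i)) (g (e j)) = h (e i) (e j)) : Iso g := by
  have h1 : ∀ i : ℕ, ∀ y, h (g (e i)) (g y) = h (e i) y := by
    intro i y
    induction y using Finsupp.induction_linear with
    | zero => simp
    | add u v hu hv => rw [map_add, h_add_right, h_add_right, hu, hv]
    | single j c =>
      have : Finsupp.single j c = c • (e j : ℕ →₀ L) := by simp [e]
      rw [this, map_smul, h_smul_right, h_smul_right, hg]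
  intro x y
  induction x using Finsupp.induction_linear with
  | zero => simp
  | add u v hu hv => rw [map_add, h_add_left, h_add_left, hu, hv]
  | single i c =>
    have : Finsupp.single i c = c • (e i : ℕ →₀ L) := by simp [e]
    rw [this, map_smul, h_smul_left, h_smul_left, h1]

theorem isB_four_mem {T : GLV L} {k : ℕ} (hk : k ≠ 0) (hT : isB T k (4 : L)) : T ∈ G L := by
  have h2 := two_ne (L := L)
  have h4 : (4 : L) ≠ 0 := by
    have : (4 : L) = 2 * 2 := by norm_num
    rw [this]; exact mul_ne_zero h2 h2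
  obtain ⟨c, hc⟩ : ∃ c : L, c = (4 + 4⁻¹) / 2 := ⟨_, rfl⟩
  obtain ⟨s, hs⟩ : ∃ s : L, s = (4 - 4⁻¹) / 2 := ⟨_, rfl⟩
  have hT0 := hT.e0
  have hTk := hT.ek hk
  rw [← hc, ← hs] at hT0 hTk
  have hcr : star c = c := by rw [hc]; simp
  have hsr : star s = s := by rw [hs]; simp
  have hcs : c * c - s * s = 1 := by rw [hc, hs]; field_simp; ring
  have h3s : Sm (3 : L) := by
    unfold Sm
    rw [N_real (by simp)]
    exact FD.ν_three
  have hinv : Bd ((2 : L)⁻¹) := Bd.inv_two
  have h8 : Bd ((2 : L)⁻¹ * 2⁻¹ * 2⁻¹) := (hinv.mul hinv).mul hinv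
  have hcU : U1 c := by
    unfold U1
    have : c - 1 = 3 * (3 * (2⁻¹ * 2⁻¹ * 2⁻¹)) := by
      rw [hc]; field_simp; norm_num
    rw [this]
    exact h3s.mul (h3s.bd.mul h8)
  have hsS : Sm s := by
    have : s = 3 * ((5 : ℕ) * (2⁻¹ * 2⁻¹ * 2⁻¹)) := by
      rw [hs]; field_simp; push_cast; norm_num
    rw [this]
    exact h3s.mul (Bd.mul (N_natCast 5) h8)
  have h0k : (0 : ℕ) ≠ k := Ne.symm hk
  have hk1 : 1 ≤ k := by omega
  have hsg0 : (sg 0 : L) = -1 := by simp [sg]
  have hI : Iso T := by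
    apply iso_of_basis'
    intro i j
    by_cases hi0 : i = 0
    · rw [hi0, hT0]
      by_cases hj0 : j = 0
      · rw [hj0, hT0]
        simp only [h_add_left, h_add_right, h_smul_left, h_smul_right, h_e_self, h_e_ne h0k,
          h_e_ne hk, sg_pos hk1, hsg0, hcr, hsr]
        linear_combination -hcs
      · by_cases hjk : j = k
        · rw [hjk, hTk]
          simp only [h_add_left, h_add_right, h_smul_left, h_smul_right, h_e_self, h_e_ne h0k,
            h_e_ne hk, sg_pos hk1, hsg0, hcr, hsr]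
          ring
        · rw [hT.em hj0 hjk]
          simp only [h_add_left, h_smul_left, h_e_ne (Ne.symm hj0), h_e_ne (Ne.symm hjk)]
          ring
    · by_cases hik : i = k
      · rw [hik, hTk]
        by_cases hj0 : j = 0
        · rw [hj0, hT0]
          simp only [h_add_left, h_add_right, h_smul_left, h_smul_right, h_e_self, h_e_ne h0k,
            h_e_ne hk, sg_pos hk1, hsg0, hcr, hsr]
          ring
        · by_cases hjk : j = k
          · rw [hjk, hTk]
            simp only [h_add_left, h_add_right, h_smul_left, h_smul_right, h_e_self, h_e_ne h0k,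
              h_e_ne hk, sg_pos hk1, hsg0, hcr, hsr]
            linear_combination hcs
          · rw [hT.em hj0 hjk]
            simp only [h_add_left, h_smul_left, h_e_ne (Ne.symm hj0), h_e_ne (Ne.symm hjk)]
            ring
      · rw [hT.em hi0 hik]
        by_cases hj0 : j = 0
        · rw [hj0, hT0]
          simp only [h_add_right, h_smul_right, h_e_ne hi0, h_e_ne hik]
          ring
        · by_cases hjk : j = k
          · rw [hjk, hTk]
            simp only [h_add_right, h_smul_right, h_e_ne hi0, h_e_ne hik]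
            ring
          · rw [hT.em hj0 hjk]
  refine ⟨hI, ?_, ?_⟩
  · intro m i
    by_cases hm0 : m = 0
    · rw [hm0, hT0, Finsupp.sub_apply, Finsupp.add_apply, Finsupp.smul_apply, Finsupp.smul_apply,
        smul_eq_mul, smul_eq_mul]
      by_cases hi0 : i = 0
      · rw [hi0, e_same, e_ne hk, mul_one, mul_zero, add_zero]; exact hcU
      · by_cases hik : i = k
        · rw [hik, e_same, e_ne h0k, mul_one, mul_zero, zero_add, sub_zero]; exact hsS
        · rw [e_ne (Ne.symm hi0), e_ne (Ne.symm hik), mul_zero, mul_zero, add_zero, sub_zero]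
          exact Sm.zero
    · by_cases hmk : m = k
      · rw [hmk, hTk, Finsupp.sub_apply, Finsupp.add_apply, Finsupp.smul_apply, Finsupp.smul_apply,
          smul_eq_mul, smul_eq_mul]
        by_cases hik : i = k
        · rw [hik, e_same, e_ne h0k, mul_one, mul_zero, zero_add]; exact hcU
        · by_cases hi0 : i = 0
          · rw [hi0, e_same, e_ne hk, mul_one, mul_zero, add_zero, sub_zero]; exact hsS
          · rw [e_ne (Ne.symm hi0), e_ne (Ne.symm hik), mul_zero, mul_zero, add_zero, sub_zero]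
            exact Sm.zero
      · rw [hT.em hm0 hmk, sub_self]; exact Sm.zero
  · refine ⟨k + 1, fun m hm => ⟨1, ?_⟩⟩
    rw [hT.em (by omega) (by omega), one_smul]

/-- base point -/
noncomputable def x0 : HX := ⟨e 0, by rw [h_e_self]; simp [sg]⟩

theorem cosh_zpow (n : ℤ) : (((4 : ℝ) ^ n + ((4 : ℝ) ^ n)⁻¹) / 2) = Real.cosh (n * Real.log 4) := by
  rw [Real.cosh_eq, Real.exp_neg]
  have : Real.exp (n * Real.log 4) = (4 : ℝ) ^ n := by
    rw [mul_comm, Real.exp_mul, Real.exp_log (by norm_num), Real.rpow_intCast]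
  rw [this]

theorem emb_c (n : ℤ) : emb ((((4 : L) ^ n + ((4 : L) ^ n)⁻¹) / 2)) = (Real.cosh (n * Real.log 4) : ℂ) := by
  rw [← cosh_zpow, map_div₀, map_add, map_inv₀, map_zpow₀, map_ofNat, map_ofNat]
  push_cast
  rfl

omit [FD L] in
theorem star_c (n : ℤ) : star ((((4 : L) ^ n + ((4 : L) ^ n)⁻¹) / 2)) = (((4 : L) ^ n + ((4 : L) ^ n)⁻¹) / 2) := by
  simp

theorem norm_cosh (t : ℝ) : ‖(Real.cosh t : ℂ)‖ = Real.cosh t := by
  rw [Complex.norm_real, Real.norm_eq_abs, abs_of_pos (Real.cosh_pos t)]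

theorem dist_orbit {g : G L} {k : ℕ} (hk : k ≠ 0) (hg : isB (g : GLV L) k (4 : L)) (n : ℤ) :
    dist (SeparationQuotient.mk x0 : HS) (((Phi L g) ^ n) (SeparationQuotient.mk x0))
      = |(n : ℝ) * Real.log 4| := by
  have h4 : (4 : L) ≠ 0 := by
    have : (4 : L) = 2 * 2 := by norm_num
    rw [this]; exact mul_ne_zero two_ne two_ne
  rw [← map_zpow, Phi_mk, SeparationQuotient.dist_mk, dist_HX]
  change Real.arcosh ‖h (e 0 : ℕ →₀ ℂ) (gC ((g ^ n : G L) : GLV L) (e 0))‖ = _
  rw [gC_e, Subgroup.coe_zpow, ← iV_e (L := L) 0, h_iV, (hg.zpow hk h4 n).e0, h_add_right,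
    h_smul_right, h_smul_right, h_e_self, h_e_ne (Ne.symm hk), mul_zero, add_zero, star_c]
  have hsg0 : (sg 0 : L) = -1 := by simp [sg]
  rw [hsg0, mul_neg, mul_one, map_neg, norm_neg, emb_c, norm_cosh, ← Real.cosh_abs,
    Real.arcosh_cosh (abs_nonneg _)]

theorem cosh_orbit {g g' : G L} {k k' : ℕ} (hk : k ≠ 0) (hk' : k' ≠ 0) (hkk : k ≠ k')
    (hg : isB (g : GLV L) k (4 : L)) (hg' : isB (g' : GLV L) k' (4 : L)) (n m : ℤ) :
    Real.cosh (dist (((Phi L g) ^ n) (SeparationQuotient.mk x0) : HS)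
      (((Phi L g') ^ m) (SeparationQuotient.mk x0)))
      = Real.cosh (n * Real.log 4) * Real.cosh (m * Real.log 4) := by
  have h4 : (4 : L) ≠ 0 := by
    have : (4 : L) = 2 * 2 := by norm_num
    rw [this]; exact mul_ne_zero two_ne two_ne
  rw [← map_zpow, ← map_zpow, Phi_mk, Phi_mk, SeparationQuotient.dist_mk, cosh_dist]
  change ‖h (gC ((g ^ n : G L) : GLV L) (e 0)) (gC ((g' ^ m : G L) : GLV L) (e 0))‖ = _
  rw [gC_e, gC_e, Subgroup.coe_zpow, Subgroup.coe_zpow, h_iV, (hg.zpow hk h4 n).e0,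
    (hg'.zpow hk' h4 m).e0]
  simp only [h_add_left, h_add_right, h_smul_left, h_smul_right, h_e_self, h_e_ne hkk, h_e_ne hk,
    h_e_ne (Ne.symm hk'), star_c, mul_zero, add_zero]
  have hsg0 : (sg 0 : L) = -1 := by simp [sg]
  rw [hsg0, mul_neg, mul_one, mul_neg, map_neg, norm_neg, map_mul, emb_c, emb_c, norm_mul,
    norm_cosh, norm_cosh, mul_comm]

theorem gromov_bound {g g' : G L} {k k' : ℕ} (hk : k ≠ 0) (hk' : k' ≠ 0) (hkk : k ≠ k')
    (hg : isB (g : GLV L) k (4 : L)) (hg' : isB (g' : GLV L) k' (4 : L)) (n m : ℤ) :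
    (dist (SeparationQuotient.mk x0 : HS) (((Phi L g) ^ n) (SeparationQuotient.mk x0))
      + dist (SeparationQuotient.mk x0 : HS) (((Phi L g') ^ m) (SeparationQuotient.mk x0))
      - dist (((Phi L g) ^ n) (SeparationQuotient.mk x0) : HS)
        (((Phi L g') ^ m) (SeparationQuotient.mk x0))) / 2 ≤ Real.log 4 := by
  rw [dist_orbit hk hg n, dist_orbit hk' hg' m]
  have key := cosh_orbit hk hk' hkk hg hg' n m
  set d := dist (((Phi L g) ^ n) (SeparationQuotient.mk x0) : HS)
    (((Phi L g') ^ m) (SeparationQuotient.mk x0)) with hd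
  have hd0 : 0 ≤ d := dist_nonneg
  set a := |(n : ℝ) * Real.log 4| with ha
  set b := |(m : ℝ) * Real.log 4| with hb
  rw [← Real.cosh_abs (n * Real.log 4), ← Real.cosh_abs (m * Real.log 4), ← ha, ← hb] at key
  have lo : ∀ t : ℝ, Real.exp t / 2 ≤ Real.cosh t := by
    intro t
    rw [Real.cosh_eq]
    have := Real.exp_pos (-t)
    linarith
  have hi : Real.cosh d ≤ Real.exp d := by
    rw [Real.cosh_eq]
    have : Real.exp (-d) ≤ Real.exp d := Real.exp_le_exp.2 (by linarith)
    linarith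
  have h1 : Real.exp a / 2 * (Real.exp b / 2) ≤ Real.cosh a * Real.cosh b :=
    mul_le_mul (lo a) (lo b) (by positivity) (by positivity)
  have h2 : Real.exp (a + b) ≤ Real.exp (Real.log 4 + d) := by
    rw [Real.exp_add, Real.exp_add, Real.exp_log (by norm_num)]
    linarith
  have h3 := Real.exp_le_exp.1 h2
  have h4 : 0 ≤ Real.log 4 := Real.log_nonneg (by norm_num)
  linarith

end act

end Pool.Agent.NoMax
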