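import Pool.Agent.Lib.MP_e2b313_al.Grp

namespace Pool.Agent.NoMax

section claimone

variable {L : Type} [Field L] [StarRing L] [FD L]

/-- `M` contains all diagonal elements trivial below `j` -/
def PiIn (M : Subgroup (GLV L)) (j : ℕ) : Prop :=
  ∀ D : GLV L, ∀ c : ℕ → L, isD D c → (∀ k, isY (c k)) → (∀ k, k < j → c k = 1) → D ∈ M

/-- bad indices -/
def Bad (M : Subgroup (GLV L)) (j : ℕ) (y : L) : Prop :=
  isY y ∧ ∀ D : GLV L, ∀ c : ℕ → L, isD D c → (∀ k, isY (c k)) → (∀ k, k < j → c k = 1) →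
    c j = y → D ∉ M

theorem Cox.finite_bad {M : Subgroup (GLV L)} (hM : Cox M) (hH : ¬ Hs L ≤ M) :
    ∃ j0 : ℕ, ∀ j, j0 ≤ j → ∀ y, ¬ Bad M j y := by
  classical
  by_contra hcon
  push Not at hcon
  -- the set of bad indices is infinite
  let S : Set ℕ := {j | ∃ y, Bad M j y}
  have hS : S.Infinite := by
    rw [Set.infinite_iff_exists_gt]
    intro a
    obtain ⟨j, hj, y, hy⟩ := hcon (a + 1)
    exact ⟨j, ⟨y, hy⟩, by omega⟩
  have hy : ∀ j : ℕ, ∃ y : L, isY y ∧ (j ∈ S → Bad M j y) := by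
    intro j
    by_cases hj : j ∈ S
    · obtain ⟨y, hy⟩ := hj
      exact ⟨y, hy.1, fun _ => hy⟩
    · exact ⟨1, isY.one, fun h => absurd h hj⟩
  choose y hyY hyB using hy
  let c : Set S → ℕ → L := fun A k => if ∃ hk : k ∈ S, (⟨k, hk⟩ : S) ∈ A then y k else 1
  have hcY : ∀ A k, isY (c A k) := by
    intro A k
    change isY (if ∃ hk : k ∈ S, (⟨k, hk⟩ : S) ∈ A then y k else 1)
    split_ifs
    · exact hyY k
    · exact isY.one
  have hD : ∀ A : Set S, ∃ D : GLV L, isD D (c A) := fun A => exists_isD _ fun k => (hcY A k).ne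
  choose D hD using hD
  have hdec : ∀ A : Set S, ∃ x : Hs L, ∃ m ∈ M, D A = (x : GLV L) * m := by
    intro A
    obtain ⟨x, hx, m, hm, h⟩ := hM.sup (Hs_le_G) (fun g hg x hx => Hs_normal hg hx) hH
      ((hD A).mem_G (hcY A))
    exact ⟨⟨x, hx⟩, m, hm, h⟩
  choose x m hm hxm using hdec
  -- injectivity of `x`
  have hkey : ∀ A A' : Set S, x A = x A' → ∀ j : S, j ∈ A' → j ∉ A →
      (∀ i : S, i < j → (i ∈ A ↔ i ∈ A')) → False := by
    intro A A' hxx j hjA' hjA hij
    have h1 : (D A)⁻¹ * D A' ∈ M := by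
      rw [hxm A, hxm A', hxx]
      have : ((x A' : GLV L) * m A)⁻¹ * ((x A' : GLV L) * m A') = (m A)⁻¹ * m A' := by group
      rw [this]
      exact M.mul_mem (M.inv_mem (hm A)) (hm A')
    have h2 := (hD A).inv.mul (hD A')
    refine (hyB j j.2).2 _ _ h2 (fun k => (hcY A k).inv.mul (hcY A' k)) ?_ ?_ h1
    · intro k hk
      have h3 : c A k = c A' k := by
        change (if ∃ hk : k ∈ S, (⟨k, hk⟩ : S) ∈ A then y k else 1)
          = (if ∃ hk : k ∈ S, (⟨k, hk⟩ : S) ∈ A' then y k else 1)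
        congr 1
        apply propext
        constructor
        · rintro ⟨hkS, hkA⟩
          exact ⟨hkS, (hij ⟨k, hkS⟩ hk).1 hkA⟩
        · rintro ⟨hkS, hkA⟩
          exact ⟨hkS, (hij ⟨k, hkS⟩ hk).2 hkA⟩
      change (c A k)⁻¹ * c A' k = 1
      rw [h3, inv_mul_cancel₀ (hcY A' k).ne]
    · have h3 : c A j = 1 := by
        change (if ∃ hk : (j : ℕ) ∈ S, (⟨j, hk⟩ : S) ∈ A then y j else 1) = 1
        rw [if_neg]
        rintro ⟨_, h⟩
        exact hjA h
      have h4 : c A' j = y j := by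
        change (if ∃ hk : (j : ℕ) ∈ S, (⟨j, hk⟩ : S) ∈ A' then y j else 1) = y j
        rw [if_pos]
        exact ⟨j.2, hjA'⟩
      change (c A j)⁻¹ * c A' j = y j
      rw [h3, h4, inv_one, one_mul]
  have hinj : Function.Injective x := by
    intro A A' hxx
    by_contra hne
    have hex : ∃ j : S, ¬ (j ∈ A ↔ j ∈ A') := by
      by_contra hall
      push Not at hall
      exact hne (Set.ext hall)
    -- minimal such element
    obtain ⟨j, hj, hjmin⟩ := WellFounded.has_min (wellFounded_lt (α := S))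
      {j : S | ¬ (j ∈ A ↔ j ∈ A')} hex
    have hij : ∀ i : S, i < j → (i ∈ A ↔ i ∈ A') := by
      intro i hi
      by_contra hcon2
      exact hjmin i hcon2 hi
    by_cases hjA : j ∈ A
    · have hjA' : j ∉ A' := fun h => hj ⟨fun _ => h, fun _ => hjA⟩
      exact hkey A' A hxx.symm j hjA hjA' fun i hi => (hij i hi).symm
    · have hjA' : j ∈ A' := by
        by_contra h
        exact hj ⟨fun h' => absurd h' hjA, fun h' => absurd h' h⟩
      exact hkey A A' hxx j hjA' hjA hij
  have hctb : Countable (Hs L) := countable_Hs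
  have hctb2 : Countable (Set S) := hinj.countable
  obtain ⟨f, hf⟩ := exists_injective_nat (Set S)
  have : Infinite S := hS.to_subtype
  let g := Infinite.natEmbedding S
  exact Function.cantor_injective (fun A => g (f A)) (g.injective.comp hf)

theorem Cox.claim1 {M : Subgroup (GLV L)} (hM : Cox M) (hH : ¬ Hs L ≤ M) :
    (∃ j, PiIn M j) ∨ CommIn M := by
  classical
  obtain ⟨j0, hj0⟩ := hM.finite_bad hH
  -- the enlarged subgroup
  let Q : ℕ → GLV L → Prop := fun J g => ∃ m ∈ M, EvD J m ∧ ∃ D : GLV L, ∃ c : ℕ → L, isD D c ∧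
    (∀ k, isY (c k)) ∧ (∀ k, k < J → c k = 1) ∧ g = m * D
  have hraise : ∀ J, j0 ≤ J → ∀ g, Q J g → Q (J + 1) g := by
    rintro J hJ g ⟨m, hm, hmJ, D, c, hD, hcY, hc1, rfl⟩
    have h1 := hj0 J hJ (c J)
    unfold Bad at h1
    push Not at h1
    obtain ⟨D', c', hD', hc'Y, hc'1, hc'J, hD'M⟩ := h1 (hcY J)
    refine ⟨m * D', M.mul_mem hm hD'M, (hmJ.mono (Nat.le_succ J)).mul ?_, D'⁻¹ * D,
      _, hD'.inv.mul hD, fun k => (hc'Y k).inv.mul (hcY k), ?_, by group⟩
    · intro k _
      exact ⟨c' k, hD' k⟩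
    · intro k hk
      change (c' k)⁻¹ * c k = 1
      rcases Nat.lt_succ_iff_lt_or_eq.1 hk with hk | rfl
      · rw [hc'1 k hk, hc1 k hk, inv_one, one_mul]
      · rw [hc'J, inv_mul_cancel₀ (hcY k).ne]
  have hraise' : ∀ J, j0 ≤ J → ∀ g, Q J g → ∀ J', J ≤ J' → Q J' g := by
    intro J hJ g hg J' hJ'
    induction J', hJ' using Nat.le_induction with
    | base => exact hg
    | succ n hn ih => exact hraise n (hJ.trans hn) g ih
  have hQG : ∀ J g, Q J g → g ∈ G L := by
    rintro J g ⟨m, hm, hmJ, D, c, hD, hcY, hc1, rfl⟩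
    exact (G L).mul_mem (hM.le hm) (hD.mem_G hcY)
  let K : Subgroup (GLV L) :=
    { carrier := {g | ∃ J, j0 ≤ J ∧ Q J g}
      mul_mem' := by
        rintro a b ⟨J, hJ, ha⟩ ⟨J', hJ', hb⟩
        have ha' := hraise' J hJ a ha (max J J') (le_max_left _ _)
        have hb' := hraise' J' hJ' b hb (max J J') (le_max_right _ _)
        refine ⟨max J J', hJ.trans (le_max_left _ _), ?_⟩
        obtain ⟨m, hm, hmJ, D, c, hD, hcY, hc1, rfl⟩ := ha'
        obtain ⟨m', hm', hmJ', D', c', hD', hcY', hc1', rfl⟩ := hb'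
        refine ⟨m * m', M.mul_mem hm hm', hmJ.mul hmJ', D * D', _, hD.mul hD',
          fun k => (hcY k).mul (hcY' k), ?_, ?_⟩
        · intro k hk
          change c k * c' k = 1
          rw [hc1 k hk, hc1' k hk, one_mul]
        · have h1 := diag_commute (hM.le hm').1 hmJ' hD hc1
          calc m * D * (m' * D') = m * (D * m') * D' := by group
            _ = m * (m' * D) * D' := by rw [h1]
            _ = m * m' * (D * D') := by group
      one_mem' := ⟨j0, le_rfl, 1, M.one_mem, fun k _ => ⟨1, by simp⟩, 1, fun _ => 1,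
        fun k => by simp, fun k => isY.one, fun _ _ => rfl, by simp⟩
      inv_mem' := by
        rintro a ⟨J, hJ, m, hm, hmJ, D, c, hD, hcY, hc1, rfl⟩
        refine ⟨J, hJ, m⁻¹, M.inv_mem hm, hmJ.inv, D⁻¹, _, hD.inv, fun k => (hcY k).inv, ?_, ?_⟩
        · intro k hk
          change (c k)⁻¹ = 1
          rw [hc1 k hk, inv_one]
        · have h1 := diag_commute (hM.le hm).1 hmJ hD hc1
          rw [← h1]; group }
  have hMK : M ≤ K := by
    intro m hm
    obtain ⟨n, hn⟩ := (hM.le hm).2.2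
    exact ⟨max j0 n, le_max_left _ _, m, hm, hn.mono (le_max_right _ _), 1, fun _ => 1,
      fun k => by simp, fun k => isY.one, fun _ _ => rfl, by simp⟩
  have hKG : K ≤ G L := by
    rintro g ⟨J, _, hg⟩
    exact hQG J g hg
  rcases hM.mx K hMK hKG with hK | hK
  · left
    refine ⟨j0, ?_⟩
    intro D c hD hcY hc1
    rw [← hK]
    exact ⟨j0, le_rfl, 1, M.one_mem, fun k _ => ⟨1, by simp⟩, D, c, hD, hcY, hc1, by simp⟩
  · right
    intro g hg g' hg'
    have h1 : g ∈ K := by rw [hK]; exact hg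
    have h2 : g' ∈ K := by rw [hK]; exact hg'
    obtain ⟨J, hJ, h1⟩ := h1
    obtain ⟨J', hJ', h2⟩ := h2
    have ha' := hraise' J hJ g h1 (max J J') (le_max_left _ _)
    have hb' := hraise' J' hJ' g' h2 (max J J') (le_max_right _ _)
    obtain ⟨m, hm, hmJ, D, c, hD, hcY, hc1, rfl⟩ := ha'
    obtain ⟨m', hm', hmJ', D', c', hD', hcY', hc1', rfl⟩ := hb'
    have e1 : D * m = m * D := diag_commute (hM.le hm).1 hmJ hD hc1
    have e2 : D * m' = m' * D := diag_commute (hM.le hm').1 hmJ' hD hc1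
    have e3 : D' * m = m * D' := diag_commute (hM.le hm).1 hmJ hD' hc1'
    have e4 : D' * m' = m' * D' := diag_commute (hM.le hm').1 hmJ' hD' hc1'
    have e5 : D * D' = D' * D := by
      apply glv_ext
      intro k
      rw [mul_apply', mul_apply', hD k, hD' k, map_smul, map_smul, hD k, hD' k, smul_comm]
    have h3 : m * D * (m' * D') * (m * D)⁻¹ * (m' * D')⁻¹ = m * m' * m⁻¹ * m'⁻¹ := by
      have e6 : m * D * (m' * D') = m * m' * (D * D') := by
        calc m * D * (m' * D') = m * (D * m') * D' := by group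
          _ = m * (m' * D) * D' := by rw [e2]
          _ = m * m' * (D * D') := by group
      have e7 : (m' * D') * (m * D) = m' * m * (D * D') := by
        calc m' * D' * (m * D) = m' * (D' * m) * D := by group
          _ = m' * (m * D') * D := by rw [e3]
          _ = m' * m * (D' * D) := by group
          _ = m' * m * (D * D') := by rw [e5]
      calc m * D * (m' * D') * (m * D)⁻¹ * (m' * D')⁻¹
          = (m * D * (m' * D')) * ((m' * D') * (m * D))⁻¹ := by group
        _ = (m * m' * (D * D')) * (m' * m * (D * D'))⁻¹ := by rw [e6, e7]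
        _ = m * m' * m⁻¹ * m'⁻¹ := by group
    rw [h3]
    exact M.mul_mem (M.mul_mem (M.mul_mem hm hm') (M.inv_mem hm)) (M.inv_mem hm')

/-- divisible elements lie in maximal subgroups containing all commutators -/
theorem div_mem {Γ : Type*} [Group Γ] {M : Subgroup Γ} (hM : IsCoatom M)
    (hcomm : ∀ a b : Γ, a * b * a⁻¹ * b⁻¹ ∈ M) {x : Γ}
    (hdiv : ∀ n : ℕ, 0 < n → ∃ z : Γ, z ^ n = x) : x ∈ M := by
  by_contra hx
  have hn : M.Normal := by
    constructor
    intro n hn g
    have h1 := M.mul_mem (hcomm g n) hn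
    have h2 : g * n * g⁻¹ * n⁻¹ * n = g * n * g⁻¹ := by group
    rwa [h2] at h1
  let q := QuotientGroup.mk' M
  have hq : ∀ z : Γ, ∃ k : ℤ, q z = (q x) ^ k := by
    intro z
    have h1 : M ≤ (Subgroup.zpowers (q x)).comap q := by
      intro m hm
      rw [Subgroup.mem_comap]
      have : q m = 1 := (QuotientGroup.eq_one_iff m).2 hm
      rw [this]
      exact Subgroup.one_mem _
    have h2 : (Subgroup.zpowers (q x)).comap q = ⊤ := by
      apply hM.2
      refine lt_of_le_of_ne h1 ?_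
      intro heq
      apply hx
      rw [heq, Subgroup.mem_comap]
      exact Subgroup.mem_zpowers _
    have h3 : z ∈ (Subgroup.zpowers (q x)).comap q := by rw [h2]; trivial
    obtain ⟨k, hk⟩ := h3
    exact ⟨k, hk.symm⟩
  have hqx : q x ≠ 1 := fun h => hx ((QuotientGroup.eq_one_iff x).1 h)
  obtain ⟨z, hz⟩ := hdiv 2 (by norm_num)
  obtain ⟨k, hk⟩ := hq z
  have h1 : (q x) ^ (2 * k - 1) = 1 := by
    have h2 : (q x) ^ (2 * k) = q x := by
      conv_rhs => rw [← hz, map_pow, hk]
      rw [← zpow_natCast, ← zpow_mul]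
      congr 1; push_cast; ring
    rw [zpow_sub_one, h2, mul_inv_cancel]
  have h2 : (q x) ^ (2 * k - 1).natAbs = 1 := by
    rcases Int.natAbs_eq (2 * k - 1) with h | h
    · rw [h] at h1
      exact_mod_cast h1
    · rw [h, zpow_neg, inv_eq_one] at h1
      exact_mod_cast h1
  obtain ⟨z', hz'⟩ := hdiv (2 * k - 1).natAbs (by omega)
  obtain ⟨j, hj⟩ := hq z'
  apply hqx
  rw [← hz', map_pow, hj, ← zpow_natCast, ← zpow_mul, mul_comm, zpow_mul, zpow_natCast, h2,
    one_zpow]

end claimone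

end Pool.Agent.NoMax
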