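import Pool.Agent.Lib.MP_e2b313_al.Trick

namespace Pool.Agent.NoMax

section dense

variable {L : Type} [Field L] [StarRing L] [FD L]

/-- density of `M` in `G` -/
def Dense' (M : Subgroup (GLV L)) : Prop :=
  ∀ b : ℝ, 0 < b → ∀ g ∈ G L, ∃ m ∈ M, ∀ k l, N ((m (e k) - g (e k) : ℕ →₀ L) l) ≤ b

theorem Cox.dense {M : Subgroup (GLV L)} (hM : Cox M)
    (hno : ∀ (b : ℝ) (hb : 0 < b), ¬ Hb L b hb.le ≤ M) : Dense' M := by
  intro b hb g hg
  obtain ⟨x, hx, m, hm, hgx⟩ := hM.sup ((Hb_le_Hs hb.le).trans Hs_le_G)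
    (fun g hg x hx => Hb_normal hb.le hg hx) (hno b hb) hg
  refine ⟨m, hm, fun k l => ?_⟩
  have h1 : m = x⁻¹ * g := by rw [hgx]; group
  have h2 : (m (e k) - g (e k) : ℕ →₀ L) = dsp (x⁻¹) (g (e k)) := by rw [dsp_apply, h1]; rfl
  rw [h2]
  have h3 := disp_le (A := dsp (x⁻¹)) hb.le zero_le_one ((Hb L b hb.le).inv_mem hx).2
    (G_bd hg zero_le_one (e_bd k)) l
  rwa [mul_one] at h3

theorem h_sm {x y : ℕ →₀ L} (hx : ∀ l, Sm (x l)) (hy : ∀ l, Bd (y l)) : Sm (h x y) := by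
  unfold Sm
  rw [h_eq_sum x y x.support (Finset.Subset.refl _)]
  apply N_sum_lt _ _ one_pos
  intro i _
  exact (hx i).mul ((Bd.sg i).mul (hy i).conj)

theorem h_bd {x y : ℕ →₀ L} (hx : ∀ l, Bd (x l)) (hy : ∀ l, Bd (y l)) : Bd (h x y) := by
  unfold Bd
  rw [h_eq_sum x y x.support (Finset.Subset.refl _)]
  apply N_sum_le _ _ zero_le_one
  intro i _
  exact (hx i).mul ((Bd.sg i).mul (hy i).conj)

/-- vectors congruent to `e k` -/
def Cl (k : ℕ) (w : ℕ →₀ L) : Prop := ∀ l, Sm ((w - e k : ℕ →₀ L) l)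

theorem Cl.bd {k : ℕ} {w : ℕ →₀ L} (hw : Cl k w) (l : ℕ) : Bd (w l) := by
  have h1 : w l = (w - e k : ℕ →₀ L) l + (e k : ℕ →₀ L) l := by simp
  rw [h1]
  exact (hw l).bd.add (e_bd k l)
theorem Cl.u1 {k : ℕ} {w : ℕ →₀ L} (hw : Cl k w) : U1 (w k) := by
  have h1 := hw k
  rw [Finsupp.sub_apply, e_same] at h1
  exact h1
theorem Cl.sm {k : ℕ} {w : ℕ →₀ L} (hw : Cl k w) {l : ℕ} (hl : l ≠ k) : Sm (w l) := by
  have h1 := hw l
  rw [Finsupp.sub_apply, e_ne hl.symm, sub_zero] at h1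
  exact h1
theorem Cl_e (k : ℕ) : Cl k (e k : ℕ →₀ L) := fun l => by rw [sub_self]; exact Sm.zero
theorem Cl_iff {k : ℕ} {w : ℕ →₀ L} : Cl k w ↔ U1 (w k) ∧ ∀ l, l ≠ k → Sm (w l) := by
  constructor
  · intro h
    exact ⟨h.u1, fun l hl => h.sm hl⟩
  · rintro ⟨h1, h2⟩ l
    rw [Finsupp.sub_apply]
    by_cases hl : l = k
    · subst hl
      rw [e_same]; exact h1
    · rw [e_ne (Ne.symm hl), sub_zero]; exact h2 l hl
theorem Cl.h_sub {k : ℕ} {v w : ℕ →₀ L} (hv : Cl k v) (hw : Cl k w) : Sm (h v w - sg k) := by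
  have h1 : h v w - sg k = h (v - e k) w + star (h (w - e k) (e k)) := by
    rw [star_h, h_sub_left, h_sub_right, h_e_self]; ring
  rw [h1]
  exact (h_sm hv hw.bd).add (h_sm hw (fun l => e_bd k l)).conj
theorem Cl.h_u1 {k : ℕ} (hk : 1 ≤ k) {v w : ℕ →₀ L} (hv : Cl k v) (hw : Cl k w) : U1 (h v w) := by
  have := hv.h_sub hw
  rwa [sg_pos hk] at this
theorem Cl.N_h_inv {k : ℕ} {w : ℕ →₀ L} (hw : Cl k w) :
    h w w ≠ 0 ∧ Bd ((h w w)⁻¹) := by
  have h1 : U1 (sg k * h w w) := by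
    have h2 := hw.h_sub hw
    have h3 : sg k * h w w - 1 = sg k * (h w w - sg k) := by
      linear_combination (1 : L) * sg_mul_sg (L := L) k
    unfold U1
    rw [h3]
    exact (Bd.sg k).mul_sm h2
  have h2 := h1.ne
  refine ⟨fun h0 => h2 (by rw [h0, mul_zero]), ?_⟩
  have h3 := h1.N_inv
  rw [mul_inv] at h3
  have h4 : (sg k : L)⁻¹ = sg k := by
    rw [inv_eq_iff_eq_inv]; exact (eq_inv_of_mul_eq_one_right (sg_mul_sg k))
  rw [h4, N_sg_mul] at h3
  exact h3.le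

theorem isR.mem_G {T : GLV L} {k : ℕ} {w : ℕ →₀ L} {y : L} (hw : Cl k w) (hy : isY y)
    (hT : isR T w y) : T ∈ G L := by
  obtain ⟨hw0, hwi⟩ := hw.N_h_inv
  refine ⟨hT.iso hw0 hy.1, ?_, ?_⟩
  · intro m l
    rw [hT, add_sub_cancel_left, Finsupp.smul_apply, smul_eq_mul, div_eq_mul_inv]
    exact ((hy.sm.mul (h_bd (e_bd m) hw.bd)).mul hwi).mul (hw.bd l)
  · classical
    refine ⟨w.support.sup id + 1, fun m hm => ⟨1, ?_⟩⟩
    have h1 : w m = 0 := by
      by_contra h0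
      have h2 : m ≤ w.support.sup id :=
        Finset.le_sup (f := id) (Finsupp.mem_support_iff.2 h0)
      omega
    rw [hT, h_e_left, h1, star_zero, mul_zero, mul_zero, zero_div, zero_smul, add_zero, one_smul]

theorem approx {M : Subgroup (GLV L)} (hM : Dense' M) (hMG : M ≤ G L) {k l : ℕ} (hk : 1 ≤ k)
    (hkl : k ≠ l) {t : L} (ht : star t = t) (hts : Sm t) (ht0 : t ≠ 0) :
    ∃ m ∈ M, Cl k (m (e k)) ∧ (m (e k)) l ≠ 0 ∧ N (((m (e k)) l)⁻¹) ≤ ((ν t)⁻¹) ^ 2 ∧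
      ∀ i, i ≠ k → i ≠ l → Sm ((m (e k)) i * ((m (e k)) l)⁻¹) := by
  have hνt : 0 < ν t := ν_pos ht0
  have hνt1 : ν t < 1 := by rw [← N_real ht]; exact hts
  set w : ℕ →₀ L := e k + t • e l with hw
  have hwk : w k = 1 := by
    rw [hw, Finsupp.add_apply, Finsupp.smul_apply, e_same, e_ne hkl.symm, smul_zero, add_zero]
  have hwl : w l = t := by
    rw [hw, Finsupp.add_apply, Finsupp.smul_apply, e_same, e_ne hkl, smul_eq_mul, mul_one, zero_add]
  have hwi : ∀ i, i ≠ k → i ≠ l → w i = 0 := by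
    intro i h1 h2
    rw [hw, Finsupp.add_apply, Finsupp.smul_apply, e_ne h1.symm, e_ne h2.symm, smul_zero, add_zero]
  have hwC : Cl k w := by
    rw [Cl_iff, hwk]
    refine ⟨U1.one, fun i hi => ?_⟩
    by_cases hil : i = l
    · rw [hil, hwl]; exact hts
    · rw [hwi i hi hil]; exact Sm.zero
  have hww : h w w = 1 + sg l * t ^ 2 := by
    rw [hw, h_add_left, h_add_right, h_add_right, h_smul_left, h_smul_right, h_smul_left,
      h_smul_right, h_e_self, h_e_self, h_e_ne hkl, h_e_ne hkl.symm, sg_pos hk, ht]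
    ring
  have hwwU : U1 (1 + sg l * t ^ 2) := by
    rw [sq]; exact ((Bd.sg l).mul_sm (hts.mul hts.bd)).one_add
  have hww0 := hwwU.ne
  have hy := isY_cay ht hts
  obtain ⟨R, hR⟩ := exists_isR (w := w) (by rw [hww]; exact hww0) hy.ne
  have hRG : R ∈ G L := hR.mem_G hwC hy
  have hRek : R (e k) = e k + ((cay t - 1) / (1 + sg l * t ^ 2)) • w := by
    rw [hR, h_e_left, hwk, star_one, mul_one, sg_pos hk, mul_one, hww]
  set β := (cay t - 1) / (1 + sg l * t ^ 2) * t with hβ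
  have hRl : (R (e k)) l = β := by
    rw [hRek, Finsupp.add_apply, Finsupp.smul_apply, e_ne hkl, hwl, zero_add, smul_eq_mul]
  have hRi : ∀ i, i ≠ k → i ≠ l → (R (e k)) i = 0 := by
    intro i h1 h2
    rw [hRek, Finsupp.add_apply, Finsupp.smul_apply, e_ne h1.symm, hwi i h1 h2, smul_zero, add_zero]
  have hc0 : cay t - 1 ≠ 0 := by
    intro h0
    have h1 := N_cay_sub_one_inv ht hts
    rw [h0, inv_zero, N_zero] at h1
    exact (inv_pos.2 hνt).ne h1
  have hβ0 : β ≠ 0 := mul_ne_zero (div_ne_zero hc0 hww0) ht0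
  have hβinv : N (β⁻¹) ≤ ((ν t)⁻¹) ^ 2 := by
    have h1 : β⁻¹ = (1 + sg l * t ^ 2) * ((cay t - 1)⁻¹ * t⁻¹) := by rw [hβ]; field_simp
    rw [h1, hwwU.N_mul]
    have h2 : N (t⁻¹) = (ν t)⁻¹ := by rw [N_real (by rw [star_inv₀, ht]), ν_inv]
    refine (N_mul _ _).trans ?_
    rw [N_cay_sub_one_inv ht hts, h2, sq]
  obtain ⟨m, hm, hmR⟩ := hM ((ν t) ^ 3) (by positivity) R hRG
  have hmG := hMG hm
  have hmC : Cl k (m (e k)) := fun l => hmG.2.1 k l
  have hml : (m (e k)) l = β * (1 + ((m (e k)) l - β) * β⁻¹) := by field_simp; ring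
  have hδ : N ((m (e k)) l - β) ≤ (ν t) ^ 3 := by
    have := hmR k l
    rwa [Finsupp.sub_apply, hRl] at this
  have hsmall : ∀ z : L, N z ≤ (ν t) ^ 3 → Sm (z * β⁻¹) := by
    intro z hz
    unfold Sm
    calc N (z * β⁻¹) ≤ N z * N (β⁻¹) := N_mul _ _
      _ ≤ (ν t) ^ 3 * ((ν t)⁻¹) ^ 2 := mul_le_mul hz hβinv (N_nonneg _) (by positivity)
      _ = ν t := by field_simp
      _ < 1 := hνt1
  have hU : U1 (1 + ((m (e k)) l - β) * β⁻¹) := (hsmall _ hδ).one_add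
  have hinv : ((m (e k)) l)⁻¹ = (1 + ((m (e k)) l - β) * β⁻¹)⁻¹ * β⁻¹ := by
    conv_lhs => rw [hml]
    rw [mul_inv, mul_comm]
  refine ⟨m, hm, hmC, ?_, ?_, ?_⟩
  · rw [hml]; exact mul_ne_zero hβ0 hU.ne
  · rw [hinv, hU.inv.N_mul]; exact hβinv
  · intro i hik hil
    rw [hinv]
    have h1 : (m (e k)) i * ((1 + ((m (e k)) l - β) * β⁻¹)⁻¹ * β⁻¹)
        = (1 + ((m (e k)) l - β) * β⁻¹)⁻¹ * ((m (e k)) i * β⁻¹) := by ring
    rw [h1]
    apply hU.inv.bd.mul_sm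
    apply hsmall
    have := hmR k i
    rwa [Finsupp.sub_apply, hRi i hik hil, sub_zero] at this

theorem exists_t {ζ : L} (hζ : Sm ζ) (n : ℕ) (hn : 0 < n) :
    ∃ t : L, star t = t ∧ Sm t ∧ t ≠ 0 ∧ N ζ < (ν t) ^ n := by
  have h1 : (N ζ) ^ ((1 : ℝ) / n) < 1 :=
    Real.rpow_lt_one (N_nonneg _) hζ (by positivity)
  obtain ⟨t, ht, htc, ht1⟩ := exists_real_val (L := L) h1
  have h0 : 0 ≤ (N ζ) ^ ((1 : ℝ) / n) := Real.rpow_nonneg (N_nonneg _) _
  have hνt : 0 < ν t := lt_of_le_of_lt h0 htc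
  refine ⟨t, ht, ?_, ?_, ?_⟩
  · unfold Sm; rwa [N_real ht]
  · rintro rfl
    rw [ν_zero] at hνt
    exact lt_irrefl _ hνt
  · have h2 : ((N ζ) ^ ((1 : ℝ) / n)) ^ n = N ζ := by
      rw [← Real.rpow_natCast, ← Real.rpow_mul (N_nonneg _)]
      rw [one_div_mul_cancel (by positivity), Real.rpow_one]
    rw [← h2]
    exact pow_lt_pow_left₀ htc h0 hn.ne'

theorem stepIa {M : Subgroup (GLV L)} (hMG : M ≤ G L) (hM : Dense' M) {j : ℕ} (hj : 1 ≤ j)
    (hPi : PiIn M j) {k i : ℕ} (hk : j ≤ k) (hi : j ≤ i) (hki : k ≠ i) {ζ : L} (hζ : Sm ζ) :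
    TT M k i ζ := by
  obtain ⟨t, ht, hts, ht0, hζt⟩ := exists_t hζ 4 (by norm_num)
  have hνt : 0 < ν t := ν_pos ht0
  have hi1 : 1 ≤ i := hj.trans hi
  have hk1 : 1 ≤ k := hj.trans hk
  obtain ⟨m, hm, hmC, hmk0, hmk, -⟩ := approx hM hMG hi1 (Ne.symm hki) ht hts ht0
  have Ri : RM M (e i) := RM_e_of_PiIn hPi hi
  have Rk : RM M (e k) := RM_e_of_PiIn hPi hk
  have hmI := (hMG hm).1
  have hu : h (m (e i)) (m (e i)) = 1 := by rw [hmI, h_e_self, sg_pos hi1]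
  obtain ⟨a, b, ha, hb, hb0, hbi, hR⟩ := trick hMG hi1 hk1 (Ne.symm hki) Ri Rk hu (Ri.map hm hmI)
    hmC.u1 (hmC.sm hki) hmk0 ht hts ht0
  apply TT_of_driver hk1 hki Rk ha hb hb0 hR
  · unfold Sm
    rw [div_eq_mul_inv]
    calc N (ζ * a * b⁻¹) ≤ N (ζ * a) * N (b⁻¹) := N_mul _ _
      _ ≤ N ζ * N (b⁻¹) := by
          apply mul_le_mul_of_nonneg_right _ (N_nonneg _)
          rw [mul_comm ζ a, ha.N_mul]
      _ ≤ N ζ * (((ν t)⁻¹) ^ 2 * ((ν t)⁻¹) ^ 2) := by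
          apply mul_le_mul_of_nonneg_left _ (N_nonneg _)
          exact hbi.trans (mul_le_mul_of_nonneg_right hmk (by positivity))
      _ < (ν t) ^ 4 * (((ν t)⁻¹) ^ 2 * ((ν t)⁻¹) ^ 2) :=
          mul_lt_mul_of_pos_right hζt (by positivity)
      _ = 1 := by field_simp
  · rw [sg_pos hi1, one_mul, re_add, re_one]
    have := re_mul_star_nonneg ζ
    linarith

omit [FD L] in
/-- coordinates outside the plane are preserved -/
theorem coord_fix {T : GLV L} (hT : Iso T) {m : ℕ} (hm : T (e m) = e m) (v : ℕ →₀ L) :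
    (T v) m = v m := by
  rw [coord_eq, coord_eq m v]
  congr 1
  conv_lhs => rw [← hm]
  exact hT v (e m)

theorem clean {M : Subgroup (GLV L)} (hMG : M ≤ G L) {k : ℕ} (S : Finset ℕ) (hkS : k ∉ S)
    (hT : ∀ i ∈ S, ∀ ζ : L, Sm ζ → TT M k i ζ) {v : ℕ →₀ L} (hvk : U1 (v k))
    (hv : ∀ i ∈ S, Sm (v i)) :
    ∃ T ∈ M, U1 ((T v) k) ∧ (∀ i ∈ S, (T v) i = 0) ∧ (∀ i, i ∉ S → i ≠ k → (T v) i = v i) ∧
      (∀ w : ℕ →₀ L, w k = 0 → (∀ i ∈ S, w i = 0) → T w = w) := by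
  classical
  induction S using Finset.induction_on with
  | empty => exact ⟨1, M.one_mem, hvk, by simp, fun i _ _ => rfl, fun w _ _ => rfl⟩
  | insert i S hiS ih =>
    have hkS' : k ∉ S := fun h => hkS (Finset.mem_insert_of_mem h)
    have hki : k ≠ i := by
      rintro rfl; exact hkS (Finset.mem_insert_self _ _)
    obtain ⟨T, hTM, hTk, hTS, hTn, hTf⟩ := ih hkS' (fun i' hi' => hT i' (Finset.mem_insert_of_mem hi'))
      (fun i' hi' => hv i' (Finset.mem_insert_of_mem hi'))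
    set v' := T v with hv'
    have hv'i : v' i = v i := hTn i hiS hki.symm
    have hζ : Sm (v' i / v' k) := by
      rw [hv'i]; exact (hv i (Finset.mem_insert_self _ _)).div_U1 hTk
    obtain ⟨T', hT'M, lam, hlam, hT'e, hT'f⟩ := hT i (Finset.mem_insert_self _ _) _ hζ
    have hT'G := hMG hT'M
    have hlamU : U1 lam := by
      have h1 := hT'G.2.1 k k
      rw [hT'e, Finsupp.sub_apply, Finsupp.smul_apply, Finsupp.add_apply, Finsupp.smul_apply,
        e_same, e_ne hki.symm, smul_zero, add_zero, smul_eq_mul, mul_one] at h1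
      exact h1
    have hk0 := hTk.ne
    -- decomposition of v'
    set rest := v' - (v' k) • (e k + (v' i / v' k) • (e i : ℕ →₀ L)) with hrest
    have hrk : rest k = 0 := by
      rw [hrest, Finsupp.sub_apply, Finsupp.smul_apply, Finsupp.add_apply, Finsupp.smul_apply,
        e_same, e_ne hki.symm, smul_zero, add_zero, smul_eq_mul, mul_one, sub_self]
    have hri : rest i = 0 := by
      rw [hrest, Finsupp.sub_apply, Finsupp.smul_apply, Finsupp.add_apply, Finsupp.smul_apply,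
        e_same, e_ne hki, zero_add, smul_eq_mul, smul_eq_mul, mul_one]
      field_simp
      ring
    have hTinv : T'⁻¹ v' = (v' k * lam⁻¹) • e k + rest := by
      have h1 : v' = T' ((v' k * lam⁻¹) • e k + rest) := by
        rw [map_add, map_smul, hT'e, hT'f rest hrk hri, smul_smul, mul_assoc,
          inv_mul_cancel₀ hlam, mul_one, hrest]
        abel
      conv_lhs => rw [h1]
      rw [inv_apply_self']
    have hT'inv_fix : ∀ w : ℕ →₀ L, w k = 0 → w i = 0 → T'⁻¹ w = w := by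
      intro w h1 h2
      conv_lhs => rw [← hT'f w h1 h2]
      rw [inv_apply_self']
    refine ⟨T'⁻¹ * T, M.mul_mem (M.inv_mem hT'M) hTM, ?_, ?_, ?_, ?_⟩
    · rw [mul_apply', ← hv', hTinv, Finsupp.add_apply, hrk, add_zero, Finsupp.smul_apply, e_same,
        smul_eq_mul, mul_one]
      exact hTk.mul hlamU.inv
    · intro i' hi'
      rw [mul_apply', ← hv', hTinv, Finsupp.add_apply, Finsupp.smul_apply]
      have hi'k : k ≠ i' := by
        rintro rfl; exact hkS hi'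
      rw [e_ne hi'k, smul_zero, zero_add]
      rcases Finset.mem_insert.1 hi' with rfl | hi'
      · exact hri
      · have hii' : i ≠ i' := by rintro rfl; exact hiS hi'
        rw [hrest, Finsupp.sub_apply, Finsupp.smul_apply, Finsupp.add_apply, Finsupp.smul_apply,
          e_ne hi'k, e_ne hii', smul_zero, add_zero, smul_zero, sub_zero]
        exact hTS i' hi'
    · intro i' hi' hi'k
      rw [mul_apply', ← hv', hTinv, Finsupp.add_apply, Finsupp.smul_apply, e_ne (Ne.symm hi'k),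
        smul_zero, zero_add]
      have hii' : i ≠ i' := by rintro rfl; exact hi' (Finset.mem_insert_self _ _)
      rw [hrest, Finsupp.sub_apply, Finsupp.smul_apply, Finsupp.add_apply, Finsupp.smul_apply,
        e_ne (Ne.symm hi'k), e_ne hii', smul_zero, add_zero, smul_zero, sub_zero]
      exact hTn i' (fun h => hi' (Finset.mem_insert_of_mem h)) hi'k
    · intro w hwk hwS
      rw [mul_apply', hTf w hwk (fun i' hi' => hwS i' (Finset.mem_insert_of_mem hi'))]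
      exact hT'inv_fix w hwk (hwS i (Finset.mem_insert_self _ _))

/-- orbit relation: `v` is in the `M`-orbit of the line of `e k` -/
def Ob (M : Subgroup (GLV L)) (k : ℕ) (v : ℕ →₀ L) : Prop :=
  ∃ T ∈ M, ∃ c : L, c ≠ 0 ∧ T (e k) = c • v

theorem Ob.rm {M : Subgroup (GLV L)} (hMG : M ≤ G L) {k : ℕ} (Rk : RM M (e k)) {v : ℕ →₀ L}
    (hv : Ob M k v) : RM M v := by
  obtain ⟨T, hT, c, hc, hTv⟩ := hv
  have h1 : v = c⁻¹ • T (e k) := by rw [hTv, smul_smul, inv_mul_cancel₀ hc, one_smul]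
  rw [h1]
  exact (Rk.map hT (hMG hT).1).smul (inv_ne_zero hc)

theorem Ob.re_pos {M : Subgroup (GLV L)} (hMG : M ≤ G L) {k : ℕ} (hk : 1 ≤ k) {v : ℕ →₀ L}
    (hv : Ob M k v) : 0 < re (h v v) := by
  obtain ⟨T, hT, c, hc, hTv⟩ := hv
  have h1 : h v v = (c⁻¹) * star (c⁻¹) := by
    have h2 : v = c⁻¹ • T (e k) := by rw [hTv, smul_smul, inv_mul_cancel₀ hc, one_smul]
    rw [h2, h_smul_left, h_smul_right, (hMG hT).1, h_e_self, sg_pos hk, mul_one]
  rw [h1]
  exact re_mul_star_pos (inv_ne_zero hc)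

theorem convex {M : Subgroup (GLV L)} (hMG : M ≤ G L) {k : ℕ} (hk : 1 ≤ k) (Rk : RM M (e k))
    {v₁ v₂ : ℕ →₀ L} (hv₁ : Ob M k v₁) (hv₂ : Ob M k v₂) (hc₁ : Cl k v₁) (hc₂ : Cl k v₂) {z : L}
    (hz : Sm z) (hpos : 0 < re (h (v₁ + z • (v₂ - v₁)) (v₁ + z • (v₂ - v₁)))) :
    Ob M k (v₁ + z • (v₂ - v₁)) := by
  have hU11 : U1 (h v₁ v₁) := hc₁.h_u1 hk hc₁
  have hU22 : U1 (h v₂ v₂) := hc₂.h_u1 hk hc₂
  have hU21 : U1 (h v₂ v₁) := hc₂.h_u1 hk hc₁
  have h110 := hU11.ne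
  set c := h v₂ v₁ / h v₁ v₁ with hc
  have hcU : U1 c := hU21.div hU11
  have hc0 := hcU.ne
  have hcs0 := hcU.conj.ne
  have hR1 := hv₁.rm hMG Rk
  have hR2 := hv₂.rm hMG Rk
  have hch : c * h v₁ v₁ = h v₂ v₁ := by rw [hc]; field_simp
  have hpq : h (c • v₁) (v₂ - c • v₁) = 0 := by
    rw [h_sub_right, h_smul_left, h_smul_left, h_smul_right, ← star_h v₂ v₁, ← hch, star_mul',
      star_h_self]
    ring
  have hP : h (c • v₁) (c • v₁) = c * star c * h v₁ v₁ := by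
    rw [h_smul_left, h_smul_right]; ring
  have hQ : h (v₂ - c • v₁) (v₂ - c • v₁) = h v₂ v₂ - c * star c * h v₁ v₁ := by
    have h1 : h v₂ v₂ = h (c • v₁ + (v₂ - c • v₁)) (c • v₁ + (v₂ - c • v₁)) := by
      congr 1 <;> abel
    rw [h1, h_add_left, h_add_right, h_add_right, hpq, hP, ← star_h (c • v₁) (v₂ - c • v₁), hpq,
      star_zero]
    ring
  have hPU : U1 (c * star c * h v₁ v₁) := (hcU.mul hcU.conj).mul hU11
  have hr : Sm (h (v₂ - c • v₁) (v₂ - c • v₁) / h (c • v₁) (c • v₁)) := by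
    rw [hP, hQ]
    apply Sm.div_U1 _ hPU
    have : h v₂ v₂ - c * star c * h v₁ v₁
        = (h v₂ v₂ - 1) - (c * star c * h v₁ v₁ - 1) := by ring
    rw [this]
    exact hU22.sm.sub hPU.sm
  have hD : U1 (1 - z * (1 - c)) := by
    apply Sm.one_sub
    exact hz.mul (Bd.one.sub hcU.bd)
  have hD0 := hD.ne
  set D := 1 - z * (1 - c) with hDd
  set z1 := z * c / D with hz1
  have hz1s : Sm z1 := (hz.mul hcU.bd).div_U1 hD
  have hvec : D • (c • v₁ + z1 • (v₂ - c • v₁)) = c • (v₁ + z • (v₂ - v₁)) := by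
    have h1 : D • (c • v₁ + z1 • (v₂ - c • v₁)) = (D * c) • v₁ + (z * c) • (v₂ - c • v₁) := by
      rw [smul_add, smul_smul, smul_smul, hz1]
      congr 2
      field_simp
    rw [h1, hDd]
    module
  have hpos' : 0 < re (1 + h (v₂ - c • v₁) (v₂ - c • v₁) / h (c • v₁) (c • v₁) * (z1 * star z1)) := by
    have hP0 := hPU.ne
    have h1 : h (c • v₁ + z1 • (v₂ - c • v₁)) (c • v₁ + z1 • (v₂ - c • v₁))
        = h (c • v₁) (c • v₁) * (1 + h (v₂ - c • v₁) (v₂ - c • v₁) / h (c • v₁) (c • v₁) *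
            (z1 * star z1)) := by
      rw [← hP] at hP0
      rw [h_add_left, h_add_right, h_add_right, h_smul_left z1, h_smul_right z1, h_smul_left z1,
        h_smul_right z1, hpq, ← star_h (c • v₁) (v₂ - c • v₁), hpq, star_zero]
      field_simp
      ring
    have h2 : D * star D * h (c • v₁ + z1 • (v₂ - c • v₁)) (c • v₁ + z1 • (v₂ - c • v₁))
        = c * star c * h (v₁ + z • (v₂ - v₁)) (v₁ + z • (v₂ - v₁)) := by
      have h3 := congrArg (fun v => h v v) hvec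
      simp only [h_smul_left, h_smul_right] at h3
      linear_combination h3
    have h4 : 0 < re (D * star D) := re_mul_star_pos hD0
    have h5 : 0 < re (c * star c) := re_mul_star_pos hc0
    have h6 : 0 < re (h v₁ v₁) := hv₁.re_pos hMG hk
    have hPpos : 0 < re (h (c • v₁) (c • v₁)) := by
      rw [hP, re_mul (star_mul_star c)]
      exact mul_pos h5 h6
    have h7 := congrArg (re : L → ℝ) h2
    rw [re_mul (star_mul_star D), re_mul (star_mul_star c), h1, re_mul (star_h_self _)] at h7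
    have h8 := mul_pos h5 hpos
    rw [← h7] at h8
    exact pos_of_mul_pos_right (pos_of_mul_pos_right h8 h4.le) hPpos.le
  have hsum : c • v₁ + (v₂ - c • v₁) = v₂ := by abel
  obtain ⟨T, hT, lam, hlam, hTp, -⟩ := plane hpq hr (hR1.smul hc0) (by rw [hsum]; exact hR2) hz1s
    hpos'
  obtain ⟨T₁, hT₁, c₁, hc₁0, hT₁e⟩ := hv₁
  refine ⟨T * T₁, M.mul_mem hT hT₁, c₁ * (lam * D⁻¹), ?_, ?_⟩
  · exact mul_ne_zero hc₁0 (mul_ne_zero hlam (inv_ne_zero hD0))
  · rw [mul_apply', hT₁e, map_smul]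
    have h1 : c • T v₁ = c • ((lam * D⁻¹) • (v₁ + z • (v₂ - v₁))) := by
      rw [← map_smul, hTp, smul_comm c, ← hvec, smul_smul, mul_assoc, inv_mul_cancel₀ hD0, mul_one]
    have h2 : T v₁ = (lam * D⁻¹) • (v₁ + z • (v₂ - v₁)) := smul_right_injective _ hc0 h1
    rw [h2, smul_smul]

end dense

end Pool.Agent.NoMax
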