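import Pool.Agent.Lib.MP_e2b313_al.Fld

namespace Pool.Agent.NoMax

/-- The field of algebraic numbers. -/
abbrev Alg : Type := algebraicClosure ℚ ℂ

theorem conj_mem_Alg {x : ℂ} (h : x ∈ algebraicClosure ℚ ℂ) :
    (starRingEnd ℂ) x ∈ algebraicClosure ℚ ℂ := by
  let i : ℂ →ₐ[ℚ] ℂ := ((Complex.conjAe.restrictScalars ℚ : ℂ ≃ₐ[ℚ] ℂ) : ℂ →ₐ[ℚ] ℂ)
  exact (map_mem_algebraicClosure_iff i).2 h

noncomputable instance : StarRing Alg where
  star x := ⟨(starRingEnd ℂ) x.1, conj_mem_Alg x.2⟩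
  star_involutive x := by
    apply Subtype.ext
    exact Complex.conj_conj x.1
  star_mul x y := by
    apply Subtype.ext
    change (starRingEnd ℂ) (x.1 * y.1) = (starRingEnd ℂ) y.1 * (starRingEnd ℂ) x.1
    rw [map_mul, mul_comm]
  star_add x y := by
    apply Subtype.ext
    exact map_add (starRingEnd ℂ) x.1 y.1

instance : Fact (Nat.Prime 3) := ⟨by norm_num⟩

theorem alg_Alg : Algebra.IsAlgebraic ℚ (algebraicClosure ℚ ℂ) := algebraicClosure.isAlgebraic ℚ ℂ

/-- The 3-adic embedding. -/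
noncomputable def phi : Alg →+* PadicAlgCl 3 :=
  have := alg_Alg
  (IsAlgClosed.lift (R := ℚ) (S := algebraicClosure ℚ ℂ) (M := PadicAlgCl 3)).toRingHom

noncomputable instance : FD Alg where
  emb := (algebraicClosure ℚ ℂ).val.toRingHom
  emb_star x := rfl
  ν x := ‖phi x‖
  ν_mul x y := by rw [map_mul, norm_mul]
  ν_add x y := by
    rw [map_add]
    exact PadicAlgCl.isNonarchimedean 3 (phi x) (phi y)
  ν_zero := by rw [map_zero, norm_zero]
  ν_pos x hx := by
    rw [norm_pos_iff]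
    intro h
    exact hx (phi.injective (by simpa using h))
  ν_two := by
    have h : (phi 2 : PadicAlgCl 3) = algebraMap ℚ_[3] (PadicAlgCl 3) 2 := by
      rw [map_ofNat, map_ofNat]
    rw [h]
    have := PadicAlgCl.norm_extends 3 (2 : ℚ_[3])
    rw [this]
    have h2 : ‖((2 : ℕ) : ℚ_[3])‖ = 1 := by
      rw [Padic.norm_natCast_eq_one_iff]
      norm_num
    exact_mod_cast h2
  ν_three := by
    have h : (phi 3 : PadicAlgCl 3) = algebraMap ℚ_[3] (PadicAlgCl 3) 3 := by
      rw [map_ofNat, map_ofNat]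
    rw [h]
    have := PadicAlgCl.norm_extends 3 (3 : ℚ_[3])
    rw [this]
    have h2 := Padic.norm_p_lt_one (p := 3)
    exact_mod_cast h2
  closed := by
    have := algebraicClosure.isAlgClosure ℚ ℂ
    exact this.isAlgClosed
  ctbl := by
    have h := Algebraic.countable ℚ ℂ
    have h2 : ((algebraicClosure ℚ ℂ : IntermediateField ℚ ℂ) : Set ℂ).Countable := by
      refine h.mono ?_
      intro x hx
      exact mem_algebraicClosure_iff.1 hx
    exact h2.to_subtype

end Pool.Agent.NoMax
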