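import Pool.Agent.Lib.MP_e2b313_al.StepC

namespace Pool.Agent.NoMax

section stepd

variable {L : Type} [Field L] [StarRing L] [FD L]

/-- removing one index -/
theorem PiIn.down {M : Subgroup (GLV L)} {s : ℕ} (h1 : PiIn M (s + 1))
    (h2 : ∀ (y : L) (D : GLV L), isY y → DG D s y → D ∈ M) : PiIn M s := by
  classical
  intro D c hD hc hc1
  obtain ⟨P, hP, hPG⟩ := exists_DG s (hc s)
  have hc' : ∀ i, isY (if i = s then (1 : L) else c i) := by
    intro i
    split_ifs
    · exact isY.one
    · exact hc i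
  obtain ⟨D', hD'⟩ := exists_isD (fun i => if i = s then (1 : L) else c i) fun i => (hc' i).ne
  have hD'M : D' ∈ M := by
    apply h1 D' _ hD' hc'
    intro i hi
    by_cases his : i = s
    · rw [if_pos his]
    · rw [if_neg his]; exact hc1 i (by omega)
  have hprod : D = D' * P := by
    apply glv_ext
    intro i
    have hD'i : D' (e i) = (if i = s then (1 : L) else c i) • e i := hD' i
    rw [mul_apply', hP.ei i, map_smul, hD'i, hD i]
    by_cases his : i = s
    · rw [if_pos his, if_pos his, one_smul, his]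
    · rw [if_neg his, if_neg his, one_smul]
  rw [hprod]
  exact M.mul_mem hD'M (h2 _ _ (hc s) hP)

theorem PiIn.to_one {M : Subgroup (GLV L)} {j : ℕ} (hj : 1 ≤ j) (h1 : PiIn M j)
    (h2 : ∀ l, 1 ≤ l → l < j → ∀ (y : L) (D : GLV L), isY y → DG D l y → D ∈ M) : PiIn M 1 := by
  induction j, hj using Nat.le_induction with
  | base => exact h1
  | succ n hn ih =>
    apply ih
    · exact h1.down (h2 n hn (Nat.lt_succ_self n))
    · intro l hl hln
      exact h2 l hl (by omega)

theorem PiIn.DG_mem {M : Subgroup (GLV L)} {j : ℕ} (h1 : PiIn M j) {k : ℕ} (hk : j ≤ k)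
    {y : L} {D : GLV L} (hy : isY y) (hD : DG D k y) : D ∈ M := by
  classical
  apply h1 D _ hD
  · intro i
    split_ifs
    · exact hy
    · exact isY.one
  · intro i hi
    rw [if_neg (by omega)]

/-- scalars -/
theorem Cox.scalar {M : Subgroup (GLV L)} (hM : Cox M) (hC : ¬ CommIn M) {y : L} (hy : isY y)
    {S : GLV L} (hS : isD S (fun _ => y)) : S ∈ M := by
  have hSv : ∀ (y : L) (S : GLV L), isD S (fun _ => y) → ∀ v, S v = y • v := by
    intro y S hS v
    ext i
    rw [hS.apply, Finsupp.smul_apply, smul_eq_mul]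
  let Z : Subgroup (GLV L) :=
    { carrier := {S | ∃ y : L, isY y ∧ isD S (fun _ => y)}
      mul_mem' := by
        rintro a b ⟨y, hy, ha⟩ ⟨y', hy', hb⟩
        exact ⟨y * y', hy.mul hy', ha.mul hb⟩
      one_mem' := ⟨1, isY.one, fun k => by simp⟩
      inv_mem' := by
        rintro a ⟨y, hy, ha⟩
        exact ⟨y⁻¹, hy.inv, ha.inv⟩ }
  have hcen : ∀ a ∈ Z, ∀ g : GLV L, a * g = g * a := by
    rintro a ⟨y, hy, ha⟩ g
    apply LinearEquiv.ext
    intro v
    rw [mul_apply', mul_apply', hSv y a ha, hSv y a ha, map_smul]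
  have hZG : Z ≤ G L := by
    rintro a ⟨y, hy, ha⟩
    exact ha.mem_G fun _ => hy
  by_contra hSM
  apply hC
  intro g hg g' hg'
  have hns : ¬ Z ≤ M := fun h => hSM (h ⟨y, hy, hS⟩)
  have hnorm : ∀ g ∈ G L, ∀ x ∈ Z, g * x * g⁻¹ ∈ Z := by
    intro g _ x hx
    rw [← hcen x hx g]
    have : x * g * g⁻¹ = x := by group
    rw [this]; exact hx
  obtain ⟨z, hz, m, hm, rfl⟩ := hM.sup hZG hnorm hns hg
  obtain ⟨z', hz', m', hm', rfl⟩ := hM.sup hZG hnorm hns hg'
  have h1 : z * m * (z' * m') * (z * m)⁻¹ * (z' * m')⁻¹ = m * m' * m⁻¹ * m'⁻¹ := by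
    have e1 : z * m * (z' * m') = (z * z') * (m * m') := by
      calc z * m * (z' * m') = z * (m * z') * m' := by group
        _ = z * (z' * m) * m' := by rw [hcen z' hz' m]
        _ = (z * z') * (m * m') := by group
    have e2 : z' * m' * (z * m) = (z * z') * (m' * m) := by
      calc z' * m' * (z * m) = z' * (m' * z) * m := by group
        _ = z' * (z * m') * m := by rw [hcen z hz m']
        _ = (z' * z) * (m' * m) := by group
        _ = (z * z') * (m' * m) := by rw [hcen z' hz' z]
    calc z * m * (z' * m') * (z * m)⁻¹ * (z' * m')⁻¹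
        = (z * m * (z' * m')) * (z' * m' * (z * m))⁻¹ := by group
      _ = ((z * z') * (m * m')) * ((z * z') * (m' * m))⁻¹ := by rw [e1, e2]
      _ = (z * z') * (m * m' * m⁻¹ * m'⁻¹) * (z * z')⁻¹ := by group
      _ = (m * m' * m⁻¹ * m'⁻¹) * (z * z') * (z * z')⁻¹ := by
          rw [hcen (z * z') (Z.mul_mem hz hz')]
      _ = m * m' * m⁻¹ * m'⁻¹ := by group
  rw [h1]
  exact M.mul_mem (M.mul_mem (M.mul_mem hm hm') (M.inv_mem hm)) (M.inv_mem hm')

theorem PiIn.zero {M : Subgroup (GLV L)} (hM : Cox M) (hC : ¬ CommIn M) (h1 : PiIn M 1) :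
    PiIn M 0 := by
  intro D c hD hc _
  obtain ⟨S, hS⟩ := exists_isD (fun _ : ℕ => c 0) fun _ => (hc 0).ne
  have hSM : S ∈ M := hM.scalar hC (hc 0) hS
  have h2 := hS.inv.mul hD
  have h3 : S⁻¹ * D ∈ M := by
    apply h1 _ _ h2 (fun k => (hc 0).inv.mul (hc k))
    intro k hk
    have : k = 0 := by omega
    subst this
    exact inv_mul_cancel₀ (hc 0).ne
  have h4 : D = S * (S⁻¹ * D) := by group
  rw [h4]
  exact M.mul_mem hSM h3

/-- Generation lemma -/
theorem gen {M : Subgroup (GLV L)} (hMG : M ≤ G L) (hPi : PiIn M 0)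
    (hT : ∀ k l : ℕ, 1 ≤ k → l ≠ k → ∀ ζ : L, Sm ζ → 0 < re (1 + sg l * (ζ * star ζ)) → TT M k l ζ) :
    G L ≤ M := by
  classical
  have key : ∀ n : ℕ, ∀ g ∈ G L, EvD (n + 1) g → g ∈ M := by
    intro n
    induction n with
    | zero =>
      intro g hg hn
      have h0 : EvD 0 g := by
        intro k _
        by_cases hk : 1 ≤ k
        · exact hn k hk
        · have hk0 : k = 0 := by omega
          subst hk0
          refine ⟨(g (e 0)) 0, ?_⟩
          ext i
          rw [Finsupp.smul_apply, smul_eq_mul]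
          by_cases hi : i = 0
          · subst hi; rw [e_same, mul_one]
          · rw [e_ne (Ne.symm hi), mul_zero]
            exact iso_supp hg.1 hn (by omega) (by omega)
      choose c hc using fun k => h0 k (Nat.zero_le k)
      exact hPi g c hc (fun k => eigen_isY hg (hc k)) (fun k hk => absurd hk (by omega))
    | succ n ih =>
      intro g hg hn
      set v := g (e (n + 1)) with hv
      have hvC : Cl (n + 1) v := fun i => hg.2.1 (n + 1) i
      have hvhigh : ∀ i, n + 1 < i → v i = 0 := fun i hi =>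
        iso_supp hg.1 hn (Nat.lt_succ_self _) (by omega)
      -- clean the coordinates 1..n
      obtain ⟨T, hTM, hTk, hTS, hTn, hTf⟩ := clean hMG (k := n + 1) (Finset.Icc 1 n) (by simp)
        (fun i hi ζ hζ => by
          have hi1 := (Finset.mem_Icc.1 hi).1
          have hi2 := (Finset.mem_Icc.1 hi).2
          apply hT (n + 1) i (by omega) (by omega) ζ hζ
          rw [sg_pos hi1, one_mul, re_add, re_one]
          have := re_mul_star_nonneg ζ
          linarith) (v := v) hvC.u1 (fun i hi => hvC.sm (by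
            have := (Finset.mem_Icc.1 hi).2
            omega))
      have hTG := hMG hTM
      set v' := T v with hv'
      have hv'0 : v' 0 = v 0 := hTn 0 (by simp) (by omega)
      have hv'i : ∀ i, i ≠ 0 → i ≠ n + 1 → v' i = 0 := by
        intro i hi0 hin
        by_cases hi : i ≤ n
        · exact hTS i (Finset.mem_Icc.2 ⟨by omega, hi⟩)
        · rw [hTn i (by simp; omega) hin]
          exact hvhigh i (by omega)
      have hk0 := hTk.ne
      have hζ : Sm (v' 0 / v' (n + 1)) := by
        rw [hv'0]; exact (hvC.sm (by omega)).div_U1 hTk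
      have hvec : v' = v' (n + 1) • (e (n + 1) + (v' 0 / v' (n + 1)) • (e 0 : ℕ →₀ L)) := by
        ext i
        rw [Finsupp.smul_apply, Finsupp.add_apply, Finsupp.smul_apply, smul_eq_mul, smul_eq_mul]
        by_cases hi0 : i = 0
        · subst hi0
          rw [e_same, e_ne (by omega)]; field_simp; ring
        · by_cases hin : i = n + 1
          · subst hin
            rw [e_same, e_ne (by omega)]; ring
          · rw [hv'i i hi0 hin, e_ne (Ne.symm hin), e_ne (Ne.symm hi0)]; ring
      have hself : h v' v' = 1 := by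
        rw [hv', hTG.1, hv, hg.1, h_e_self, sg_pos (by omega)]
      have hpos : 0 < re (1 + sg 0 * ((v' 0 / v' (n + 1)) * star (v' 0 / v' (n + 1)))) := by
        have h1 : h v' v' = (v' (n + 1) * star (v' (n + 1))) *
            (1 + sg 0 * ((v' 0 / v' (n + 1)) * star (v' 0 / v' (n + 1)))) := by
          conv_lhs => rw [hvec]
          rw [h_smul_left, h_smul_right, h_add_left, h_add_right, h_add_right, h_smul_left,
            h_smul_right, h_smul_left, h_smul_right, h_e_self, h_e_self, h_e_ne (by omega),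
            h_e_ne (by omega), sg_pos (by omega)]
          ring
        rw [hself] at h1
        have h2 := congrArg (re : L → ℝ) h1
        rw [re_one, re_mul (star_mul_star _)] at h2
        have h3 := re_mul_star_pos hk0
        by_contra hcon
        push Not at hcon
        nlinarith
      obtain ⟨T', hT'M, lam, hlam, hT'e, hT'f⟩ := hT (n + 1) 0 (by omega) (by omega) _ hζ hpos
      have hfin : (T'⁻¹ * T * g) (e (n + 1)) = (v' (n + 1) * lam⁻¹) • e (n + 1) := by
        have h1 : v' = T' ((v' (n + 1) * lam⁻¹) • e (n + 1)) := by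
          rw [map_smul, hT'e, smul_smul, mul_assoc, inv_mul_cancel₀ hlam, mul_one]
          exact hvec
        rw [mul_apply', mul_apply', ← hv, ← hv']
        conv_lhs => rw [h1]
        rw [inv_apply_self']
      have hEv : EvD (n + 1) (T'⁻¹ * T * g) := by
        intro k hk
        by_cases hkn : k = n + 1
        · subst hkn
          exact ⟨_, hfin⟩
        · obtain ⟨c, hc⟩ := hn k (by omega)
          refine ⟨c, ?_⟩
          have h1 : T (e k) = e k := hTf _ (e_ne hkn) (fun i hi => e_ne (by
            have := (Finset.mem_Icc.1 hi).2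
            omega))
          have h2 : T'⁻¹ (e k) = e k := by
            have h3 : T' (e k) = e k := hT'f _ (e_ne hkn) (e_ne (by omega))
            conv_lhs => rw [← h3]
            rw [inv_apply_self']
          rw [mul_apply', mul_apply', hc, map_smul, h1, map_smul, h2]
      have hmem : T'⁻¹ * T * g ∈ M := by
        apply ih _ _ hEv
        exact (G L).mul_mem ((G L).mul_mem ((G L).inv_mem (hMG hT'M)) hTG) hg
      have h4 : g = (T'⁻¹ * T)⁻¹ * (T'⁻¹ * T * g) := by group
      rw [h4]
      exact M.mul_mem (M.inv_mem (M.mul_mem (M.inv_mem hT'M) hTM)) hmem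
  intro g hg
  obtain ⟨n, hn⟩ := hg.2.2
  exact key n g hg (hn.mono (Nat.le_succ n))

theorem Cox.coatom {M : Subgroup (GLV L)} (hM : Cox M) : IsCoatom (M.subgroupOf (G L)) := by
  constructor
  · intro h
    apply hM.ne
    apply le_antisymm hM.le
    rwa [Subgroup.subgroupOf_eq_top] at h
  · intro K hK
    have h1 : M ≤ K.map (G L).subtype := by
      intro m hm
      have h2 : (⟨m, hM.le hm⟩ : G L) ∈ M.subgroupOf (G L) := hm
      exact ⟨⟨m, hM.le hm⟩, hK.le h2, rfl⟩
    have h2 : K.map (G L).subtype ≤ G L := by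
      rintro x ⟨y, _, rfl⟩
      exact y.2
    rcases hM.mx _ h1 h2 with h3 | h3
    · exfalso
      apply hK.not_ge
      intro k hk
      have h4 : (k : GLV L) ∈ K.map (G L).subtype := ⟨k, hk, rfl⟩
      rw [h3] at h4
      exact h4
    · rw [eq_top_iff]
      intro k _
      have h4 : (k : GLV L) ∈ K.map (G L).subtype := by rw [h3]; exact k.2
      obtain ⟨y, hy, hyk⟩ := h4
      have : y = k := Subtype.ext hyk
      rwa [← this]

/-- Claim 0 -/
theorem Cox.claim0 {M : Subgroup (GLV L)} (hM : Cox M) : ¬ CommIn M := by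
  intro hC
  have hco := hM.coatom
  have hcomm : ∀ a b : G L, a * b * a⁻¹ * b⁻¹ ∈ M.subgroupOf (G L) := by
    intro a b
    exact hC a a.2 b b.2
  have hdiv : ∀ x ∈ G L, (∀ n : ℕ, 0 < n → ∃ z ∈ G L, z ^ n = x) → x ∈ M := by
    intro x hx hn
    have h1 : (⟨x, hx⟩ : G L) ∈ M.subgroupOf (G L) := by
      apply div_mem hco hcomm
      intro n hn0
      obtain ⟨z, hz, hzx⟩ := hn n hn0
      exact ⟨⟨z, hz⟩, Subtype.ext hzx⟩
    exact h1
  have hPi : PiIn M 0 := by
    intro D c hD hc _
    apply hdiv D (hD.mem_G hc)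
    intro n hn
    choose z hz hzc using fun k => (hc k).exists_root hn
    obtain ⟨E, hE⟩ := exists_isD z fun k => (hz k).ne
    refine ⟨E, hE.mem_G hz, ?_⟩
    have h1 : ∀ m : ℕ, isD (E ^ m) (fun k => z k ^ m) := by
      intro m
      induction m with
      | zero => intro k; simp
      | succ m ih =>
        have h2 := ih.mul hE
        intro k
        rw [pow_succ, h2 k]
        change (z k ^ m * z k) • (e k : ℕ →₀ L) = (z k ^ (m + 1)) • e k
        rw [pow_succ]
    have h2 := h1 n
    have h3 : isD (E ^ n) c := by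
      intro k
      rw [h2 k]
      change (z k ^ n) • (e k : ℕ →₀ L) = c k • e k
      rw [hzc k]
    exact h3.ext hD
  have hRM : ∀ k : ℕ, ∀ w : ℕ →₀ L, Cl k w → RM M w := by
    intro k w hw
    obtain ⟨hw0, -⟩ := hw.N_h_inv
    refine ⟨hw0, ?_⟩
    intro y hy
    obtain ⟨T, hT⟩ := exists_isR hw0 hy.ne
    refine ⟨T, ?_, hT⟩
    apply hdiv T (hT.mem_G hw hy)
    intro n hn
    obtain ⟨z, hz, hzy⟩ := hy.exists_root hn
    obtain ⟨E, hE⟩ := exists_isR hw0 hz.ne
    refine ⟨E, hE.mem_G hw hz, ?_⟩
    have h1 : ∀ m : ℕ, isR (E ^ m) w (z ^ m) := by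
      intro m
      induction m with
      | zero => intro v; simp
      | succ m ih =>
        have h2 := isR.mul hw0 ih hE
        rw [← pow_succ, ← pow_succ] at h2
        exact h2
    have h2 := h1 n
    rw [hzy] at h2
    exact h2.ext hT
  apply hM.ne
  apply le_antisymm hM.le
  apply gen hM.le hPi
  intro k l hk hlk ζ hζ hpos
  obtain ⟨t, ht, hts, ht0, hζt⟩ := exists_t hζ 1 (by norm_num)
  rw [pow_one] at hζt
  have hνt : 0 < ν t := ν_pos ht0
  have hCl : Cl k ((1 : L) • (e k : ℕ →₀ L) + t • e l) := by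
    rw [one_smul, Cl_iff]
    refine ⟨?_, ?_⟩
    · rw [Finsupp.add_apply, Finsupp.smul_apply, e_same, e_ne hlk, smul_zero, add_zero]
      exact U1.one
    · intro i hi
      rw [Finsupp.add_apply, Finsupp.smul_apply, e_ne (Ne.symm hi), zero_add, smul_eq_mul]
      exact hts.mul (e_bd l i)
  apply TT_of_driver hk (Ne.symm hlk) (hRM k _ (Cl_e k)) U1.one hts ht0 (hRM k _ hCl) _ hpos
  unfold Sm
  rw [mul_one, div_eq_mul_inv, mul_comm, N_mul_real (by rw [star_inv₀, ht]), ν_inv,
    inv_mul_lt_iff₀ hνt, mul_one]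
  exact hζt

/-- There is no maximal subgroup. -/
theorem no_Cox (M : Subgroup (GLV L)) : ¬ Cox M := by
  intro hM
  have hC := hM.claim0
  have hH : ¬ Hs L ≤ M := by
    intro h
    apply hC
    intro g hg g' hg'
    exact h (comm_mem_Hs hg hg')
  rcases hM.claim1 hH with ⟨j0, hj0⟩ | h
  · -- enlarge `j0` to be at least one
    have hPi : PiIn M (j0 + 1) := by
      intro D c hD hc hc1
      exact hj0 D c hD hc (fun k hk => hc1 k (by omega))
    have hD : Dense' M := by
      apply hM.dense
      intro b hb hbM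
      exact hC (hM.claim2 hb hbM)
    have hMG := hM.le
    set j := j0 + 1 with hj
    have hj1 : 1 ≤ j := by omega
    have hPi1 : PiIn M 1 := by
      apply hPi.to_one hj1
      intro l hl hlj y D hy hD'
      apply stepII hMG (k := j) hj1 hl (by omega) (fun y D hy hD => hPi.DG_mem le_rfl hy hD) _ hy hD'
      intro ζ hζ
      apply stepIb hMG hD hj1 hPi le_rfl hlj hζ
      rw [sg_pos hl, one_mul, re_add, re_one]
      have := re_mul_star_nonneg ζ
      linarith
    have hPi0 : PiIn M 0 := hPi1.zero hM hC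
    apply hM.ne
    apply le_antisymm hM.le
    apply gen hMG hPi0
    intro k l hk hlk ζ hζ hpos
    by_cases hl : 1 ≤ l
    · exact stepIa hMG hD le_rfl hPi1 hk hl (Ne.symm hlk) hζ
    · exact stepIb hMG hD le_rfl hPi1 hk (by omega) hζ hpos
  · exact hC h

/-- The group `G` has no maximal subgroup. -/
theorem no_coatom (M : Subgroup (G L)) : ¬ IsCoatom M := by
  intro hM
  apply no_Cox (M.map (G L).subtype)
  refine ⟨?_, ?_, ?_⟩
  · rintro x ⟨y, _, rfl⟩
    exact y.2
  · intro h
    apply hM.1
    rw [eq_top_iff]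
    intro k _
    have h4 : (k : GLV L) ∈ M.map (G L).subtype := by rw [h]; exact k.2
    obtain ⟨y, hy, hyk⟩ := h4
    have : y = k := Subtype.ext hyk
    rwa [← this]
  · intro K hMK hKG
    have h1 : M ≤ K.subgroupOf (G L) := by
      intro m hm
      exact hMK ⟨m, hm, rfl⟩
    rcases eq_or_lt_of_le h1 with h2 | h2
    · left
      apply le_antisymm _ hMK
      intro k hk
      have h3 : (⟨k, hKG hk⟩ : G L) ∈ K.subgroupOf (G L) := hk
      rw [← h2] at h3
      exact ⟨_, h3, rfl⟩
    · right
      have h3 := hM.2 _ h2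
      rw [Subgroup.subgroupOf_eq_top] at h3
      exact le_antisymm hKG h3

end stepd

end Pool.Agent.NoMax
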