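import Pool.Agent.Lib.MP_e2b313_al.Act
import Pool.Agent.Lib.MP_e2b313_al.StepD
import Pool.Agent.Lib.MP_e2b313_al.FldEx

namespace Pool.Agent.NoMax

/-- a quotient of a group without maximal subgroups has no maximal subgroups -/
theorem no_coatom_of_surjective {Γ Δ : Type*} [Group Γ] [Group Δ] (f : Γ →* Δ)
    (hf : Function.Surjective f) (hΓ : ∀ M : Subgroup Γ, ¬ IsCoatom M) (M : Subgroup Δ) :
    ¬ IsCoatom M := by
  intro hM
  apply hΓ (M.comap f)
  constructor
  · intro h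
    apply hM.1
    rw [eq_top_iff]
    intro y _
    obtain ⟨x, rfl⟩ := hf y
    have : x ∈ M.comap f := by rw [h]; trivial
    exact this
  · intro K hK
    have h1 : M < K.map f := by
      refine lt_of_le_of_ne ?_ ?_
      · intro y hy
        obtain ⟨x, rfl⟩ := hf y
        exact ⟨x, hK.le hy, rfl⟩
      · intro h2
        apply hK.not_ge
        intro x hx
        change f x ∈ M
        rw [h2]
        exact ⟨x, hx, rfl⟩
    have h2 := hM.2 _ h1
    rw [eq_top_iff]
    intro x _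
    have h3 : f x ∈ K.map f := by rw [h2]; trivial
    obtain ⟨y, hy, hyx⟩ := h3
    have h4 : x * y⁻¹ ∈ K := by
      apply hK.le
      change f (x * y⁻¹) ∈ M
      rw [map_mul, map_inv, hyx, mul_inv_cancel]
      exact M.one_mem
    have h5 : x = (x * y⁻¹) * y := by group
    rw [h5]
    exact K.mul_mem h4 hy

/-- The final statement. -/
theorem final :
    ∃ G : Subgroup (HS ≃ᵢ HS), (∃ g ∈ G, ∃ h ∈ G, ∃ x : HS, ∃ c : ℝ, 0 < c ∧
          (∀ n : ℕ, c * (n : ℝ) ≤ dist x ((g ^ n) x) ∧ c * (n : ℝ) ≤ dist x ((h ^ n) x)) ∧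
          ∃ C : ℝ, ∀ n m : ℤ,
            (dist x ((g ^ n) x) + dist x ((h ^ m) x) - dist ((g ^ n) x) ((h ^ m) x)) / 2 ≤ C) ∧
      ∀ M : Subgroup G, ¬ IsCoatom M := by
  refine ⟨(Phi Alg).range, ?_, ?_⟩
  · have h4 : (4 : Alg) ≠ 0 := by
      have : (4 : Alg) = 2 * 2 := by norm_num
      rw [this]; exact mul_ne_zero two_ne two_ne
    obtain ⟨T₁, hT₁⟩ := exists_isB (L := Alg) (k := 1) one_ne_zero h4
    obtain ⟨T₂, hT₂⟩ := exists_isB (L := Alg) (k := 2) two_ne_zero h4
    let g₁ : G Alg := ⟨T₁, isB_four_mem one_ne_zero hT₁⟩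
    let g₂ : G Alg := ⟨T₂, isB_four_mem two_ne_zero hT₂⟩
    have hlog : 0 < Real.log 4 := Real.log_pos (by norm_num)
    refine ⟨Phi Alg g₁, ⟨g₁, rfl⟩, Phi Alg g₂, ⟨g₂, rfl⟩, SeparationQuotient.mk x0, Real.log 4,
      hlog, ?_, Real.log 4, ?_⟩
    · intro n
      have h1 := dist_orbit (g := g₁) one_ne_zero hT₁ (n : ℤ)
      have h2 := dist_orbit (g := g₂) two_ne_zero hT₂ (n : ℤ)
      rw [zpow_natCast] at h1 h2
      rw [h1, h2, Int.cast_natCast, abs_of_nonneg (by positivity), mul_comm]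
      exact ⟨le_rfl, le_rfl⟩
    · intro n m
      exact gromov_bound (g := g₁) (g' := g₂) one_ne_zero two_ne_zero (by norm_num) hT₁ hT₂ n m
  · intro M
    exact no_coatom_of_surjective (Phi Alg).rangeRestrict (Phi Alg).rangeRestrict_surjective
      (fun M => no_coatom M) M

end Pool.Agent.NoMax
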