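import Mathlib

namespace Pool.Agent.NoMax

/-- Field data: a countable algebraically closed field with an involution, an embedding into `ℂ`
compatible with complex conjugation, and a nonarchimedean absolute value `ν` with `ν 2 = 1`,
`ν 3 < 1`. -/
class FD (L : Type) [Field L] [StarRing L] where
  emb : L →+* ℂ
  emb_star : ∀ x : L, emb (star x) = (starRingEnd ℂ) (emb x)
  ν : L → ℝ
  ν_mul : ∀ x y : L, ν (x * y) = ν x * ν y
  ν_add : ∀ x y : L, ν (x + y) ≤ max (ν x) (ν y)
  ν_zero : ν 0 = 0
  ν_pos : ∀ x : L, x ≠ 0 → 0 < ν x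
  ν_two : ν 2 = 1
  ν_three : ν 3 < 1
  closed : IsAlgClosed L
  ctbl : Countable L

export FD (emb ν)

section basic

variable {L : Type} [Field L] [StarRing L] [FD L]

theorem ν_mul (x y : L) : ν (x * y) = ν x * ν y := FD.ν_mul x y
theorem ν_add (x y : L) : ν (x + y) ≤ max (ν x) (ν y) := FD.ν_add x y
@[simp] theorem ν_zero : ν (0 : L) = 0 := FD.ν_zero
theorem ν_pos {x : L} (h : x ≠ 0) : 0 < ν x := FD.ν_pos x h
theorem ν_nonneg (x : L) : 0 ≤ ν x := by
  by_cases h : x = 0
  · simp [h]
  · exact (ν_pos h).le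
@[simp] theorem ν_one : ν (1 : L) = 1 := by
  have h := ν_mul (1 : L) 1
  rw [mul_one] at h
  have h1 : 0 < ν (1 : L) := ν_pos one_ne_zero
  nlinarith
theorem ν_pow (x : L) (n : ℕ) : ν (x ^ n) = ν x ^ n := by
  induction n with
  | zero => simp
  | succ n ih => rw [pow_succ, ν_mul, ih, pow_succ]
@[simp] theorem ν_neg (x : L) : ν (-x) = ν x := by
  have h : ν (-1 : L) * ν (-1 : L) = 1 := by
    rw [← ν_mul]; simp
  have h1 : 0 ≤ ν (-1 : L) := ν_nonneg _
  have h2 : ν (-1 : L) = 1 := by nlinarith
  have : -x = (-1) * x := by ring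
  rw [this, ν_mul, h2, one_mul]
theorem ν_sub (x y : L) : ν (x - y) ≤ max (ν x) (ν y) := by
  have := ν_add x (-y)
  rwa [ν_neg, ← sub_eq_add_neg] at this
theorem ν_inv (x : L) : ν (x⁻¹) = (ν x)⁻¹ := by
  by_cases h : x = 0
  · simp [h]
  · have h1 : ν x * ν (x⁻¹) = 1 := by rw [← ν_mul, mul_inv_cancel₀ h, ν_one]
    exact eq_inv_of_mul_eq_one_right h1
theorem ν_div (x y : L) : ν (x / y) = ν x / ν y := by
  rw [div_eq_mul_inv, ν_mul, ν_inv, div_eq_mul_inv]
theorem ν_eq_zero {x : L} : ν x = 0 ↔ x = 0 := by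
  constructor
  · intro h
    by_contra h0
    exact absurd h (ν_pos h0).ne'
  · rintro rfl; simp

/-- The conjugation-invariant norm. -/
def N (x : L) : ℝ := max (ν x) (ν (star x))

theorem N_nonneg (x : L) : 0 ≤ N x := le_max_of_le_left (ν_nonneg x)
@[simp] theorem N_zero : N (0 : L) = 0 := by simp [N]
@[simp] theorem N_one : N (1 : L) = 1 := by simp [N]
@[simp] theorem N_neg (x : L) : N (-x) = N x := by simp [N]
@[simp] theorem N_star (x : L) : N (star x) = N x := by simp [N, max_comm]
theorem N_pos {x : L} (h : x ≠ 0) : 0 < N x := lt_max_of_lt_left (ν_pos h)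
theorem N_eq_zero {x : L} : N x = 0 ↔ x = 0 := by
  constructor
  · intro h
    by_contra h0
    exact absurd h (N_pos h0).ne'
  · rintro rfl; simp
theorem N_add (x y : L) : N (x + y) ≤ max (N x) (N y) := by
  unfold N
  rw [star_add]
  have h1 := ν_add x y
  have h2 := ν_add (star x) (star y)
  refine max_le (h1.trans ?_) (h2.trans ?_)
  · exact max_le_max (le_max_left _ _) (le_max_left _ _)
  · exact max_le_max (le_max_right _ _) (le_max_right _ _)
theorem N_sub (x y : L) : N (x - y) ≤ max (N x) (N y) := by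
  have := N_add x (-y)
  rwa [N_neg, ← sub_eq_add_neg] at this
theorem N_sub_comm (x y : L) : N (x - y) = N (y - x) := by
  rw [← N_neg, neg_sub]
theorem N_mul (x y : L) : N (x * y) ≤ N x * N y := by
  unfold N
  rw [star_mul', ν_mul, ν_mul]
  refine max_le ?_ ?_
  · exact mul_le_mul (le_max_left _ _) (le_max_left _ _) (ν_nonneg _) (N_nonneg x)
  · exact mul_le_mul (le_max_right _ _) (le_max_right _ _) (ν_nonneg _) (N_nonneg x)
theorem N_real {x : L} (h : star x = x) : N x = ν x := by simp [N, h]
theorem N_mul_real {x : L} (h : star x = x) (y : L) : N (x * y) = ν x * N y := by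
  unfold N
  rw [star_mul', h, ν_mul, ν_mul, mul_max_of_nonneg _ _ (ν_nonneg x)]
theorem N_pow (x : L) (n : ℕ) : N (x ^ n) = N x ^ n := by
  unfold N
  rw [star_pow, ν_pow, ν_pow]
  rcases le_total (ν x) (ν (star x)) with h | h
  · rw [max_eq_right h, max_eq_right (pow_le_pow_left₀ (ν_nonneg _) h n)]
  · rw [max_eq_left h, max_eq_left (pow_le_pow_left₀ (ν_nonneg _) h n)]
theorem N_sum_le {α : Type*} (s : Finset α) (f : α → L) {c : ℝ} (hc : 0 ≤ c)
    (h : ∀ i ∈ s, N (f i) ≤ c) : N (∑ i ∈ s, f i) ≤ c := by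
  classical
  induction s using Finset.induction_on with
  | empty => simpa
  | insert a s ha ih =>
    rw [Finset.sum_insert ha]
    refine (N_add _ _).trans (max_le (h a (Finset.mem_insert_self a s)) ?_)
    exact ih fun i hi => h i (Finset.mem_insert_of_mem hi)
theorem N_sum_lt {α : Type*} (s : Finset α) (f : α → L) {c : ℝ} (hc : 0 < c)
    (h : ∀ i ∈ s, N (f i) < c) : N (∑ i ∈ s, f i) < c := by
  classical
  induction s using Finset.induction_on with
  | empty => simpa
  | insert a s ha ih =>
    rw [Finset.sum_insert ha]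
    refine (N_add _ _).trans_lt (max_lt (h a (Finset.mem_insert_self a s)) ?_)
    exact ih fun i hi => h i (Finset.mem_insert_of_mem hi)
@[simp] theorem N_two : N (2 : L) = 1 := by
  simp [N, FD.ν_two (L := L)]
theorem two_ne : (2 : L) ≠ 0 := by
  intro h
  have := FD.ν_two (L := L)
  rw [h, ν_zero] at this
  norm_num at this
theorem N_inv_two : N ((2 : L)⁻¹) = 1 := by
  have : star ((2 : L)⁻¹) = (2 : L)⁻¹ := by simp
  rw [N_real this, ν_inv, FD.ν_two]; norm_num
theorem N_natCast (n : ℕ) : N (n : L) ≤ 1 := by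
  induction n with
  | zero => simp
  | succ n ih =>
    rw [Nat.cast_succ]
    refine (N_add _ _).trans (max_le ih (by simp))

/-- bounded and small elements -/
def Bd (x : L) : Prop := N x ≤ 1
/-- small elements -/
def Sm (x : L) : Prop := N x < 1
/-- one-units -/
def U1 (x : L) : Prop := N (x - 1) < 1

theorem Sm.bd {x : L} (h : Sm x) : Bd x := le_of_lt h
theorem Bd.add {x y : L} (h : Bd x) (h' : Bd y) : Bd (x + y) := (N_add _ _).trans (max_le h h')
theorem Bd.sub {x y : L} (h : Bd x) (h' : Bd y) : Bd (x - y) := (N_sub _ _).trans (max_le h h')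
theorem Bd.neg {x : L} (h : Bd x) : Bd (-x) := by unfold Bd; rwa [N_neg]
theorem Bd.conj {x : L} (h : Bd x) : Bd (star x) := by unfold Bd; rwa [N_star]
theorem Bd.mul {x y : L} (h : Bd x) (h' : Bd y) : Bd (x * y) :=
  (N_mul _ _).trans (mul_le_one₀ h (N_nonneg _) h')
theorem Sm.add {x y : L} (h : Sm x) (h' : Sm y) : Sm (x + y) := (N_add _ _).trans_lt (max_lt h h')
theorem Sm.sub {x y : L} (h : Sm x) (h' : Sm y) : Sm (x - y) := (N_sub _ _).trans_lt (max_lt h h')
theorem Sm.neg {x : L} (h : Sm x) : Sm (-x) := by unfold Sm; rwa [N_neg]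
theorem Sm.conj {x : L} (h : Sm x) : Sm (star x) := by unfold Sm; rwa [N_star]
theorem Sm.mul {x y : L} (h : Sm x) (h' : Bd y) : Sm (x * y) := by
  refine (N_mul _ _).trans_lt ?_
  calc N x * N y ≤ N x * 1 := mul_le_mul_of_nonneg_left h' (N_nonneg _)
    _ < 1 := by rw [mul_one]; exact h
theorem Bd.mul_sm {x y : L} (h : Bd x) (h' : Sm y) : Sm (x * y) := by
  rw [mul_comm]; exact h'.mul h
theorem Bd.zero : Bd (0 : L) := by unfold Bd; simp
theorem Sm.zero : Sm (0 : L) := by unfold Sm; simp
theorem Bd.one : Bd (1 : L) := by unfold Bd; simp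
theorem Bd.two : Bd (2 : L) := by unfold Bd; simp
theorem Bd.inv_two : Bd ((2 : L)⁻¹) := by unfold Bd; rw [N_inv_two]

theorem U1.sm {x : L} (h : U1 x) : Sm (x - 1) := h
theorem U1.bd {x : L} (h : U1 x) : Bd x := by
  have : x = (x - 1) + 1 := by ring
  rw [this]; exact h.sm.bd.add Bd.one
theorem U1.one : U1 (1 : L) := by unfold U1; simp
theorem U1.mul {x y : L} (h : U1 x) (h' : U1 y) : U1 (x * y) := by
  have : x * y - 1 = (x - 1) * y + (y - 1) := by ring
  unfold U1; rw [this]; exact (h.sm.mul h'.bd).add h'.sm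
theorem U1.conj {x : L} (h : U1 x) : U1 (star x) := by
  have : star x - 1 = star (x - 1) := by simp
  unfold U1; rw [this]; exact h.sm.conj
theorem U1.ν_eq {x : L} (h : U1 x) : ν x = 1 := by
  have h1 : ν (x - 1) < 1 := (le_max_left _ _).trans_lt h
  apply le_antisymm
  · have := ν_add (x - 1) 1
    rw [sub_add_cancel, ν_one] at this
    exact this.trans (max_le h1.le le_rfl)
  · have := ν_sub x (x - 1)
    rw [sub_sub_cancel, ν_one] at this
    rcases le_max_iff.1 this with h2 | h2
    · exact h2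
    · exact absurd h2 (not_le.2 h1)
theorem U1.ne {x : L} (h : U1 x) : x ≠ 0 := by
  rintro rfl
  have := h.ν_eq
  simp at this
theorem U1.N_eq {x : L} (h : U1 x) : N x = 1 := by
  unfold N; rw [h.ν_eq, h.conj.ν_eq, max_self]
theorem U1.N_inv {x : L} (h : U1 x) : N (x⁻¹) = 1 := by
  unfold N; rw [star_inv₀, ν_inv, ν_inv, h.ν_eq, h.conj.ν_eq]; simp
theorem U1.inv {x : L} (h : U1 x) : U1 (x⁻¹) := by
  have : x⁻¹ - 1 = -((x - 1) * x⁻¹) := by
    have := h.ne
    field_simp
    ring
  unfold U1; rw [this]; exact (h.sm.mul (by unfold Bd; rw [h.N_inv])).neg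
theorem U1.div {x y : L} (h : U1 x) (h' : U1 y) : U1 (x / y) := by
  rw [div_eq_mul_inv]; exact h.mul h'.inv
theorem U1.pow {x : L} (h : U1 x) (n : ℕ) : U1 (x ^ n) := by
  induction n with
  | zero => simpa using U1.one
  | succ n ih => rw [pow_succ]; exact ih.mul h
theorem U1.N_mul {x : L} (h : U1 x) (y : L) : N (x * y) = N y := by
  unfold N; rw [star_mul', NoMax.ν_mul, NoMax.ν_mul, h.ν_eq, h.conj.ν_eq, one_mul, one_mul]
theorem Sm.one_add {x : L} (h : Sm x) : U1 (1 + x) := by
  unfold U1; rw [add_sub_cancel_left]; exact h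
theorem Sm.one_sub {x : L} (h : Sm x) : U1 (1 - x) := by
  unfold U1; rw [show (1 - x) - 1 = -x by ring]; exact h.neg
theorem U1.add_sm {x y : L} (h : U1 x) (h' : Sm y) : U1 (x + y) := by
  unfold U1; rw [show (x + y) - 1 = (x - 1) + y by ring]; exact h.sm.add h'
theorem U1.sub_sm {x y : L} (h : U1 x) (h' : Sm y) : U1 (x - y) := by
  unfold U1; rw [show (x - y) - 1 = (x - 1) - y by ring]; exact h.sm.sub h'
theorem Sm.div_U1 {x y : L} (h : Sm x) (h' : U1 y) : Sm (x / y) := by
  rw [div_eq_mul_inv]; exact h.mul h'.inv.bd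

/-- The group of norm-one one-units. -/
def isY (y : L) : Prop := y * star y = 1 ∧ U1 y

theorem isY.one : isY (1 : L) := ⟨by simp, U1.one⟩
theorem isY.ne {y : L} (h : isY y) : y ≠ 0 := h.2.ne
theorem isY.star_eq {y : L} (h : isY y) : star y = y⁻¹ := eq_inv_of_mul_eq_one_right h.1
theorem isY.mul {x y : L} (h : isY x) (h' : isY y) : isY (x * y) :=
  ⟨by rw [star_mul']; linear_combination (y * star y) * h.1 + h'.1, h.2.mul h'.2⟩
theorem isY.conj {y : L} (h : isY y) : isY (star y) :=
  ⟨by rw [star_star, mul_comm]; exact h.1, h.2.conj⟩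
theorem isY.inv {y : L} (h : isY y) : isY (y⁻¹) := by rw [← h.star_eq]; exact h.conj
theorem isY.div {x y : L} (h : isY x) (h' : isY y) : isY (x / y) := by
  rw [div_eq_mul_inv]; exact h.mul h'.inv
theorem isY.pow {y : L} (h : isY y) (n : ℕ) : isY (y ^ n) := by
  induction n with
  | zero => simpa using isY.one
  | succ n ih => rw [pow_succ]; exact ih.mul h
theorem isY.sm {y : L} (h : isY y) : Sm (y - 1) := h.2

theorem emb_star (x : L) : emb (star x) = (starRingEnd ℂ) (emb x) := FD.emb_star x
theorem emb_inj {x y : L} (h : emb x = emb y) : x = y := (emb : L →+* ℂ).injective h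

/-- Real part in the complex embedding. -/
noncomputable def re (x : L) : ℝ := (emb x).re

theorem re_add (x y : L) : re (x + y) = re x + re y := by simp [re]
theorem re_sub (x y : L) : re (x - y) = re x - re y := by simp [re]
theorem re_neg (x : L) : re (-x) = - re x := by simp [re]
@[simp] theorem re_one : re (1 : L) = 1 := by simp [re]
@[simp] theorem re_zero : re (0 : L) = 0 := by simp [re]
theorem emb_real {x : L} (h : star x = x) : emb x = (re x : ℂ) := by
  have := emb_star x
  rw [h] at this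
  exact (Complex.conj_eq_iff_re.1 this.symm).symm
theorem re_mul {x : L} (h : star x = x) (y : L) : re (x * y) = re x * re y := by
  unfold re
  rw [map_mul, emb_real h]
  simp [re]
theorem re_mul_star (x : L) : re (x * star x) = Complex.normSq (emb x) := by
  unfold re
  rw [map_mul, emb_star, Complex.mul_conj]
  simp
theorem re_mul_star_nonneg (x : L) : 0 ≤ re (x * star x) := by
  rw [re_mul_star]; exact Complex.normSq_nonneg _
theorem re_mul_star_pos {x : L} (h : x ≠ 0) : 0 < re (x * star x) := by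
  rw [re_mul_star]
  apply Complex.normSq_pos.2
  intro h0
  exact h (emb_inj (by rw [h0, map_zero]))
omit [FD L] in
theorem star_mul_star (x : L) : star (x * star x) = x * star x := by
  rw [star_mul', star_star, mul_comm]
theorem re_inv {x : L} (h : star x = x) : re (x⁻¹) = (re x)⁻¹ := by
  unfold re
  rw [map_inv₀, emb_real h]
  simp [re, ← Complex.ofReal_inv]
theorem re_pow {x : L} (h : star x = x) (n : ℕ) : re (x ^ n) = re x ^ n := by
  induction n with
  | zero => simp
  | succ n ih => rw [pow_succ, mul_comm, re_mul h, ih, pow_succ, mul_comm]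
theorem re_natCast (n : ℕ) : re (n : L) = n := by simp [re]

theorem exists_root (x : L) {n : ℕ} (hn : 0 < n) : ∃ y : L, y ^ n = x := by
  have := FD.closed (L := L)
  exact IsAlgClosed.exists_pow_nat_eq x hn

theorem exists_real_sqrt {a : L} (ha : star a = a) (hpos : 0 < re a) :
    ∃ s : L, star s = s ∧ s * s = a := by
  obtain ⟨s, hs⟩ := exists_root a (n := 2) (by norm_num)
  refine ⟨s, ?_, by rw [← hs, sq]⟩
  apply emb_inj
  rw [emb_star]
  have h1 : (emb s) ^ 2 = (re a : ℂ) := by rw [← map_pow, hs, emb_real ha]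
  have him : (emb s).im = 0 := by
    have h2 := congrArg Complex.im h1
    have h3 := congrArg Complex.re h1
    simp [sq] at h2 h3
    have h4 : (emb s).re * (emb s).im = 0 := by nlinarith
    rcases mul_eq_zero.1 h4 with h5 | h5
    · rw [h5] at h3
      nlinarith [mul_self_nonneg (emb s).im]
    · exact h5
  exact Complex.conj_eq_iff_im.2 him

theorem exists_U1_sqrt {a : L} (ha : star a = a) (hpos : 0 < re a) (hU : U1 a) :
    ∃ s : L, star s = s ∧ s * s = a ∧ U1 s := by
  obtain ⟨s, hs, hss⟩ := exists_real_sqrt ha hpos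
  have h1 : ν (s - 1) * ν (s + 1) < 1 := by
    rw [← ν_mul, show (s - 1) * (s + 1) = a - 1 by rw [← hss]; ring]
    exact (le_max_left _ _).trans_lt hU
  have h2 : ν (s - 1) < 1 ∨ ν (s + 1) < 1 := by
    by_contra hcon
    push Not at hcon
    nlinarith [hcon.1, hcon.2]
  rcases h2 with h2 | h2
  · refine ⟨s, hs, hss, ?_⟩
    unfold U1
    rwa [N_real (by simp [hs])]
  · refine ⟨-s, by simp [hs], by rw [← hss]; ring, ?_⟩
    unfold U1
    rw [N_real (by simp [hs]), show -s - 1 = -(s + 1) by ring, ν_neg]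
    exact h2

theorem exists_I : ∃ i : L, emb i = Complex.I := by
  obtain ⟨i, hi⟩ := exists_root (-1 : L) (n := 2) (by norm_num)
  have h1 : (emb i - Complex.I) * (emb i + Complex.I) = 0 := by
    have : (emb i) ^ 2 = -1 := by rw [← map_pow, hi]; simp
    linear_combination this - Complex.I_sq
  rcases mul_eq_zero.1 h1 with h | h
  · exact ⟨i, sub_eq_zero.1 h⟩
  · refine ⟨-i, ?_⟩
    rw [map_neg]
    exact (eq_neg_of_add_eq_zero_right h).symm

variable (L) in
/-- The imaginary unit. -/
noncomputable def im : L := Classical.choose (exists_I (L := L))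

theorem emb_im : emb (im L) = Complex.I := Classical.choose_spec (exists_I (L := L))
theorem im_mul_im : im L * im L = -1 := by
  apply emb_inj; simp [emb_im]
theorem im_sq : im L ^ 2 = -1 := by rw [sq, im_mul_im]
@[simp] theorem star_im : star (im L) = - im L := by
  apply emb_inj; rw [emb_star]; simp [emb_im]
theorem im_ne : im L ≠ 0 := by
  intro h
  have := im_mul_im (L := L)
  rw [h] at this
  simp at this
theorem ν_im : ν (im L) = 1 := by
  have h : ν (im L) * ν (im L) = 1 := by rw [← ν_mul, im_mul_im]; simp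
  nlinarith [ν_nonneg (im L)]
theorem N_im : N (im L) = 1 := by simp [N, ν_im]
theorem Bd.im : Bd (im L) := by unfold Bd; rw [N_im]
theorem N_im_mul (x : L) : N (im L * x) = N x := by
  unfold N; rw [star_mul', ν_mul, ν_mul, star_im, ν_neg, ν_im, one_mul, one_mul]

/-- Value density. -/
theorem exists_real_val {c : ℝ} (hc : c < 1) : ∃ t : L, star t = t ∧ c < ν t ∧ ν t < 1 := by
  have key : ∀ n : ℕ, ∃ t : L, star t = t ∧ 0 < re t ∧ ν t ^ (2 ^ n) = ν (3 : L) := by
    intro n
    induction n with
    | zero => exact ⟨3, by simp, by rw [show (3 : L) = ((3 : ℕ) : L) by norm_num, re_natCast]; norm_num, by simp⟩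
    | succ n ih =>
      obtain ⟨t, ht, htp, htv⟩ := ih
      obtain ⟨s, hs, hss⟩ := exists_real_sqrt ht htp
      have hs0 : s ≠ 0 := by
        rintro rfl
        simp at hss
        rw [← hss] at htp
        simp at htp
      have hv : ν s ^ (2 ^ (n + 1)) = ν (3 : L) := by
        rw [pow_succ, mul_comm, pow_mul, ← ν_pow s 2, sq, hss, htv]
      have hre : re s ≠ 0 := by
        intro h0
        apply hs0
        apply emb_inj
        rw [emb_real hs, h0]
        simp
      rcases lt_or_gt_of_ne hre with h | h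
      · exact ⟨-s, by simp [hs], by rw [re_neg]; linarith, by rw [ν_neg, hv]⟩
      · exact ⟨s, hs, h, hv⟩
  have h3 : 0 < ν (3 : L) := by
    apply ν_pos
    intro h
    have := congrArg (re : L → ℝ) h
    rw [show (3 : L) = ((3 : ℕ) : L) by norm_num, re_natCast, re_zero] at this
    norm_num at this
  have h3' : ν (3 : L) < 1 := FD.ν_three
  -- choose n with c^(2^n) < ν 3
  by_cases hc0 : c ≤ 0
  · obtain ⟨t, ht, htp, htv⟩ := key 0
    refine ⟨t, ht, ?_, ?_⟩
    · simp at htv; rw [htv]; linarith
    · simp at htv; rw [htv]; exact h3'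
  · push Not at hc0
    obtain ⟨n, hn⟩ := exists_pow_lt_of_lt_one h3 hc
    obtain ⟨t, ht, htp, htv⟩ := key n
    have hlt : n ≤ 2 ^ n := (Nat.lt_two_pow_self).le
    have h4 : c ^ (2 ^ n) < ν (3 : L) := lt_of_le_of_lt (pow_le_pow_of_le_one hc0.le hc.le hlt) hn
    refine ⟨t, ht, ?_, ?_⟩
    · rw [← htv] at h4
      exact lt_of_pow_lt_pow_left₀ _ (ν_nonneg t) h4
    · by_contra hcon
      push Not at hcon
      have : 1 ≤ ν t ^ (2 ^ n) := one_le_pow₀ hcon
      rw [htv] at this
      linarith

/-- `Y` is divisible. -/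
theorem isY.exists_root {y : L} (h : isY y) {n : ℕ} (hn : 0 < n) : ∃ z : L, isY z ∧ z ^ n = y := by
  have := FD.closed (L := L)
  classical
  -- the polynomial X^n - y splits
  let p : Polynomial L := Polynomial.X ^ n - Polynomial.C y
  have hp : p.Monic := Polynomial.monic_X_pow_sub_C y hn.ne'
  have hsplit : p.Splits := IsAlgClosed.splits p
  have hprod : p = (p.roots.map (fun a => Polynomial.X - Polynomial.C a)).prod := by
    conv_lhs => rw [hsplit.eq_prod_roots, hp.leadingCoeff, map_one, one_mul]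
  have heval : (1 : L) - y = (p.roots.map (fun a => 1 - a)).prod := by
    have h1 : p.eval 1 = 1 - y := by simp [p]
    rw [← h1]
    conv_lhs => rw [hprod]
    rw [Polynomial.eval_multiset_prod, Multiset.map_map]
    congr 1
    apply Multiset.map_congr rfl
    intro a _
    simp
  have hex : ∃ a ∈ p.roots, ν (1 - a) < 1 := by
    by_contra hcon
    push Not at hcon
    have h2 : ∀ s : Multiset L, (∀ a ∈ s, 1 ≤ ν (1 - a)) → 1 ≤ ν ((s.map (fun a => 1 - a)).prod) := by
      intro s
      induction s using Multiset.induction_on with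
      | empty => intro _; simp
      | cons a s ih =>
        intro hs
        rw [Multiset.map_cons, Multiset.prod_cons, ν_mul]
        have h3 := hs a (Multiset.mem_cons_self a s)
        have h4 := ih fun b hb => hs b (Multiset.mem_cons_of_mem hb)
        nlinarith
    have h3 := h2 p.roots hcon
    rw [← heval] at h3
    have h4 : ν (1 - y) < 1 := by
      rw [← ν_neg, neg_sub]
      exact (le_max_left _ _).trans_lt h.2
    linarith
  obtain ⟨a, ha, hav⟩ := hex
  have han : a ^ n = y := by
    have := (Polynomial.mem_roots'.1 ha).2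
    simp [p, Polynomial.IsRoot] at this
    exact sub_eq_zero.1 this
  have hre : a * star a = 1 := by
    have h1 : (a * star a) ^ n = 1 := by
      rw [mul_pow, ← star_pow, han]; exact h.1
    apply emb_inj
    have h2 : emb (a * star a) = ((Complex.normSq (emb a) : ℝ) : ℂ) := by
      rw [map_mul, emb_star, Complex.mul_conj]
    have h3 : (Complex.normSq (emb a)) ^ n = 1 := by
      have := congrArg (emb : L →+* ℂ) h1
      rw [map_pow, h2, map_one] at this
      exact_mod_cast this
    have h4 : Complex.normSq (emb a) = 1 :=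
      (pow_eq_one_iff_of_nonneg (Complex.normSq_nonneg _) hn.ne').1 h3
    rw [h2, h4]; simp
  refine ⟨a, ⟨hre, ?_⟩, han⟩
  have hva : ν (a - 1) < 1 := by rw [← ν_neg, neg_sub]; exact hav
  have hνa : ν a = 1 := by
    apply le_antisymm
    · have := ν_add (a - 1) 1
      rw [sub_add_cancel, ν_one] at this
      exact this.trans (max_le hva.le le_rfl)
    · have := ν_sub a (a - 1)
      rw [sub_sub_cancel, ν_one] at this
      rcases le_max_iff.1 this with h2 | h2
      · exact h2
      · exact absurd h2 (not_le.2 hva)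
  have hνs : ν (star a) = 1 := by
    have : ν a * ν (star a) = 1 := by rw [← ν_mul, hre, ν_one]
    rwa [hνa, one_mul] at this
  unfold U1 N
  refine max_lt hva ?_
  have : star (a - 1) = - (star a * (a - 1)) := by
    rw [star_sub, star_one]
    linear_combination hre
  rw [this, ν_neg, ν_mul, hνs, one_mul]
  exact hva

/-- Cayley transform of a real small element. -/
noncomputable def cay (t : L) : L := (1 + im L * t) / (1 - im L * t)

theorem cay_den {t : L} (ht : Sm t) : U1 (1 - im L * t) := (Bd.im.mul_sm ht).one_sub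
theorem cay_num {t : L} (ht : Sm t) : U1 (1 + im L * t) := (Bd.im.mul_sm ht).one_add
theorem isY_cay {t : L} (hr : star t = t) (ht : Sm t) : isY (cay t) := by
  refine ⟨?_, (cay_num ht).div (cay_den ht)⟩
  have h1 := (cay_den ht).ne
  have h2 := (cay_num ht).ne
  unfold cay
  rw [star_div₀, star_add, star_sub, star_mul', hr, star_one, star_im]
  rw [show 1 - -im L * t = 1 + im L * t by ring, show 1 + -im L * t = 1 - im L * t by ring]
  field_simp
theorem cay_sub_one {t : L} (ht : Sm t) : cay t - 1 = 2 * im L * t / (1 - im L * t) := by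
  have h1 := (cay_den ht).ne
  unfold cay
  field_simp
  ring
theorem N_cay_sub_one_inv {t : L} (hr : star t = t) (ht : Sm t) : N ((cay t - 1)⁻¹) = (ν t)⁻¹ := by
  rw [cay_sub_one ht, inv_div, div_eq_mul_inv, (cay_den ht).N_mul]
  rw [show (2 * im L * t)⁻¹ = t⁻¹ * ((2 : L)⁻¹ * (im L)⁻¹) by rw [mul_inv, mul_inv]; ring]
  have h1 : star (t⁻¹) = t⁻¹ := by rw [star_inv₀, hr]
  have h2 : star ((2 : L)⁻¹) = (2 : L)⁻¹ := by simp
  have h3 : (im L)⁻¹ = - im L := by
    apply inv_eq_of_mul_eq_one_right
    rw [mul_neg, im_mul_im, neg_neg]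
  rw [N_mul_real h1, N_mul_real h2, h3, N_neg, N_im, ν_inv, ν_inv, FD.ν_two]
  simp

/-- real and imaginary parts inside `L` -/
theorem exists_re_im (z : L) (hz : Sm z) : ∃ a b : L, star a = a ∧ star b = b ∧ Sm a ∧ Sm b ∧
    z = a + im L * b ∧ re (a * a) ≤ re (z * star z) ∧ re (b * b) ≤ re (z * star z) := by
  have h2 := two_ne (L := L)
  have hi := im_ne (L := L)
  have hi2 := im_mul_im (L := L)
  refine ⟨(z + star z) * 2⁻¹, -(im L * (z - star z)) * 2⁻¹, ?_, ?_, ?_, ?_, ?_, ?_, ?_⟩
  · simp [add_comm]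
  · simp
    ring
  · exact (hz.add hz.conj).mul Bd.inv_two
  · exact ((Bd.im.mul_sm (hz.sub hz.conj)).neg).mul Bd.inv_two
  · field_simp
    rw [im_sq]
    ring
  · rw [re_mul_star]
    unfold re
    have : emb ((z + star z) * 2⁻¹ * ((z + star z) * 2⁻¹)) = ((emb z).re : ℂ) * ((emb z).re : ℂ) := by
      simp only [map_mul, map_add, map_inv₀, map_ofNat, emb_star]
      have := Complex.add_conj (emb z)
      rw [this]; push_cast; ring
    rw [this, ← Complex.ofReal_mul, Complex.ofReal_re, Complex.normSq_apply]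
    nlinarith [mul_self_nonneg (emb z).im]
  · rw [re_mul_star]
    unfold re
    have : emb (-(im L * (z - star z)) * 2⁻¹ * (-(im L * (z - star z)) * 2⁻¹))
        = ((emb z).im : ℂ) * ((emb z).im : ℂ) := by
      simp only [map_mul, map_sub, map_neg, map_inv₀, map_ofNat, emb_star, emb_im]
      have := Complex.sub_conj (emb z)
      rw [this]; push_cast
      linear_combination ((emb z).im : ℂ) * ((emb z).im : ℂ) * (Complex.I^2 - 1) * Complex.I_sq
    rw [this, ← Complex.ofReal_mul, Complex.ofReal_re, Complex.normSq_apply]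
    nlinarith [mul_self_nonneg (emb z).re]

end basic

end Pool.Agent.NoMax
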