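import Pool.Agent.Lib.MP_e2b313_al.Fld

namespace Pool.Agent.NoMax

section form

variable {L : Type} [Field L] [StarRing L] [FD L]

/-- signs -/
def sg (k : ℕ) : L := if k = 0 then -1 else 1

omit [StarRing L] [FD L] in
theorem sg_mul_sg (k : ℕ) : (sg k : L) * sg k = 1 := by
  unfold sg; split_ifs <;> simp
omit [FD L] in
@[simp] theorem star_sg (k : ℕ) : star (sg k : L) = sg k := by
  unfold sg; split_ifs <;> simp
omit [StarRing L] [FD L] in
theorem sg_pos {k : ℕ} (h : 1 ≤ k) : (sg k : L) = 1 := by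
  unfold sg; rw [if_neg (by omega)]
omit [StarRing L] [FD L] in
theorem sg_ne (k : ℕ) : (sg k : L) ≠ 0 := by
  intro h
  have := sg_mul_sg (L := L) k
  rw [h] at this
  simp at this
theorem Bd.sg (k : ℕ) : Bd (sg k : L) := by
  unfold NoMax.sg; split_ifs
  · exact Bd.one.neg
  · exact Bd.one
theorem N_sg_mul (k : ℕ) (x : L) : N (sg k * x) = N x := by
  unfold NoMax.sg; split_ifs <;> simp

/-- basis vectors -/
noncomputable def e (k : ℕ) : ℕ →₀ L := Finsupp.single k 1

omit [StarRing L] [FD L] in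
theorem e_same (k : ℕ) : (e k : ℕ →₀ L) k = 1 := by simp [e]
omit [StarRing L] [FD L] in
theorem e_ne {k l : ℕ} (h : k ≠ l) : (e k : ℕ →₀ L) l = 0 := by simp [e, h]
omit [StarRing L] [FD L] in
theorem e_apply (k l : ℕ) : (e k : ℕ →₀ L) l = if k = l then 1 else 0 := by
  unfold e; rw [Finsupp.single_apply]
omit [StarRing L] [FD L] in
theorem e_ne_zero (k : ℕ) : (e k : ℕ →₀ L) ≠ 0 := by
  intro h
  have := congrArg (fun v => v k) h
  simp [e] at this

/-- `h(·, y)` as a linear form -/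
noncomputable def hf (y : ℕ →₀ L) : (ℕ →₀ L) →ₗ[L] L :=
  Finsupp.linearCombination L (fun k => sg k * star (y k))

/-- the hermitian form -/
noncomputable def h (x y : ℕ →₀ L) : L := hf y x

omit [FD L] in
theorem h_add_left (x x' y : ℕ →₀ L) : h (x + x') y = h x y + h x' y := map_add _ _ _
omit [FD L] in
theorem h_sub_left (x x' y : ℕ →₀ L) : h (x - x') y = h x y - h x' y := map_sub _ _ _
omit [FD L] in
theorem h_smul_left (c : L) (x y : ℕ →₀ L) : h (c • x) y = c * h x y := by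
  unfold h; rw [map_smul, smul_eq_mul]
omit [FD L] in
@[simp] theorem h_zero_left (y : ℕ →₀ L) : h 0 y = 0 := map_zero _
omit [FD L] in
theorem h_neg_left (x y : ℕ →₀ L) : h (-x) y = - h x y := map_neg _ _
omit [FD L] in
theorem h_eq_sum (x y : ℕ →₀ L) (s : Finset ℕ) (hs : x.support ⊆ s) :
    h x y = ∑ k ∈ s, x k * (sg k * star (y k)) := by
  unfold h hf
  rw [Finsupp.linearCombination_apply, Finsupp.sum_of_support_subset _ hs]
  · rfl
  · intro i _; simp
omit [FD L] in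
theorem star_h (x y : ℕ →₀ L) : star (h x y) = h y x := by
  classical
  rw [h_eq_sum x y (x.support ∪ y.support) Finset.subset_union_left,
    h_eq_sum y x (x.support ∪ y.support) Finset.subset_union_right, star_sum]
  apply Finset.sum_congr rfl
  intro k _
  rw [star_mul', star_mul', star_star, star_sg]
  ring
omit [FD L] in
theorem star_h_self (x : ℕ →₀ L) : star (h x x) = h x x := star_h x x
omit [FD L] in
theorem h_add_right (x y y' : ℕ →₀ L) : h x (y + y') = h x y + h x y' := by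
  rw [← star_h, h_add_left, star_add, star_h, star_h]
omit [FD L] in
theorem h_sub_right (x y y' : ℕ →₀ L) : h x (y - y') = h x y - h x y' := by
  rw [← star_h, h_sub_left, star_sub, star_h, star_h]
omit [FD L] in
theorem h_neg_right (x y : ℕ →₀ L) : h x (-y) = - h x y := by
  rw [← star_h, h_neg_left, star_neg, star_h]
omit [FD L] in
theorem h_smul_right (c : L) (x y : ℕ →₀ L) : h x (c • y) = star c * h x y := by
  rw [← star_h, h_smul_left, star_mul', star_h]
omit [FD L] in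
@[simp] theorem h_zero_right (x : ℕ →₀ L) : h x 0 = 0 := by
  rw [← star_h, h_zero_left, star_zero]
omit [FD L] in
theorem h_e_left (k : ℕ) (y : ℕ →₀ L) : h (e k) y = sg k * star (y k) := by
  unfold h hf e
  rw [Finsupp.linearCombination_single, one_smul]
omit [FD L] in
theorem h_e_right (k : ℕ) (x : ℕ →₀ L) : h x (e k) = sg k * x k := by
  rw [← star_h, h_e_left, star_mul', star_star, star_sg]
omit [FD L] in
theorem coord_eq (k : ℕ) (x : ℕ →₀ L) : x k = sg k * h x (e k) := by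
  rw [h_e_right, ← mul_assoc, sg_mul_sg, one_mul]
omit [FD L] in
theorem h_e_self (k : ℕ) : h (e k : ℕ →₀ L) (e k) = sg k := by
  rw [h_e_left, e_same, star_one, mul_one]
omit [FD L] in
theorem h_e_ne {k l : ℕ} (hkl : k ≠ l) : h (e k : ℕ →₀ L) (e l) = 0 := by
  rw [h_e_left, e_ne hkl.symm, star_zero, mul_zero]
omit [FD L] in
theorem eq_zero_of_h {x : ℕ →₀ L} (hx : ∀ y, h x y = 0) : x = 0 := by
  ext k
  rw [coord_eq, hx]
  simp

omit [StarRing L] [FD L] in
theorem apply_eq_sum (A : (ℕ →₀ L) →ₗ[L] (ℕ →₀ L)) (v : ℕ →₀ L) (l : ℕ) :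
    (A v) l = ∑ k ∈ v.support, v k * (A (e k)) l := by
  have h1 : v = ∑ k ∈ v.support, v k • (e k : ℕ →₀ L) := by
    conv_lhs => rw [← Finsupp.sum_single v]
    unfold Finsupp.sum e
    apply Finset.sum_congr rfl
    intro k _
    simp
  conv_lhs => rw [h1]
  rw [map_sum, Finset.sum_apply']
  apply Finset.sum_congr rfl
  intro k _
  rw [map_smul, Finsupp.smul_apply, smul_eq_mul]

theorem disp_le {A : (ℕ →₀ L) →ₗ[L] (ℕ →₀ L)} {r c : ℝ} (hr : 0 ≤ r) (hc : 0 ≤ c)
    (hA : ∀ k l, N ((A (e k)) l) ≤ r) {v : ℕ →₀ L} (hv : ∀ k, N (v k) ≤ c) (l : ℕ) :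
    N ((A v) l) ≤ r * c := by
  rw [apply_eq_sum]
  apply N_sum_le _ _ (mul_nonneg hr hc)
  intro k _
  refine (N_mul _ _).trans ?_
  rw [mul_comm]
  exact mul_le_mul (hA k l) (hv k) (N_nonneg _) hr

theorem disp_lt {A : (ℕ →₀ L) →ₗ[L] (ℕ →₀ L)} {r c : ℝ} (hr : 0 < r) (hc : 0 < c)
    (hA : ∀ k l, N ((A (e k)) l) < r) {v : ℕ →₀ L} (hv : ∀ k, N (v k) ≤ c) (l : ℕ) :
    N ((A v) l) < r * c := by
  rw [apply_eq_sum]
  apply N_sum_lt _ _ (mul_pos hr hc)
  intro k _
  refine (N_mul _ _).trans_lt ?_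
  rw [mul_comm]
  calc N ((A (e k)) l) * N (v k) ≤ N ((A (e k)) l) * c :=
        mul_le_mul_of_nonneg_left (hv k) (N_nonneg _)
    _ < r * c := mul_lt_mul_of_pos_right (hA k l) hc

/-- the ambient group of linear automorphisms -/
abbrev GLV (L : Type) [Field L] : Type := (ℕ →₀ L) ≃ₗ[L] (ℕ →₀ L)

/-- isometry of the form -/
def Iso (g : GLV L) : Prop := ∀ x y, h (g x) (g y) = h x y

omit [FD L] in
theorem Iso.one : Iso (1 : GLV L) := fun _ _ => rfl
omit [FD L] in
theorem Iso.mul {g g' : GLV L} (hg : Iso g) (hg' : Iso g') : Iso (g * g') := fun x y => by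
  change h (g (g' x)) (g (g' y)) = h x y
  rw [hg, hg']
omit [FD L] in
theorem Iso.inv {g : GLV L} (hg : Iso g) : Iso (g⁻¹) := fun x y => by
  rw [← hg (g⁻¹ x) (g⁻¹ y)]
  change h (g (g.symm x)) (g (g.symm y)) = h x y
  rw [LinearEquiv.apply_symm_apply, LinearEquiv.apply_symm_apply]

omit [StarRing L] [FD L] in
theorem inv_apply_self' (g : GLV L) (x : ℕ →₀ L) : g⁻¹ (g x) = x := g.symm_apply_apply x
omit [StarRing L] [FD L] in
theorem apply_inv_self' (g : GLV L) (x : ℕ →₀ L) : g (g⁻¹ x) = x := g.apply_symm_apply x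
omit [StarRing L] [FD L] in
theorem mul_apply' (g g' : GLV L) (x : ℕ →₀ L) : (g * g') x = g (g' x) := rfl

omit [FD L] in
theorem Iso.inv_coord {g : GLV L} (hg : Iso g) (k l : ℕ) :
    (g⁻¹ (e k)) l = sg l * (sg k * star ((g (e l)) k)) := by
  rw [coord_eq, ← hg, apply_inv_self', h_e_left]

theorem inv_disp {g : GLV L} (hg : Iso g) (k l : ℕ) :
    N ((g⁻¹ (e k) - e k : ℕ →₀ L) l) = N ((g (e l) - e l : ℕ →₀ L) k) := by
  rw [Finsupp.sub_apply, Finsupp.sub_apply, hg.inv_coord]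
  by_cases hkl : k = l
  · subst hkl
    rw [← mul_assoc, sg_mul_sg, one_mul, e_same, ← N_star]
    simp
  · rw [e_ne hkl, e_ne (Ne.symm hkl), sub_zero, sub_zero, N_sg_mul, N_sg_mul, N_star]

/-- `g - 1` as a linear map -/
noncomputable def dsp (g : GLV L) : (ℕ →₀ L) →ₗ[L] (ℕ →₀ L) :=
  (g : (ℕ →₀ L) →ₗ[L] (ℕ →₀ L)) - LinearMap.id
omit [StarRing L] [FD L] in
theorem dsp_apply (g : GLV L) (v : ℕ →₀ L) : dsp g v = g v - v := rfl

/-- eventually diagonal from `n` on -/
def EvD (n : ℕ) (g : GLV L) : Prop := ∀ k, n ≤ k → ∃ c : L, g (e k) = c • e k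

omit [StarRing L] [FD L] in
theorem EvD.mono {n m : ℕ} {g : GLV L} (hg : EvD n g) (hnm : n ≤ m) : EvD m g :=
  fun k hk => hg k (hnm.trans hk)
omit [StarRing L] [FD L] in
theorem EvD.mul {n : ℕ} {g g' : GLV L} (hg : EvD n g) (hg' : EvD n g') : EvD n (g * g') := by
  intro k hk
  obtain ⟨c, hc⟩ := hg k hk
  obtain ⟨c', hc'⟩ := hg' k hk
  refine ⟨c' * c, ?_⟩
  rw [mul_apply', hc', map_smul, hc, smul_smul]
omit [StarRing L] [FD L] in
theorem EvD.inv {n : ℕ} {g : GLV L} (hg : EvD n g) : EvD n (g⁻¹) := by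
  intro k hk
  obtain ⟨c, hc⟩ := hg k hk
  have hc0 : c ≠ 0 := by
    rintro rfl
    rw [zero_smul] at hc
    exact e_ne_zero k (g.map_eq_zero_iff.1 hc)
  refine ⟨c⁻¹, ?_⟩
  have : e k = c⁻¹ • g (e k) := by rw [hc, smul_smul, inv_mul_cancel₀ hc0, one_smul]
  conv_lhs => rw [this]
  rw [map_smul, inv_apply_self']

/-- The group `G`. -/
noncomputable def G (L : Type) [Field L] [StarRing L] [FD L] : Subgroup (GLV L) where
  carrier := {g | Iso g ∧ (∀ k l, N ((g (e k) - e k : ℕ →₀ L) l) < 1) ∧ ∃ n, EvD n g}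
  mul_mem' := by
    rintro g g' ⟨h1, h2, n, h3⟩ ⟨h1', h2', n', h3'⟩
    refine ⟨h1.mul h1', ?_, max n n', (h3.mono (le_max_left _ _)).mul (h3'.mono (le_max_right _ _))⟩
    intro k l
    have hb : ∀ m, N ((g' (e k)) m) ≤ 1 := by
      intro m
      have : (g' (e k)) m = (g' (e k) - e k : ℕ →₀ L) m + (e k : ℕ →₀ L) m := by simp
      rw [this]
      refine (N_add _ _).trans (max_le (h2' k m).le ?_)
      rw [e_apply]; split_ifs <;> simp
    have h4 : N ((dsp g (g' (e k))) l) < 1 * 1 := disp_lt one_pos one_pos h2 hb l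
    rw [one_mul] at h4
    have h5 : ((g * g') (e k) - e k : ℕ →₀ L) l = (dsp g (g' (e k))) l + (g' (e k) - e k : ℕ →₀ L) l := by
      rw [dsp_apply, mul_apply', Finsupp.sub_apply, Finsupp.sub_apply, Finsupp.sub_apply]; ring
    rw [h5]
    exact (N_add _ _).trans_lt (max_lt h4 (h2' k l))
  one_mem' := by
    refine ⟨Iso.one, ?_, 0, ?_⟩
    · intro k l
      simp
    · intro k _
      exact ⟨1, by simp⟩
  inv_mem' := by
    rintro g ⟨h1, h2, n, h3⟩
    refine ⟨h1.inv, ?_, n, h3.inv⟩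
    intro k l
    rw [inv_disp h1]
    exact h2 l k

theorem mem_G {g : GLV L} : g ∈ G L ↔
    Iso g ∧ (∀ k l, N ((g (e k) - e k : ℕ →₀ L) l) < 1) ∧ ∃ n, EvD n g := Iff.rfl

theorem G_iso {g : GLV L} (hg : g ∈ G L) : Iso g := hg.1
theorem G_disp {g : GLV L} (hg : g ∈ G L) {v : ℕ →₀ L} {c : ℝ} (hc : 0 < c)
    (hv : ∀ k, N (v k) ≤ c) (l : ℕ) : N ((g v - v) l) < c := by
  have := disp_lt (A := dsp g) one_pos hc hg.2.1 hv l
  rwa [one_mul] at this
theorem G_bd {g : GLV L} (hg : g ∈ G L) {v : ℕ →₀ L} {c : ℝ} (hc : 0 ≤ c)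
    (hv : ∀ k, N (v k) ≤ c) (l : ℕ) : N ((g v) l) ≤ c := by
  have h1 : ∀ k l, N (((g : (ℕ →₀ L) →ₗ[L] (ℕ →₀ L)) (e k)) l) ≤ 1 := by
    intro k m
    have : (g (e k)) m = (g (e k) - e k : ℕ →₀ L) m + (e k : ℕ →₀ L) m := by simp
    change N ((g (e k)) m) ≤ 1
    rw [this]
    refine (N_add _ _).trans (max_le (hg.2.1 k m).le ?_)
    rw [e_apply]; split_ifs <;> simp
  have := disp_le (A := (g : (ℕ →₀ L) →ₗ[L] (ℕ →₀ L))) zero_le_one hc h1 hv l
  rwa [one_mul] at this

/-- diagonal elements -/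
def isD (g : GLV L) (c : ℕ → L) : Prop := ∀ k, g (e k) = c k • e k

omit [StarRing L] [FD L] in
theorem glv_ext {g g' : GLV L} (hgg : ∀ k, g (e k) = g' (e k)) : g = g' := by
  apply LinearEquiv.toLinearMap_injective
  apply Finsupp.lhom_ext'
  intro k
  apply LinearMap.ext_ring
  exact hgg k

omit [StarRing L] [FD L] in
theorem isD.mul {g g' : GLV L} {c c' : ℕ → L} (hg : isD g c) (hg' : isD g' c') :
    isD (g * g') (fun k => c k * c' k) := by
  intro k
  rw [mul_apply', hg', map_smul, hg, smul_smul, mul_comm]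
omit [StarRing L] [FD L] in
theorem isD.ne {g : GLV L} {c : ℕ → L} (hg : isD g c) (k : ℕ) : c k ≠ 0 := by
  intro h0
  have := hg k
  rw [h0, zero_smul] at this
  exact e_ne_zero k (g.map_eq_zero_iff.1 this)
omit [StarRing L] [FD L] in
theorem isD.inv {g : GLV L} {c : ℕ → L} (hg : isD g c) : isD (g⁻¹) (fun k => (c k)⁻¹) := by
  intro k
  have hc0 := hg.ne k
  have : e k = (c k)⁻¹ • g (e k) := by rw [hg k, smul_smul, inv_mul_cancel₀ hc0, one_smul]
  conv_lhs => rw [this]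
  rw [map_smul, inv_apply_self']
omit [StarRing L] [FD L] in
theorem isD.ext {g g' : GLV L} {c : ℕ → L} (hg : isD g c) (hg' : isD g' c) : g = g' :=
  glv_ext fun k => by rw [hg, hg']
omit [StarRing L] [FD L] in
theorem isD.apply {g : GLV L} {c : ℕ → L} (hg : isD g c) (v : ℕ →₀ L) (k : ℕ) :
    (g v) k = c k * v k := by
  have h1 := apply_eq_sum (g : (ℕ →₀ L) →ₗ[L] (ℕ →₀ L)) v k
  have h2 : (g v) k = ∑ i ∈ v.support, v i * (g (e i)) k := h1
  rw [h2]
  by_cases hk : k ∈ v.support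
  · rw [Finset.sum_eq_single k]
    · rw [hg, Finsupp.smul_apply, e_same, smul_eq_mul, mul_one, mul_comm]
    · intro b _ hb
      rw [hg, Finsupp.smul_apply, e_ne hb, smul_zero, mul_zero]
    · intro h; exact absurd hk h
  · rw [Finset.sum_eq_zero, Finsupp.notMem_support_iff.1 hk, mul_zero]
    intro b hb
    rw [hg, Finsupp.smul_apply, e_ne (by rintro rfl; exact hk hb), smul_zero, mul_zero]

/-- auxiliary linear map for diagonal elements -/
noncomputable def dgl (c : ℕ → L) : (ℕ →₀ L) →ₗ[L] (ℕ →₀ L) :=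
  Finsupp.linearCombination L (fun k => c k • e k)
omit [StarRing L] [FD L] in
theorem dgl_e (c : ℕ → L) (k : ℕ) : dgl c (e k) = c k • e k := by
  unfold dgl
  conv_lhs => rw [show (e k : ℕ →₀ L) = Finsupp.single k 1 from rfl]
  rw [Finsupp.linearCombination_single, one_smul]
omit [StarRing L] [FD L] in
theorem lin_ext {A B : (ℕ →₀ L) →ₗ[L] (ℕ →₀ L)} (hgg : ∀ k, A (e k) = B (e k)) : A = B := by
  apply Finsupp.lhom_ext'
  intro k
  apply LinearMap.ext_ring
  exact hgg k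
omit [StarRing L] [FD L] in
theorem exists_isD (c : ℕ → L) (hc : ∀ k, c k ≠ 0) : ∃ g : GLV L, isD g c := by
  refine ⟨LinearEquiv.ofLinearMap (dgl c) (dgl fun k => (c k)⁻¹) ?_ ?_, ?_⟩
  · apply lin_ext
    intro k
    rw [LinearMap.comp_apply, dgl_e, map_smul, dgl_e, smul_smul, inv_mul_cancel₀ (hc k), one_smul]
    rfl
  · apply lin_ext
    intro k
    rw [LinearMap.comp_apply, dgl_e, map_smul, dgl_e, smul_smul, mul_inv_cancel₀ (hc k), one_smul]
    rfl
  · intro k
    exact dgl_e c k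

omit [FD L] in
theorem isD.iso {g : GLV L} {c : ℕ → L} (hg : isD g c) (hc : ∀ k, c k * star (c k) = 1) :
    Iso g := by
  classical
  intro x y
  rw [h_eq_sum x y (x.support ∪ (g x).support) Finset.subset_union_left,
    h_eq_sum (g x) (g y) (x.support ∪ (g x).support) Finset.subset_union_right]
  apply Finset.sum_congr rfl
  intro k _
  rw [hg.apply, hg.apply, star_mul']
  linear_combination (x k * (sg k * star (y k))) * hc k

theorem isD.mem_G {g : GLV L} {c : ℕ → L} (hg : isD g c) (hc : ∀ k, isY (c k)) : g ∈ G L := by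
  refine ⟨hg.iso fun k => (hc k).1, ?_, 0, fun k _ => ⟨c k, hg k⟩⟩
  intro k l
  rw [hg k, Finsupp.sub_apply, Finsupp.smul_apply, smul_eq_mul]
  by_cases hkl : k = l
  · subst hkl
    rw [e_same, mul_one]; exact (hc k).2
  · rw [e_ne hkl]; simp

/-- reflections: `T v = v + (y-1) h(v,w)/h(w,w) w` -/
def isR (T : GLV L) (w : ℕ →₀ L) (y : L) : Prop :=
  ∀ v, T v = v + ((y - 1) * h v w / h w w) • w

omit [FD L] in
theorem isR.mul {T T' : GLV L} {w : ℕ →₀ L} {y y' : L} (hw : h w w ≠ 0) (hT : isR T w y)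
    (hT' : isR T' w y') : isR (T * T') w (y * y') := by
  intro v
  rw [mul_apply', hT', hT, h_add_left, h_smul_left, add_assoc, ← add_smul]
  congr 2
  field_simp
  ring
omit [FD L] in
theorem isR.ext {T T' : GLV L} {w : ℕ →₀ L} {y : L} (hT : isR T w y) (hT' : isR T' w y) :
    T = T' := by
  apply LinearEquiv.ext
  intro v
  rw [hT, hT']

/-- auxiliary linear map for reflections -/
noncomputable def rfl' (w : ℕ →₀ L) (y : L) : (ℕ →₀ L) →ₗ[L] (ℕ →₀ L) :=
  LinearMap.id + ((y - 1) / h w w) • (hf w).smulRight w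
omit [FD L] in
theorem rfl'_apply (w : ℕ →₀ L) (y : L) (v : ℕ →₀ L) :
    rfl' w y v = v + ((y - 1) * h v w / h w w) • w := by
  unfold rfl'
  rw [LinearMap.add_apply, LinearMap.id_apply, LinearMap.smul_apply, LinearMap.smulRight_apply,
    smul_smul]
  congr 2
  change (y - 1) / h w w * h v w = _
  ring
omit [FD L] in
theorem rfl'_comp {w : ℕ →₀ L} (hw : h w w ≠ 0) {y y' : L} (hy : y * y' = 1) :
    (rfl' w y).comp (rfl' w y') = LinearMap.id := by
  apply LinearMap.ext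
  intro v
  rw [LinearMap.comp_apply, rfl'_apply, rfl'_apply, h_add_left, h_smul_left, add_assoc, ← add_smul]
  rw [LinearMap.id_apply]
  have : ((y' - 1) * h v w / h w w + (y - 1) * (h v w + (y' - 1) * h v w / h w w * h w w) / h w w)
      = 0 := by
    field_simp
    linear_combination h v w * hy
  rw [this, zero_smul, add_zero]
omit [FD L] in
theorem exists_isR {w : ℕ →₀ L} (hw : h w w ≠ 0) {y : L} (hy : y ≠ 0) : ∃ T : GLV L, isR T w y := by
  refine ⟨LinearEquiv.ofLinearMap (rfl' w y) (rfl' w y⁻¹) (rfl'_comp hw (mul_inv_cancel₀ hy))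
    (rfl'_comp hw (inv_mul_cancel₀ hy)), ?_⟩
  intro v
  exact rfl'_apply w y v

omit [FD L] in
theorem isR.iso {T : GLV L} {w : ℕ →₀ L} {y : L} (hw : h w w ≠ 0) (hy : y * star y = 1)
    (hT : isR T w y) : Iso T := by
  intro u v
  rw [hT, hT, h_add_left, h_add_right, h_add_right, h_smul_left, h_smul_left, h_smul_right,
    h_smul_right]
  have h1 : h w v = star (h v w) := (star_h v w).symm
  have h2 : star (h w w) = h w w := star_h_self w
  rw [h1, star_div₀, star_mul', h2, star_sub, star_one]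
  field_simp
  linear_combination (h u w * star (h v w)) * hy

end form

end Pool.Agent.NoMax
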