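import Pool.Agent.Lib.MP_e2b313_al.Form

namespace Pool.Agent.NoMax

section grp

variable {L : Type} [Field L] [StarRing L] [FD L]

theorem e_bd (k l : ℕ) : N ((e k : ℕ →₀ L) l) ≤ 1 := by
  rw [e_apply]; split_ifs <;> simp

/-- the normal countable subgroup `H` -/
noncomputable def Hs (L : Type) [Field L] [StarRing L] [FD L] : Subgroup (GLV L) where
  carrier := {g | g ∈ G L ∧ ∃ n : ℕ, ∀ k, n ≤ k → g (e k) = e k}
  mul_mem' := by
    rintro g g' ⟨h1, n, h2⟩ ⟨h1', n', h2'⟩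
    refine ⟨(G L).mul_mem h1 h1', max n n', ?_⟩
    intro k hk
    rw [mul_apply', h2' k (le_trans (le_max_right _ _) hk), h2 k (le_trans (le_max_left _ _) hk)]
  one_mem' := ⟨(G L).one_mem, 0, fun k _ => rfl⟩
  inv_mem' := by
    rintro g ⟨h1, n, h2⟩
    refine ⟨(G L).inv_mem h1, n, ?_⟩
    intro k hk
    conv_lhs => rw [← h2 k hk]
    rw [inv_apply_self']

theorem Hs_le_G : Hs L ≤ G L := fun _ hg => hg.1

/-- congruence subgroups of `H` -/
noncomputable def Hb (L : Type) [Field L] [StarRing L] [FD L] (b : ℝ) (hb : 0 ≤ b) :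
    Subgroup (GLV L) where
  carrier := {g | g ∈ Hs L ∧ ∀ k l, N ((g (e k) - e k : ℕ →₀ L) l) ≤ b}
  mul_mem' := by
    rintro g g' ⟨h1, h2⟩ ⟨h1', h2'⟩
    refine ⟨(Hs L).mul_mem h1 h1', ?_⟩
    intro k l
    have h3 : ((g * g') (e k) - e k : ℕ →₀ L) l
        = (g (g' (e k) - e k : ℕ →₀ L)) l + (g (e k) - e k : ℕ →₀ L) l := by
      rw [mul_apply', map_sub, Finsupp.sub_apply, Finsupp.sub_apply, Finsupp.sub_apply]; ring
    rw [h3]
    exact (N_add _ _).trans (max_le (G_bd h1.1 hb (h2' k) l) (h2 k l))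
  one_mem' := ⟨(Hs L).one_mem, fun k l => by simp [hb]⟩
  inv_mem' := by
    rintro g ⟨h1, h2⟩
    refine ⟨(Hs L).inv_mem h1, fun k l => ?_⟩
    rw [inv_disp h1.1.1]
    exact h2 l k

theorem Hb_le_Hs {b : ℝ} (hb : 0 ≤ b) : Hb L b hb ≤ Hs L := fun _ hg => hg.1
theorem Hb_mono {b c : ℝ} (hb : 0 ≤ b) (hbc : b ≤ c) : Hb L b hb ≤ Hb L c (hb.trans hbc) :=
  fun _ hg => ⟨hg.1, fun k l => (hg.2 k l).trans hbc⟩

theorem Hs_normal {g x : GLV L} (hg : g ∈ G L) (hx : x ∈ Hs L) : g * x * g⁻¹ ∈ Hs L := by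
  refine ⟨(G L).mul_mem ((G L).mul_mem hg hx.1) ((G L).inv_mem hg), ?_⟩
  obtain ⟨n, hn⟩ := hg.2.2
  obtain ⟨m, hm⟩ := hx.2
  refine ⟨max n m, fun k hk => ?_⟩
  obtain ⟨c, hc⟩ := hn.inv k ((le_max_left _ _).trans hk)
  rw [mul_apply', mul_apply', hc, map_smul, hm k ((le_max_right _ _).trans hk), ← hc,
    apply_inv_self']

theorem Hb_normal {b : ℝ} (hb : 0 ≤ b) {g x : GLV L} (hg : g ∈ G L) (hx : x ∈ Hb L b hb) :
    g * x * g⁻¹ ∈ Hb L b hb := by
  refine ⟨Hs_normal hg hx.1, fun k l => ?_⟩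
  have hginv := (G L).inv_mem hg
  have h1 : ((g * x * g⁻¹) (e k) - e k : ℕ →₀ L) = g (dsp x (g⁻¹ (e k))) := by
    rw [dsp_apply, map_sub, apply_inv_self']; rfl
  rw [h1]
  apply G_bd hg hb
  intro m
  have h2 := disp_le (A := dsp x) hb zero_le_one hx.2 (G_bd hginv zero_le_one (e_bd k)) m
  rwa [mul_one] at h2

theorem comm_mem_Hs {g g' : GLV L} (hg : g ∈ G L) (hg' : g' ∈ G L) :
    g * g' * g⁻¹ * g'⁻¹ ∈ Hs L := by
  refine ⟨(G L).mul_mem ((G L).mul_mem ((G L).mul_mem hg hg') ((G L).inv_mem hg))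
    ((G L).inv_mem hg'), ?_⟩
  obtain ⟨n, hn⟩ := hg.2.2
  obtain ⟨m, hm⟩ := hg'.2.2
  refine ⟨max n m, fun k hk => ?_⟩
  obtain ⟨c, hc⟩ := hn k ((le_max_left _ _).trans hk)
  obtain ⟨d, hd⟩ := hm k ((le_max_right _ _).trans hk)
  have h1 : (g * g') (e k) = (g' * g) (e k) := by
    rw [mul_apply', mul_apply', hc, hd, map_smul, map_smul, hc, hd, smul_smul, smul_smul,
      mul_comm]
  have h2 : (g⁻¹ * g'⁻¹) ((g' * g) (e k)) = e k := by
    rw [mul_apply', mul_apply', inv_apply_self', inv_apply_self']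
  obtain ⟨c', hc'⟩ : ∃ c', (g⁻¹ * g'⁻¹) (e k) = c' • (e k : ℕ →₀ L) :=
    (EvD.mul (hn.inv.mono (le_max_left _ _)) (hm.inv.mono (le_max_right _ _))) k hk
  have h3 : (g * g' * g⁻¹ * g'⁻¹) (e k) = (g * g') ((g⁻¹ * g'⁻¹) (e k)) := rfl
  rw [h3, hc', map_smul, h1, ← map_smul, ← hc']
  change (g' * g) ((g⁻¹ * g'⁻¹) (e k)) = e k
  rw [mul_apply', mul_apply', apply_inv_self', apply_inv_self']

theorem Hb_comm {r s : ℝ} (hr : 0 ≤ r) (hs : 0 ≤ s) {x y : GLV L} (hx : x ∈ Hb L r hr)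
    (hy : y ∈ Hb L s hs) : x * y * x⁻¹ * y⁻¹ ∈ Hb L (r * s) (mul_nonneg hr hs) := by
  have hxG : x ∈ G L := hx.1.1
  have hyG : y ∈ G L := hy.1.1
  refine ⟨(Hs L).mul_mem ((Hs L).mul_mem ((Hs L).mul_mem hx.1 hy.1) ((Hs L).inv_mem hx.1))
    ((Hs L).inv_mem hy.1), fun k l => ?_⟩
  set v := (x⁻¹ * y⁻¹) (e k) with hv
  have hvb : ∀ m, N (v m) ≤ 1 :=
    G_bd ((G L).mul_mem ((G L).inv_mem hxG) ((G L).inv_mem hyG)) zero_le_one (e_bd k)
  have h1 : ((x * y * x⁻¹ * y⁻¹) (e k) - e k : ℕ →₀ L) = dsp x (dsp y v) - dsp y (dsp x v) := by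
    have h2 : (x * y * x⁻¹ * y⁻¹) (e k) = x (y v) := rfl
    have h3 : e k = y (x v) := by
      rw [hv, mul_apply', apply_inv_self', apply_inv_self']
    rw [h2]
    conv_lhs => rw [h3]
    simp only [dsp_apply, map_sub]
    abel
  rw [h1, Finsupp.sub_apply]
  refine (N_sub _ _).trans (max_le ?_ ?_)
  · apply disp_le (A := dsp x) hr hs hx.2
    intro m
    have := disp_le (A := dsp y) hs zero_le_one hy.2 hvb m
    rwa [mul_one] at this
  · rw [mul_comm]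
    apply disp_le (A := dsp y) hs hr hy.2
    intro m
    have := disp_le (A := dsp x) hr zero_le_one hx.2 hvb m
    rwa [mul_one] at this

theorem Hs_exists_b {x : GLV L} (hx : x ∈ Hs L) :
    ∃ b : ℝ, ∃ hb : 0 < b, b < 1 ∧ x ∈ Hb L b hb.le := by
  obtain ⟨n, hn⟩ := hx.2
  classical
  -- finite set of relevant entries
  have h1 : ∀ m : ℕ, ∃ b : ℝ, 0 < b ∧ b < 1 ∧ ∀ k < m, ∀ l, N ((x (e k) - e k : ℕ →₀ L) l) ≤ b := by
    intro m
    induction m with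
    | zero => exact ⟨1 / 2, by norm_num, by norm_num, fun k hk => absurd hk (by omega)⟩
    | succ m ih =>
      obtain ⟨b, hb0, hb1, hb⟩ := ih
      have h2 : ∃ c : ℝ, 0 < c ∧ c < 1 ∧ ∀ l ∈ (x (e m) - e m : ℕ →₀ L).support,
          N ((x (e m) - e m : ℕ →₀ L) l) ≤ c := by
        have h3 : ∀ s : Finset ℕ, ∃ c : ℝ, 0 < c ∧ c < 1 ∧ ∀ l ∈ s,
            N ((x (e m) - e m : ℕ →₀ L) l) ≤ c := by
          intro s
          induction s using Finset.induction_on with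
          | empty => exact ⟨1 / 2, by norm_num, by norm_num, by simp⟩
          | insert a s _ ih2 =>
            obtain ⟨c, hc0, hc1, hc⟩ := ih2
            refine ⟨max c (N ((x (e m) - e m : ℕ →₀ L) a)), lt_max_of_lt_left hc0,
              max_lt hc1 (hx.1.2.1 m a), ?_⟩
            intro l hl
            rcases Finset.mem_insert.1 hl with rfl | hl
            · exact le_max_right _ _
            · exact (hc l hl).trans (le_max_left _ _)
        exact h3 _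
      obtain ⟨c, hc0, hc1, hc⟩ := h2
      refine ⟨max b c, lt_max_of_lt_left hb0, max_lt hb1 hc1, ?_⟩
      intro k hk l
      rcases Nat.lt_succ_iff_lt_or_eq.1 hk with hk | rfl
      · exact (hb k hk l).trans (le_max_left _ _)
      · by_cases hl : l ∈ (x (e k) - e k : ℕ →₀ L).support
        · exact (hc l hl).trans (le_max_right _ _)
        · rw [Finsupp.notMem_support_iff.1 hl, N_zero]
          exact (lt_max_of_lt_left hb0).le
  obtain ⟨b, hb0, hb1, hb⟩ := h1 n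
  refine ⟨b, hb0, hb1, hx, ?_⟩
  intro k l
  by_cases hk : k < n
  · exact hb k hk l
  · rw [hn k (by omega)]
    simp [hb0.le]

theorem countable_Hs : Countable (Hs L) := by
  have : Countable L := FD.ctbl
  let f : Hs L → (ℕ →₀ (ℕ →₀ L)) := fun g =>
    Finsupp.ofSupportFinite (fun k => (g : GLV L) (e k) - e k) (by
      obtain ⟨n, hn⟩ := g.2.2
      refine (Set.finite_lt_nat n).subset ?_
      intro k hk
      by_contra hcon
      apply hk
      have : n ≤ k := not_lt.1 hcon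
      simp only [hn k this, sub_self])
  have hf : Function.Injective f := by
    intro g g' hgg
    apply Subtype.ext
    apply glv_ext
    intro k
    have h1 := DFunLike.congr_fun hgg k
    have h2 : (g : GLV L) (e k) - e k = (g' : GLV L) (e k) - e k := h1
    exact sub_left_inj.1 h2
  exact hf.countable

omit [FD L] in
theorem iso_supp {T : GLV L} (hT : Iso T) {n : ℕ} (hn : EvD n T) {k l : ℕ} (hk : k < n)
    (hl : n ≤ l) : (T (e k)) l = 0 := by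
  obtain ⟨c, hc⟩ := hn l hl
  have hc0 : c ≠ 0 := by
    rintro rfl
    rw [zero_smul] at hc
    exact e_ne_zero l (T.map_eq_zero_iff.1 hc)
  have h1 : (e l : ℕ →₀ L) = T (c⁻¹ • e l) := by
    rw [map_smul, hc, smul_smul, inv_mul_cancel₀ hc0, one_smul]
  rw [coord_eq, h1, hT, h_smul_right, h_e_ne (by omega), mul_zero, mul_zero]

omit [FD L] in
theorem diag_commute {T D : GLV L} (hT : Iso T) {n : ℕ} (hn : EvD n T) {c : ℕ → L}
    (hD : isD D c) (hc : ∀ k, k < n → c k = 1) : D * T = T * D := by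
  apply glv_ext
  intro k
  rw [mul_apply', mul_apply', hD k, map_smul]
  by_cases hk : k < n
  · rw [hc k hk, one_smul]
    ext j
    rw [hD.apply]
    by_cases hj : j < n
    · rw [hc j hj, one_mul]
    · rw [iso_supp hT hn hk (not_lt.1 hj), mul_zero]
  · obtain ⟨d, hd⟩ := hn k (not_lt.1 hk)
    rw [hd, map_smul, hD k, smul_comm]

theorem eigen_isY {T : GLV L} (hT : T ∈ G L) {k : ℕ} {c : L} (hc : T (e k) = c • e k) : isY c := by
  constructor
  · have h1 := hT.1 (e k) (e k)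
    rw [hc, h_smul_left, h_smul_right, h_e_self] at h1
    have h2 := sg_ne (L := L) k
    have h3 : (c * star c) * sg k = 1 * sg k := by linear_combination h1
    exact mul_right_cancel₀ h2 h3
  · have h1 := hT.2.1 k k
    rw [hc, Finsupp.sub_apply, Finsupp.smul_apply, e_same, smul_eq_mul, mul_one] at h1
    exact h1

theorem decomp {g : GLV L} (hg : g ∈ G L) {n : ℕ} (hn : EvD n g) :
    ∃ g' D : GLV L, ∃ c : ℕ → L, g = g' * D ∧ g' ∈ G L ∧ (∀ k, n ≤ k → g' (e k) = e k) ∧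
      isD D c ∧ (∀ k, isY (c k)) ∧ ∀ k, k < n → c k = 1 := by
  classical
  have hex : ∀ k, ∃ c : L, isY c ∧ (k < n → c = 1) ∧ (n ≤ k → g (e k) = c • e k) := by
    intro k
    by_cases hk : k < n
    · exact ⟨1, isY.one, fun _ => rfl, fun h => absurd hk (not_lt.2 h)⟩
    · obtain ⟨c, hc⟩ := hn k (not_lt.1 hk)
      exact ⟨c, eigen_isY hg hc, fun h => absurd h hk, fun _ => hc⟩
  choose c hc1 hc2 hc3 using hex
  obtain ⟨D, hD⟩ := exists_isD c fun k => (hc1 k).ne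
  have hDG : D ∈ G L := hD.mem_G hc1
  refine ⟨g * D⁻¹, D, c, by group, (G L).mul_mem hg ((G L).inv_mem hDG), ?_, hD, hc1, hc2⟩
  intro k hk
  rw [mul_apply', hD.inv k, map_smul, hc3 k hk, smul_smul, inv_mul_cancel₀ (hc1 k).ne, one_smul]

/-- maximal proper subgroups of `G` -/
structure Cox (M : Subgroup (GLV L)) : Prop where
  le : M ≤ G L
  ne : M ≠ G L
  mx : ∀ K : Subgroup (GLV L), M ≤ K → K ≤ G L → K = M ∨ K = G L

/-- all commutators in `M` -/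
def CommIn (M : Subgroup (GLV L)) : Prop :=
  ∀ g ∈ G L, ∀ g' ∈ G L, g * g' * g⁻¹ * g'⁻¹ ∈ M

theorem Cox.sup {M : Subgroup (GLV L)} (hM : Cox M) {K : Subgroup (GLV L)} (hK : K ≤ G L)
    (hKn : ∀ g ∈ G L, ∀ x ∈ K, g * x * g⁻¹ ∈ K) (hKM : ¬ K ≤ M) {g : GLV L} (hg : g ∈ G L) :
    ∃ x ∈ K, ∃ m ∈ M, g = x * m := by
  let P : Subgroup (GLV L) :=
    { carrier := {g | ∃ x ∈ K, ∃ m ∈ M, g = x * m}
      mul_mem' := by
        rintro a b ⟨x, hx, m, hm, rfl⟩ ⟨y, hy, n, hn, rfl⟩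
        refine ⟨x * (m * y * m⁻¹), K.mul_mem hx (hKn m (hM.le hm) y hy), m * n, M.mul_mem hm hn, ?_⟩
        group
      one_mem' := ⟨1, K.one_mem, 1, M.one_mem, by simp⟩
      inv_mem' := by
        rintro a ⟨x, hx, m, hm, rfl⟩
        refine ⟨m⁻¹ * x⁻¹ * m⁻¹⁻¹, hKn _ ((G L).inv_mem (hM.le hm)) _ (K.inv_mem hx), m⁻¹,
          M.inv_mem hm, ?_⟩
        group }
  have h1 : M ≤ P := fun m hm => ⟨1, K.one_mem, m, hm, by simp⟩
  have h2 : P ≤ G L := by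
    rintro a ⟨x, hx, m, hm, rfl⟩
    exact (G L).mul_mem (hK hx) (hM.le hm)
  rcases hM.mx P h1 h2 with h3 | h3
  · exfalso
    apply hKM
    intro x hx
    rw [← h3]
    exact ⟨x, hx, 1, M.one_mem, by simp⟩
  · have : g ∈ P := by rw [h3]; exact hg
    exact this

/-- Claim 2: a maximal subgroup containing some `Hb b` contains all commutators. -/
theorem Cox.claim2 {M : Subgroup (GLV L)} (hM : Cox M) {b : ℝ} (hb : 0 < b)
    (hbM : Hb L b hb.le ≤ M) : CommIn M := by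
  classical
  by_cases hH : Hs L ≤ M
  · intro g hg g' hg'
    exact hH (comm_mem_Hs hg hg')
  obtain ⟨x0, hx0, hx0M⟩ := Set.not_subset.1 hH
  obtain ⟨r0, hr0, hr01, hx0b⟩ := Hs_exists_b hx0
  have hr0M : ¬ Hb L r0 hr0.le ≤ M := fun h => hx0M (h hx0b)
  -- find the exponent
  have hex : ∃ i : ℕ, Hb L (r0 ^ (2 ^ i)) (by positivity) ≤ M := by
    obtain ⟨n, hn⟩ := exists_pow_lt_of_lt_one hb hr01
    refine ⟨n, ?_⟩
    have h1 : r0 ^ (2 ^ n) ≤ b :=
      (pow_le_pow_of_le_one hr0.le hr01.le (Nat.lt_two_pow_self).le).trans hn.le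
    exact (Hb_mono (by positivity) h1).trans hbM
  obtain ⟨i, hi, himin⟩ : ∃ i : ℕ, Hb L (r0 ^ (2 ^ (i + 1))) (by positivity) ≤ M ∧
      ¬ Hb L (r0 ^ (2 ^ i)) (by positivity) ≤ M := by
    have h1 := Nat.find_spec hex
    have h2 := fun m => Nat.find_min hex (m := m)
    have h3 : Nat.find hex ≠ 0 := by
      intro h0
      rw [h0] at h1
      apply hr0M
      simpa using h1
    obtain ⟨i, hi⟩ := Nat.exists_eq_succ_of_ne_zero h3
    refine ⟨i, ?_, ?_⟩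
    · have : i + 1 = Nat.find hex := by omega
      simpa only [this] using h1
    · exact h2 _ (by omega)
  obtain ⟨r, hr, hr1, hrr⟩ : ∃ r : ℝ, ∃ hr : 0 < r, r < 1 ∧ ¬ Hb L r hr.le ≤ M ∧
      Hb L (r * r) (mul_nonneg hr.le hr.le) ≤ M := by
    refine ⟨r0 ^ (2 ^ i), by positivity, pow_lt_one₀ hr0.le hr01 (by positivity), himin, ?_⟩
    have h1 : r0 ^ (2 ^ (i + 1)) = r0 ^ (2 ^ i) * r0 ^ (2 ^ i) := by rw [← pow_add]; congr 1; ring
    simpa only [h1] using hi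
  obtain ⟨hrM, hrrM⟩ := hrr
  -- N = M ∩ H(r) is normal in G
  have hNn : ∀ g ∈ G L, ∀ x ∈ M, x ∈ Hb L r hr.le → g * x * g⁻¹ ∈ M := by
    intro g hg x hxM hxr
    obtain ⟨a, ha, m, hm, rfl⟩ := hM.sup ((Hb_le_Hs hr.le).trans Hs_le_G)
      (fun g hg x hx => Hb_normal hr.le hg hx) hrM hg
    have h1 : m * x * m⁻¹ ∈ M := M.mul_mem (M.mul_mem hm hxM) (M.inv_mem hm)
    have h2 : m * x * m⁻¹ ∈ Hb L r hr.le := Hb_normal hr.le (hM.le hm) hxr
    have h3 := hrrM (Hb_comm hr.le hr.le ha h2)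
    have h4 : a * m * x * (a * m)⁻¹ = (a * (m * x * m⁻¹) * a⁻¹ * (m * x * m⁻¹)⁻¹) * (m * x * m⁻¹) := by
      group
    rw [h4]
    exact M.mul_mem h3 h1
  -- [H, H(r)] ≤ M
  have hHr : ∀ g ∈ Hs L, ∀ x ∈ Hb L r hr.le, g * x * g⁻¹ * x⁻¹ ∈ M := by
    intro g hg x hx
    obtain ⟨c, hc, hc1, hgc⟩ := Hs_exists_b hg
    have hex2 : ∃ k : ℕ, Hb L (r * c ^ k) (by positivity) ≤ M := by
      obtain ⟨n, hn⟩ := exists_pow_lt_of_lt_one hr hc1
      refine ⟨n, ?_⟩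
      exact (Hb_mono (by positivity) (mul_le_mul_of_nonneg_left hn.le hr.le)).trans hrrM
    obtain ⟨k, hk, hkmin⟩ : ∃ k : ℕ, Hb L (r * c ^ (k + 1)) (by positivity) ≤ M ∧
        ¬ Hb L (r * c ^ k) (by positivity) ≤ M := by
      have h1 := Nat.find_spec hex2
      have h2 := fun m => Nat.find_min hex2 (m := m)
      have h3 : Nat.find hex2 ≠ 0 := by
        intro h0
        rw [h0] at h1
        apply hrM
        simpa using h1
      obtain ⟨i, hi⟩ := Nat.exists_eq_succ_of_ne_zero h3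
      refine ⟨i, ?_, ?_⟩
      · have : i + 1 = Nat.find hex2 := by omega
        simpa only [this] using h1
      · exact h2 _ (by omega)
    have hrc : r * c ^ k ≤ r := by
      have : c ^ k ≤ 1 := pow_le_one₀ hc.le hc1.le
      nlinarith
    have hrc0 : 0 ≤ r * c ^ k := by positivity
    obtain ⟨x', hx', m, hm, hxm⟩ := hM.sup ((Hb_le_Hs hrc0).trans Hs_le_G)
      (fun g hg x hx => Hb_normal hrc0 hg hx) hkmin (g := x) (hx.1.1)
    have hx'r : x' ∈ Hb L r hr.le := Hb_mono hrc0 hrc hx'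
    have hmr : m ∈ Hb L r hr.le := by
      have : m = x'⁻¹ * x := by rw [hxm]; group
      rw [this]
      exact (Hb L r hr.le).mul_mem ((Hb L r hr.le).inv_mem hx'r) hx
    have h1 : g * x' * g⁻¹ * x'⁻¹ ∈ M := by
      apply hk
      have h2 := Hb_comm hc.le hrc0 hgc hx'
      have h3 : c * (r * c ^ k) = r * c ^ (k + 1) := by ring
      simpa only [h3] using h2
    have h2 : g * m * g⁻¹ * m⁻¹ ∈ M := M.mul_mem (hNn g hg.1 m hm hmr) (M.inv_mem hm)
    have h2r : g * m * g⁻¹ * m⁻¹ ∈ Hb L r hr.le :=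
      (Hb L r hr.le).mul_mem (Hb_normal hr.le hg.1 hmr) ((Hb L r hr.le).inv_mem hmr)
    have h3 : x' * (g * m * g⁻¹ * m⁻¹) * x'⁻¹ ∈ M := hNn x' hx'r.1.1 _ h2 h2r
    have h4 : g * x * g⁻¹ * x⁻¹ = (g * x' * g⁻¹ * x'⁻¹) * (x' * (g * m * g⁻¹ * m⁻¹) * x'⁻¹) := by
      rw [hxm]; group
    rw [h4]
    exact M.mul_mem h1 h3
  have hGr : ∀ g ∈ G L, ∀ x ∈ Hb L r hr.le, g * x * g⁻¹ * x⁻¹ ∈ M := by
    intro g hg x hx
    obtain ⟨n, hn⟩ := hg.2.2
    obtain ⟨m, hm⟩ := hx.1.2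
    obtain ⟨g', D, c, rfl, hg', hg'f, hD, -, hc1⟩ := decomp hg (hn.mono (le_max_left n m))
    have hxD : EvD (max n m) x := fun k hk => ⟨1, by
      rw [hm k ((le_max_right _ _).trans hk), one_smul]⟩
    have hcomm := diag_commute hx.1.1.1 hxD hD hc1
    have h1 : g' * D * x * (g' * D)⁻¹ * x⁻¹ = g' * (D * x) * D⁻¹ * g'⁻¹ * x⁻¹ := by group
    rw [h1, hcomm]
    have h2 : g' * (x * D) * D⁻¹ * g'⁻¹ * x⁻¹ = g' * x * g'⁻¹ * x⁻¹ := by group
    rw [h2]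
    exact hHr g' ⟨hg', _, hg'f⟩ x hx
  have hsup : ∀ g ∈ G L, ∃ x ∈ Hb L r hr.le, ∃ m ∈ M, g = x * m := fun g hg =>
    hM.sup ((Hb_le_Hs hr.le).trans Hs_le_G) (fun g hg x hx => Hb_normal hr.le hg hx) hrM hg
  have hnorm : ∀ g ∈ G L, ∀ n ∈ M, g * n * g⁻¹ ∈ M := by
    intro g hg n hn
    obtain ⟨x, hx, m, hm, rfl⟩ := hsup g hg
    have h1 : m * n * m⁻¹ ∈ M := M.mul_mem (M.mul_mem hm hn) (M.inv_mem hm)
    have h2 := M.inv_mem (hGr _ (hM.le h1) x hx)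
    have h3 : x * m * n * (x * m)⁻¹
        = (m * n * m⁻¹ * x * (m * n * m⁻¹)⁻¹ * x⁻¹)⁻¹ * (m * n * m⁻¹) := by group
    rw [h3]
    exact M.mul_mem h2 h1
  intro g hg g' hg'
  obtain ⟨x, hx, m, hm, rfl⟩ := hsup g' hg'
  have h1 := hGr g hg x hx
  have h2 : g * m * g⁻¹ * m⁻¹ ∈ M := M.mul_mem (hnorm g hg m hm) (M.inv_mem hm)
  have h3 := hnorm x hx.1.1 _ h2
  have h4 : g * (x * m) * g⁻¹ * (x * m)⁻¹
      = (g * x * g⁻¹ * x⁻¹) * (x * (g * m * g⁻¹ * m⁻¹) * x⁻¹) := by group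
  rw [h4]
  exact M.mul_mem h1 h3

end grp

end Pool.Agent.NoMax
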