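import Pool.Agent.Lib.MP_e2b313_al.Form

namespace Pool.Agent.NoMax

section hyp

theorem hc_split (x y : ℕ →₀ ℂ) (s : Finset ℕ) (hs : x.support ⊆ insert 0 s) (h0 : 0 ∉ s) :
    h x y = -(x 0 * star (y 0)) + ∑ k ∈ s, x k * star (y k) := by
  rw [h_eq_sum x y (insert 0 s) hs, Finset.sum_insert h0]
  congr 1
  · simp [sg]
  · apply Finset.sum_congr rfl
    intro k hk
    have : k ≠ 0 := by rintro rfl; exact h0 hk
    rw [sg_pos (by omega), one_mul]

theorem psd {u o : ℕ →₀ ℂ} (ho : h o o = -1) (huo : h u o = 0) : 0 ≤ (h u u).re := by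
  classical
  set s : Finset ℕ := (u.support ∪ o.support).erase 0 with hs
  have h0 : 0 ∉ s := Finset.notMem_erase _ _
  have hsub : u.support ∪ o.support ⊆ insert 0 s := by
    intro k hk
    by_cases hk0 : k = 0
    · exact Finset.mem_insert.2 (Or.inl hk0)
    · exact Finset.mem_insert_of_mem (Finset.mem_erase.2 ⟨hk0, hk⟩)
  have hsu := Finset.union_subset_left hsub
  have hso := Finset.union_subset_right hsub
  have hself : ∀ x : ℕ →₀ ℂ, x.support ⊆ insert 0 s →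
      (h x x).re = - ‖x 0‖ ^ 2 + ∑ k ∈ s, ‖x k‖ ^ 2 := by
    intro x hx
    have hz : ∀ z : ℂ, z * star z = ((‖z‖ ^ 2 : ℝ) : ℂ) := by
      intro z
      rw [← Complex.normSq_eq_norm_sq]
      exact Complex.mul_conj z
    rw [hc_split x x s hx h0, hz]
    simp only [hz]
    rw [← Complex.ofReal_sum, ← Complex.ofReal_neg, ← Complex.ofReal_add, Complex.ofReal_re]
  have h1 := hself u hsu
  have h2 := hself o hso
  rw [ho] at h2
  simp at h2
  set A := ∑ k ∈ s, ‖u k‖ ^ 2 with hA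
  set B := ∑ k ∈ s, ‖o k‖ ^ 2 with hB
  have hA0 : 0 ≤ A := Finset.sum_nonneg fun i _ => by positivity
  have hB0 : 0 ≤ B := Finset.sum_nonneg fun i _ => by positivity
  have h3 : u 0 * star (o 0) = ∑ k ∈ s, u k * star (o k) := by
    have := hc_split u o s hsu h0
    rw [huo] at this
    linear_combination this
  have h4 : ‖u 0‖ * ‖o 0‖ ≤ ∑ k ∈ s, ‖u k‖ * ‖o k‖ := by
    have h5 := congrArg norm h3
    rw [norm_mul, norm_star] at h5
    rw [h5]
    refine (norm_sum_le _ _).trans (le_of_eq ?_)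
    apply Finset.sum_congr rfl
    intro k _
    rw [norm_mul, norm_star]
  have h5 : (∑ k ∈ s, ‖u k‖ * ‖o k‖) ^ 2 ≤ A * B := Finset.sum_mul_sq_le_sq_mul_sq _ _ _
  have h6 : (‖u 0‖ * ‖o 0‖) ^ 2 ≤ A * B :=
    (pow_le_pow_left₀ (by positivity) h4 2).trans h5
  rw [h1]
  have h7 : ‖o 0‖ ^ 2 = B + 1 := by linarith
  have h8 : ‖u 0‖ ^ 2 * (B + 1) ≤ A * B := by rw [← h7]; nlinarith
  by_contra hcon
  push Not at hcon
  nlinarith

theorem cs {o : ℕ →₀ ℂ} (ho : h o o = -1) {u v : ℕ →₀ ℂ} (hu : h u o = 0) (hv : h v o = 0) :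
    ‖h u v‖ ^ 2 ≤ (h u u).re * (h v v).re := by
  have ha := psd ho hu
  have hb := psd ho hv
  have key : ∀ t : ℝ, 0 ≤ (h u u).re - 2 * t * ‖h u v‖ ^ 2 + t ^ 2 * ‖h u v‖ ^ 2 * (h v v).re := by
    intro t
    have h1 : h (u + (-(t : ℂ) * h u v) • v) o = 0 := by
      rw [h_add_left, h_smul_left, hu, hv]; simp
    have h2 := psd ho h1
    have h3 : h (u + (-(t : ℂ) * h u v) • v) (u + (-(t : ℂ) * h u v) • v)
        = h u u + ((- 2 * t * ‖h u v‖ ^ 2 : ℝ) : ℂ) + ((t ^ 2 * ‖h u v‖ ^ 2 : ℝ) : ℂ) * h v v := by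
      rw [h_add_left, h_add_right, h_add_right, h_smul_left, h_smul_right, h_smul_left,
        h_smul_right, ← star_h u v]
      have h4 : h u v * star (h u v) = ((‖h u v‖ ^ 2 : ℝ) : ℂ) := by
        rw [← Complex.normSq_eq_norm_sq]; exact Complex.mul_conj _
      have h5 : star (-(t : ℂ) * h u v) = -(t : ℂ) * star (h u v) := by
        rw [star_mul', star_neg]
        congr 1
        simp
      rw [h5]
      push_cast
      push_cast at h4
      linear_combination (-2 * (t : ℂ) + (t : ℂ) ^ 2 * h v v) * h4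
    rw [h3] at h2
    simp only [Complex.add_re, Complex.ofReal_re, Complex.mul_re, Complex.ofReal_im, zero_mul,
      sub_zero] at h2
    linarith
  set z := ‖h u v‖ ^ 2 with hz
  have hz0 : 0 ≤ z := by positivity
  set a := (h u u).re
  set b := (h v v).re
  rcases eq_or_lt_of_le hb with hb0 | hb0
  · rw [← hb0, mul_zero]
    by_contra hcon
    push Not at hcon
    have h1 := key ((a + 1) / (2 * z))
    rw [← hb0, mul_zero, add_zero] at h1
    have h2 : 2 * ((a + 1) / (2 * z)) * z = a + 1 := by field_simp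
    rw [h2] at h1
    linarith
  · have h1 := key (1 / b)
    have h2 : a - 2 * (1 / b) * z + (1 / b) ^ 2 * z * b = a - z / b := by field_simp; ring
    rw [h2] at h1
    have h3 : z / b ≤ a := by linarith
    rwa [div_le_iff₀ hb0] at h3

theorem h_proj {x y : ℕ →₀ ℂ} (hy : h y y = -1) : h (x + h x y • y) y = 0 := by
  rw [h_add_left, h_smul_left, hy]; ring

theorem h_proj2 {x y z : ℕ →₀ ℂ} (hy : h y y = -1) :
    h (x + h x y • y) (z + h z y • y) = h x z + h x y * h y z := by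
  rw [h_add_left, h_add_right, h_add_right, h_smul_left, h_smul_right, h_smul_left, h_smul_right,
    hy, star_h]
  ring

theorem norm_h_comm (x y : ℕ →₀ ℂ) : ‖h x y‖ = ‖h y x‖ := by
  rw [← star_h y x, norm_star]

theorem mul_h_comm (x y : ℕ →₀ ℂ) : h x y * h y x = ((‖h x y‖ ^ 2 : ℝ) : ℂ) := by
  rw [← star_h x y, ← Complex.normSq_eq_norm_sq]
  exact Complex.mul_conj _

theorem h_proj_self {x y : ℕ →₀ ℂ} (hx : h x x = -1) (hy : h y y = -1) :
    (h (x + h x y • y) (x + h x y • y)).re = ‖h x y‖ ^ 2 - 1 := by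
  rw [h_proj2 hy, mul_h_comm, hx, Complex.add_re, Complex.ofReal_re]
  simp
  ring

theorem one_le_norm_h {x y : ℕ →₀ ℂ} (hx : h x x = -1) (hy : h y y = -1) : 1 ≤ ‖h x y‖ := by
  have h1 := psd hy (h_proj (x := x) hy)
  rw [h_proj_self hx hy] at h1
  have h2 := norm_nonneg (h x y)
  nlinarith

theorem star_ineq {x y z : ℕ →₀ ℂ} (hx : h x x = -1) (hy : h y y = -1) (hz : h z z = -1) :
    ‖h x z + h x y * h y z‖ ^ 2 ≤ (‖h x y‖ ^ 2 - 1) * (‖h y z‖ ^ 2 - 1) := by
  have h1 := cs hy (h_proj (x := x) hy) (h_proj (x := z) hy)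
  rw [h_proj2 hy, h_proj_self hx hy, h_proj_self hz hy, norm_h_comm z y] at h1
  exact h1

theorem tri_ineq {x y z : ℕ →₀ ℂ} (hx : h x x = -1) (hy : h y y = -1) (hz : h z z = -1) :
    ‖h x z‖ ≤ Real.cosh (Real.arcosh ‖h x y‖ + Real.arcosh ‖h y z‖) := by
  have h1 := one_le_norm_h hx hy
  have h2 := one_le_norm_h hy hz
  rw [Real.cosh_add, Real.cosh_arcosh h1, Real.cosh_arcosh h2, Real.sinh_arcosh h1,
    Real.sinh_arcosh h2]
  have h3 : ‖h x z‖ ≤ ‖h x z + h x y * h y z‖ + ‖h x y‖ * ‖h y z‖ := by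
    have : h x z = (h x z + h x y * h y z) - h x y * h y z := by ring
    calc ‖h x z‖ = ‖(h x z + h x y * h y z) - h x y * h y z‖ := by rw [← this]
      _ ≤ ‖h x z + h x y * h y z‖ + ‖h x y * h y z‖ := norm_sub_le _ _
      _ = _ := by rw [norm_mul]
  have h4 : ‖h x z + h x y * h y z‖ ≤ √(‖h x y‖ ^ 2 - 1) * √(‖h y z‖ ^ 2 - 1) := by
    rw [← Real.sqrt_mul (by nlinarith)]
    apply Real.le_sqrt_of_sq_le
    exact star_ineq hx hy hz
  linarith

/-- points of the hyperboloid -/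
def HX : Type := {x : ℕ →₀ ℂ // h x x = -1}

noncomputable instance : PseudoMetricSpace HX where
  dist x y := Real.arcosh ‖h x.1 y.1‖
  dist_self x := by rw [x.2]; simp
  dist_comm x y := by rw [norm_h_comm]
  dist_triangle x y z := by
    have h1 := one_le_norm_h x.2 y.2
    have h2 := one_le_norm_h y.2 z.2
    have h3 := one_le_norm_h x.2 z.2
    have h4 := tri_ineq x.2 y.2 z.2
    have h5 := add_nonneg (Real.arcosh_nonneg h1) (Real.arcosh_nonneg h2)
    rw [← Real.arcosh_cosh h5]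
    exact (Real.arcosh_le_arcosh (by linarith) (by positivity)).2 h4

theorem dist_HX (x y : HX) : dist x y = Real.arcosh ‖h x.1 y.1‖ := rfl
theorem cosh_dist (x y : HX) : Real.cosh (dist x y) = ‖h x.1 y.1‖ := by
  rw [dist_HX, Real.cosh_arcosh (one_le_norm_h x.2 y.2)]

/-- the hyperbolic space -/
abbrev HS : Type := SeparationQuotient HX

/-- Geodesics. -/
theorem HS_geodesic (x y : HS) : ∃ γ : ℝ → HS, γ 0 = x ∧ γ (dist x y) = y ∧
    ∀ s ∈ Set.Icc (0:ℝ) (dist x y), ∀ t ∈ Set.Icc (0:ℝ) (dist x y),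
      dist (γ s) (γ t) = |s - t| := by
  obtain ⟨x, rfl⟩ := SeparationQuotient.surjective_mk x
  obtain ⟨y, rfl⟩ := SeparationQuotient.surjective_mk y
  rw [SeparationQuotient.dist_mk]
  set ℓ := dist x y with hℓ
  have hℓ0 : 0 ≤ ℓ := dist_nonneg
  rcases eq_or_lt_of_le hℓ0 with h0 | hpos
  · refine ⟨fun _ => SeparationQuotient.mk x, rfl, ?_, ?_⟩
    · rw [SeparationQuotient.mk_eq_mk, Metric.inseparable_iff]
      exact h0.symm
    · intro s hs t ht
      rw [← h0] at hs ht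
      have hs0 : s = 0 := le_antisymm hs.2 hs.1
      have ht0 : t = 0 := le_antisymm ht.2 ht.1
      rw [hs0, ht0]; simp
  · have hcosh : Real.cosh ℓ = ‖h x.1 y.1‖ := cosh_dist x y
    have hc0 : h x.1 y.1 ≠ 0 := by
      intro h1
      rw [h1, norm_zero] at hcosh
      exact (Real.cosh_pos ℓ).ne' hcosh
    have hsinh : 0 < Real.sinh ℓ := Real.sinh_pos_iff.2 hpos
    -- adjust the phase of y
    set c := h x.1 y.1 with hc
    have hcs : star c ≠ 0 := star_ne_zero.2 hc0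
    obtain ⟨u, hu⟩ : ∃ u : ℂ, u = -(Real.cosh ℓ : ℂ) / star c := ⟨_, rfl⟩
    have hcc : c * star c = (Real.cosh ℓ : ℂ) ^ 2 := by
      have : c * star c = ((‖c‖ ^ 2 : ℝ) : ℂ) := by
        rw [← Complex.normSq_eq_norm_sq]; exact Complex.mul_conj _
      rw [this, ← hcosh]; push_cast; ring
    have hcoshC : (Real.cosh ℓ : ℂ) ≠ 0 := by exact_mod_cast (Real.cosh_pos ℓ).ne'
    have hsinhC : (Real.sinh ℓ : ℂ) ≠ 0 := by exact_mod_cast hsinh.ne'
    have hstarcosh : star (Real.cosh ℓ : ℂ) = (Real.cosh ℓ : ℂ) := Complex.conj_ofReal _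
    have hus : star u = -(Real.cosh ℓ : ℂ) / c := by
      rw [hu, star_div₀, star_neg, star_star, hstarcosh]
    have huu : u * star u = 1 := by
      rw [hus, hu]
      field_simp
      rw [mul_comm] at hcc
      linear_combination -hcc
    have hy' : h (u • y.1) (u • y.1) = -1 := by
      rw [h_smul_left, h_smul_right, y.2]; linear_combination -huu
    have hxy' : h x.1 (u • y.1) = -(Real.cosh ℓ : ℂ) := by
      rw [h_smul_right, hus, ← hc]; field_simp
    have hy'x : h (u • y.1) x.1 = -(Real.cosh ℓ : ℂ) := by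
      rw [← star_h, hxy', star_neg, hstarcosh]
    have hid : (Real.cosh ℓ : ℂ) ^ 2 = (Real.sinh ℓ : ℂ) ^ 2 + 1 := by
      have := Real.cosh_sq ℓ
      exact_mod_cast this
    obtain ⟨n, hn⟩ : ∃ n : ℕ →₀ ℂ, n = ((Real.sinh ℓ : ℂ)⁻¹) • (u • y.1 - (Real.cosh ℓ : ℂ) • x.1) :=
      ⟨_, rfl⟩
    have hstarsinh : star ((Real.sinh ℓ : ℂ)⁻¹) = (Real.sinh ℓ : ℂ)⁻¹ := by
      rw [star_inv₀]; congr 1; exact Complex.conj_ofReal _
    have hnx : h n x.1 = 0 := by
      rw [hn, h_smul_left, h_sub_left, hy'x, h_smul_left, x.2]; ring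
    have hxn : h x.1 n = 0 := by rw [← star_h, hnx, star_zero]
    have hnn : h n n = 1 := by
      have e1 : h (u • y.1) ((Real.cosh ℓ : ℂ) • x.1) = (Real.cosh ℓ : ℂ) * -(Real.cosh ℓ : ℂ) := by
        rw [h_smul_right, hy'x, hstarcosh]
      have e2 : h ((Real.cosh ℓ : ℂ) • x.1) (u • y.1) = (Real.cosh ℓ : ℂ) * -(Real.cosh ℓ : ℂ) := by
        rw [h_smul_left, hxy']
      have e3 : h ((Real.cosh ℓ : ℂ) • x.1) ((Real.cosh ℓ : ℂ) • x.1)
          = (Real.cosh ℓ : ℂ) * ((Real.cosh ℓ : ℂ) * -1) := by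
        rw [h_smul_left, h_smul_right, x.2, hstarcosh]
      rw [hn, h_smul_left, h_smul_right, h_sub_left, h_sub_right, h_sub_right, hy', e1, e2, e3,
        hstarsinh]
      field_simp
      linear_combination hid
    have hform : ∀ s t : ℝ, h ((Real.cosh s : ℂ) • x.1 + (Real.sinh s : ℂ) • n)
        ((Real.cosh t : ℂ) • x.1 + (Real.sinh t : ℂ) • n) = -(Real.cosh (s - t) : ℂ) := by
      intro s t
      have h1 : star (Real.cosh t : ℂ) = (Real.cosh t : ℂ) := Complex.conj_ofReal _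
      have h2 : star (Real.sinh t : ℂ) = (Real.sinh t : ℂ) := Complex.conj_ofReal _
      rw [h_add_left, h_add_right, h_add_right, h_smul_left, h_smul_right, h_smul_left,
        h_smul_right, h_smul_left, h_smul_right, h_smul_left, h_smul_right, x.2, hxn, hnx, hnn,
        h1, h2, Real.cosh_sub]
      push_cast
      ring
    let γ : ℝ → HX := fun t => ⟨(Real.cosh t : ℂ) • x.1 + (Real.sinh t : ℂ) • n, by
      rw [hform t t, sub_self, Real.cosh_zero]; simp⟩
    refine ⟨fun t => SeparationQuotient.mk (γ t), ?_, ?_, ?_⟩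
    · refine congrArg SeparationQuotient.mk (Subtype.ext ?_)
      change (Real.cosh 0 : ℂ) • x.1 + (Real.sinh 0 : ℂ) • n = x.1
      rw [Real.cosh_zero, Real.sinh_zero]; simp
    · rw [SeparationQuotient.mk_eq_mk, Metric.inseparable_iff, dist_HX]
      have h1 : (γ ℓ).1 = u • y.1 := by
        change (Real.cosh ℓ : ℂ) • x.1 + (Real.sinh ℓ : ℂ) • n = u • y.1
        rw [hn, smul_smul, mul_inv_cancel₀ hsinhC, one_smul]; abel
      rw [h1, h_smul_left, y.2]
      have h2 : ‖u‖ = 1 := by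
        have h3 := congrArg norm huu
        rw [norm_mul, norm_star, norm_one] at h3
        nlinarith [norm_nonneg u]
      rw [norm_mul, h2]; simp
    · intro s _ t _
      rw [SeparationQuotient.dist_mk, dist_HX]
      change Real.arcosh ‖h ((Real.cosh s : ℂ) • x.1 + (Real.sinh s : ℂ) • n)
        ((Real.cosh t : ℂ) • x.1 + (Real.sinh t : ℂ) • n)‖ = |s - t|
      rw [hform, norm_neg, Complex.norm_real, Real.norm_eq_abs, abs_of_pos (Real.cosh_pos _),
        ← Real.cosh_abs, Real.arcosh_cosh (abs_nonneg _)]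

theorem D_ineq {w : ℕ →₀ ℂ} (hw : h w w = -1) {ξ η ζ : ℕ →₀ ℂ} (h1 : h ξ w = 0) (h2 : h η w = 0)
    (h3 : h ζ w = 0) (hξ : (h ξ ξ).re ≤ 1) (hη : (h η η).re ≤ 1) (hζ : (h ζ ζ).re ≤ 1) :
    ‖1 - h ξ ζ‖ ≤ 2 * ‖1 - h ξ η‖ + 4 * ‖1 - h η ζ‖ := by
  have hξ0 := psd hw h1
  have hη0 := psd hw h2
  have hζ0 := psd hw h3
  have hηre : h η η = ((h η η).re : ℂ) := by
    have := star_h_self η
    exact (Complex.conj_eq_iff_re.1 this).symm
  -- the decomposition
  have e1 : 1 - h ξ ζ = (1 - h ξ η) + h η (η - ζ) + h (ξ - η) (η - ζ) := by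
    rw [h_sub_left, h_sub_right, h_sub_right]; ring
  have b1 : (1 - (h η η).re) ≤ 2 * ‖1 - h η ζ‖ := by
    have h4 := cs hw h2 h3
    have h5 : ‖h η ζ‖ ^ 2 ≤ (h η η).re := by nlinarith
    have h6 : 1 - ‖h η ζ‖ ≤ ‖1 - h η ζ‖ := by
      have := norm_sub_norm_le (1 : ℂ) (h η ζ)
      rwa [norm_one] at this
    have h7 := norm_nonneg (h η ζ)
    nlinarith [norm_nonneg (1 - h η ζ)]
  have b2 : ‖h η (η - ζ)‖ ≤ 3 * ‖1 - h η ζ‖ := by
    have h4 : h η (η - ζ) = (1 - h η ζ) - (1 - h η η) := by rw [h_sub_right]; ring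
    rw [h4]
    refine (norm_sub_le _ _).trans ?_
    have h5 : ‖1 - h η η‖ = 1 - (h η η).re := by
      rw [hηre]
      rw [← Complex.ofReal_one, ← Complex.ofReal_sub, Complex.norm_real, Complex.ofReal_re,
        Real.norm_eq_abs, abs_of_nonneg (by linarith)]
    rw [h5]; linarith
  have b3 : ∀ a b : ℕ →₀ ℂ, (h a a).re ≤ 1 → (h b b).re ≤ 1 →
      (h (a - b) (a - b)).re ≤ 2 * ‖1 - h a b‖ := by
    intro a b ha hb
    have h4 : (h (a - b) (a - b)).re = (h a a).re + (h b b).re - 2 * (h a b).re := by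
      rw [h_sub_left, h_sub_right, h_sub_right, ← star_h a b]
      simp only [Complex.sub_re]
      have : (star (h a b)).re = (h a b).re := rfl
      rw [this]; ring
    have h5 : 1 - (h a b).re ≤ ‖1 - h a b‖ := by
      have := Complex.re_le_norm (1 - h a b)
      simpa using this
    linarith
  have b4 : ‖h (ξ - η) (η - ζ)‖ ≤ ‖1 - h ξ η‖ + ‖1 - h η ζ‖ := by
    have h4 := cs hw (u := ξ - η) (v := η - ζ) (by rw [h_sub_left, h1, h2]; ring)
      (by rw [h_sub_left, h2, h3]; ring)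
    have h5 := b3 ξ η hξ hη
    have h6 := b3 η ζ hη hζ
    have h7 := psd hw (u := ξ - η) (by rw [h_sub_left, h1, h2]; ring)
    have h8 := psd hw (u := η - ζ) (by rw [h_sub_left, h2, h3]; ring)
    have h9 : ‖h (ξ - η) (η - ζ)‖ ^ 2 ≤ (‖1 - h ξ η‖ + ‖1 - h η ζ‖) ^ 2 := by
      have h10 := mul_le_mul h5 h6 h8 (by positivity)
      nlinarith [sq_nonneg (‖1 - h ξ η‖ - ‖1 - h η ζ‖)]
    exact le_of_sq_le_sq h9 (by positivity)
  rw [e1]
  calc ‖(1 - h ξ η) + h η (η - ζ) + h (ξ - η) (η - ζ)‖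
      ≤ ‖(1 - h ξ η) + h η (η - ζ)‖ + ‖h (ξ - η) (η - ζ)‖ := norm_add_le _ _
    _ ≤ ‖1 - h ξ η‖ + ‖h η (η - ζ)‖ + ‖h (ξ - η) (η - ζ)‖ := by
        gcongr; exact norm_add_le _ _
    _ ≤ 2 * ‖1 - h ξ η‖ + 4 * ‖1 - h η ζ‖ := by linarith

theorem main_ineq {w x y z : ℕ →₀ ℂ} (hw : h w w = -1) (hx : h x x = -1) (hy : h y y = -1)
    (hz : h z z = -1) :
    ‖h x z‖ * ‖h y w‖ ≤ 2 * (‖h x y‖ * ‖h z w‖) + 4 * (‖h y z‖ * ‖h x w‖) := by
  have hx1 := one_le_norm_h hx hw
  have hy1 := one_le_norm_h hy hw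
  have hz1 := one_le_norm_h hz hw
  have ne : ∀ {a : ℕ →₀ ℂ}, 1 ≤ ‖h a w‖ → h a w ≠ 0 := by
    intro a ha h0
    rw [h0, norm_zero] at ha
    linarith
  have hx0 := ne hx1
  have hy0 := ne hy1
  have hz0 := ne hz1
  have hp : ∀ a : ℕ →₀ ℂ, h (((h a w)⁻¹) • (a + h a w • w)) w = 0 := by
    intro a; rw [h_smul_left, h_proj hw, mul_zero]
  have hn : ∀ a : ℕ →₀ ℂ, h a a = -1 → 1 ≤ ‖h a w‖ →
      (h (((h a w)⁻¹) • (a + h a w • w)) (((h a w)⁻¹) • (a + h a w • w))).re ≤ 1 := by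
    intro a ha ha1
    rw [h_smul_left, h_smul_right, h_proj2 hw, mul_h_comm, ha]
    have h1 : (h a w)⁻¹ * (star (h a w)⁻¹ * (-1 + ((‖h a w‖ ^ 2 : ℝ) : ℂ)))
        = (((‖h a w‖ ^ 2)⁻¹ * (-1 + ‖h a w‖ ^ 2) : ℝ) : ℂ) := by
      have h2 : h a w * star (h a w) = ((‖h a w‖ ^ 2 : ℝ) : ℂ) := by
        rw [← Complex.normSq_eq_norm_sq]; exact Complex.mul_conj _
      rw [star_inv₀, ← mul_assoc, ← mul_inv, h2]
      push_cast
      ring
    rw [h1, Complex.ofReal_re]
    rw [inv_mul_le_iff₀ (by positivity)]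
    linarith
  have hD : ∀ a b : ℕ →₀ ℂ, h a w ≠ 0 → h b w ≠ 0 →
      ‖1 - h (((h a w)⁻¹) • (a + h a w • w)) (((h b w)⁻¹) • (b + h b w • w))‖
        = ‖h a b‖ / (‖h a w‖ * ‖h b w‖) := by
    intro a b ha hb
    have h1 : 1 - h (((h a w)⁻¹) • (a + h a w • w)) (((h b w)⁻¹) • (b + h b w • w))
        = - (h a b / (h a w * star (h b w))) := by
      rw [h_smul_left, h_smul_right, h_proj2 hw, star_inv₀, ← star_h b w]
      have := star_ne_zero.2 hb
      field_simp
      ring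
    rw [h1, norm_neg, norm_div, norm_mul, norm_star]
  have key := D_ineq hw (hp x) (hp y) (hp z) (hn x hx hx1) (hn y hy hy1) (hn z hz hz1)
  rw [hD x z hx0 hz0, hD x y hx0 hy0, hD y z hy0 hz0] at key
  have hX : 0 < ‖h x w‖ := by linarith
  have hY : 0 < ‖h y w‖ := by linarith
  have hZ : 0 < ‖h z w‖ := by linarith
  rw [div_le_iff₀ (by positivity)] at key
  have h5 : (2 * (‖h x y‖ / (‖h x w‖ * ‖h y w‖)) + 4 * (‖h y z‖ / (‖h y w‖ * ‖h z w‖))) *
      (‖h x w‖ * ‖h z w‖) * ‖h y w‖ = 2 * (‖h x y‖ * ‖h z w‖) + 4 * (‖h y z‖ * ‖h x w‖) := by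
    field_simp
  rw [← h5]
  exact mul_le_mul_of_nonneg_right key hY.le

theorem HX_hyp (x y z w : HX) :
    min ((dist w x + dist w y - dist x y) / 2) ((dist w y + dist w z - dist y z) / 2)
      - Real.log 48 ≤ (dist w x + dist w z - dist x z) / 2 := by
  have key := main_ineq w.2 x.2 y.2 z.2
  rw [← cosh_dist x z, ← cosh_dist y w, ← cosh_dist x y, ← cosh_dist z w, ← cosh_dist y z,
    ← cosh_dist x w] at key
  rw [dist_comm y w, dist_comm z w, dist_comm x w] at key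
  set a := dist w x
  set b := dist w y
  set c := dist w z
  set p := dist x y
  set q := dist y z
  set r := dist x z
  have hr0 : 0 ≤ r := dist_nonneg
  have hb0 : 0 ≤ b := dist_nonneg
  have lo : ∀ t : ℝ, Real.exp t / 2 ≤ Real.cosh t := by
    intro t
    rw [Real.cosh_eq]
    have := Real.exp_pos (-t)
    linarith
  have hi : ∀ t : ℝ, 0 ≤ t → Real.cosh t ≤ Real.exp t := by
    intro t ht
    rw [Real.cosh_eq]
    have : Real.exp (-t) ≤ Real.exp t := Real.exp_le_exp.2 (by linarith)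
    linarith
  have h1 : Real.exp r / 2 * (Real.exp b / 2) ≤ Real.cosh r * Real.cosh b :=
    mul_le_mul (lo r) (lo b) (by positivity) (by positivity)
  have h2 : Real.cosh p * Real.cosh c ≤ Real.exp p * Real.exp c :=
    mul_le_mul (hi p dist_nonneg) (hi c dist_nonneg) (by positivity) (by positivity)
  have h3 : Real.cosh q * Real.cosh a ≤ Real.exp q * Real.exp a :=
    mul_le_mul (hi q dist_nonneg) (hi a dist_nonneg) (by positivity) (by positivity)
  set m := min ((a + b - p) / 2) ((b + c - q) / 2) with hm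
  have hm1 : m ≤ (a + b - p) / 2 := min_le_left _ _
  have hm2 : m ≤ (b + c - q) / 2 := min_le_right _ _
  have h4 : Real.exp p * Real.exp c ≤ Real.exp (a + b + c - 2 * m) := by
    rw [← Real.exp_add]; apply Real.exp_le_exp.2; linarith
  have h5 : Real.exp q * Real.exp a ≤ Real.exp (a + b + c - 2 * m) := by
    rw [← Real.exp_add]; apply Real.exp_le_exp.2; linarith
  have h6 : Real.exp (r + b) ≤ 24 * Real.exp (a + b + c - 2 * m) := by
    rw [Real.exp_add]
    nlinarith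
  have h7 : Real.exp (r + b) ≤ Real.exp (Real.log 48 + (a + b + c - 2 * m)) := by
    rw [Real.exp_add (Real.log 48), Real.exp_log (by norm_num)]
    have := Real.exp_pos (a + b + c - 2 * m)
    linarith
  have h8 := Real.exp_le_exp.1 h7
  have h9 : 0 ≤ Real.log 48 := Real.log_nonneg (by norm_num)
  linarith

theorem HS_hyp (x y z w : HS) :
    min ((dist w x + dist w y - dist x y) / 2) ((dist w y + dist w z - dist y z) / 2)
      - Real.log 48 ≤ (dist w x + dist w z - dist x z) / 2 := by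
  obtain ⟨x, rfl⟩ := SeparationQuotient.surjective_mk x
  obtain ⟨y, rfl⟩ := SeparationQuotient.surjective_mk y
  obtain ⟨z, rfl⟩ := SeparationQuotient.surjective_mk z
  obtain ⟨w, rfl⟩ := SeparationQuotient.surjective_mk w
  simp only [SeparationQuotient.dist_mk]
  exact HX_hyp x y z w

end hyp

end Pool.Agent.NoMax
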