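import Pool.Agent.Lib.MP_e2b313_al.Plane

namespace Pool.Agent.NoMax

section lemz

variable {L : Type} [Field L] [StarRing L] [FD L]

/-- plane context -/
structure PC (M : Subgroup (GLV L)) (p q : ℕ →₀ L) (r : L) : Prop where
  pq : h p q = 0
  P0 : h p p ≠ 0
  hr : r = h q q / h p p
  sr : Sm r
  Mp : RM M p
  Mpq : RM M (p + q)

theorem PC.star_r {M : Subgroup (GLV L)} {p q : ℕ →₀ L} {r : L} (H : PC M p q r) : star r = r := by
  rw [H.hr, star_div₀, star_h_self, star_h_self]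

theorem PC.im_real {M : Subgroup (GLV L)} {p q : ℕ →₀ L} {r : L} (H : PC M p q r) {κ : L}
    (hκ : star κ = κ) (hκs : Sm κ) (hsz : re κ * re κ * (1 + |re r|) ^ 2 < 4) :
    ZZ M p q r (im L * κ) := by
  have hstar := H.star_r
  have hd : star (κ * (1 - r) * 2⁻¹) = κ * (1 - r) * 2⁻¹ := by simp [hκ, hstar]
  have h2r : re ((2 : L)⁻¹) = 2⁻¹ := by
    rw [re_inv (by simp), show (2 : L) = ((2 : ℕ) : L) by norm_num, re_natCast]; norm_num
  have hred : re (κ * (1 - r) * 2⁻¹) = re κ * (1 - re r) * 2⁻¹ := by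
    rw [mul_assoc, re_mul hκ, re_mul (by simp [hstar]), re_sub, re_one, h2r]; ring
  have hpos : 0 < re (1 - (κ * (1 - r) * 2⁻¹) * (κ * (1 - r) * 2⁻¹)) := by
    rw [re_sub, re_mul hd, hred, re_one]
    have h1 : (1 - re r) ^ 2 ≤ (1 + |re r|) ^ 2 := by
      apply sq_le_sq'
      · have := le_abs_self (re r); have := abs_nonneg (re r); linarith
      · have := neg_abs_le (re r); linarith
    have h3 : re κ * re κ * (1 - re r) ^ 2 ≤ re κ * re κ * (1 + |re r|) ^ 2 :=
      mul_le_mul_of_nonneg_left h1 (mul_self_nonneg _)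
    nlinarith
  obtain ⟨y, y', hy, hy', h1, -⟩ := cayley hstar hκ H.sr hκs hpos
  have h3 := H.hr
  subst h3
  have h4 := ZZ.driver H.pq H.P0 H.sr H.Mpq hy
  rw [h1] at h4
  have h5 := ZZ.Ymul H.pq H.Mp hy'.inv h4
  have h6 : y'⁻¹ * (im L * κ * y') = im L * κ := by
    have := hy'.ne
    field_simp
  rwa [h6] at h5

theorem PC.real {M : Subgroup (GLV L)} {p q : ℕ →₀ L} {r : L} (H : PC M p q r) {κ : L}
    (hκ : star κ = κ) (hκs : Sm κ) (hsz : |re κ| * (1 + |re r|) ^ 2 < 1) :
    ZZ M p q r κ := by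
  have hstar := H.star_r
  by_cases hκ0 : κ = 0
  · rw [hκ0]; exact ZZ.zero
  have hre0 : re κ ≠ 0 := by
    intro h0
    apply hκ0
    apply emb_inj
    rw [emb_real hκ, h0]; simp
  -- the sign
  obtain ⟨ε, hε⟩ : ∃ ε : ℤ, (ε = 1 ∨ ε = -1) ∧ 0 < re ((ε : L) * κ) := by
    rcases lt_or_gt_of_ne hre0 with hlt | hgt
    · exact ⟨-1, Or.inr rfl, by push_cast; rw [neg_one_mul, re_neg]; linarith⟩
    · exact ⟨1, Or.inl rfl, by push_cast; rw [one_mul]; exact hgt⟩
  obtain ⟨hε1, hεp⟩ := hε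
  have hεs : star ((ε : L) * κ) = (ε : L) * κ := by simp [hκ]
  have hεε : (ε : L) * ε = 1 := by
    rcases hε1 with h | h <;> simp [h]
  obtain ⟨κ₁, hκ₁, hκκ⟩ := exists_real_sqrt hεs hεp
  have hκ₁s : Sm κ₁ := by
    unfold Sm
    rw [N_real hκ₁]
    by_contra hcon
    push Not at hcon
    have h1 : ν κ₁ * ν κ₁ = ν κ := by
      rw [← ν_mul, hκκ, ν_mul]
      rcases hε1 with h | h <;> simp [h]
    have h3 : ν κ < 1 := by rw [← N_real hκ]; exact hκs
    nlinarith
  have hreκ₁ : re κ₁ * re κ₁ = |re κ| := by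
    rw [← re_mul hκ₁, hκκ]
    rcases hε1 with h | h
    · rw [h] at hεp ⊢
      simp at hεp ⊢
      rw [abs_of_pos hεp]
    · rw [h] at hεp ⊢
      simp [re_neg] at hεp ⊢
      rw [abs_of_neg hεp]
  set C : ℝ := 1 + |re r| with hC
  have hC1 : 1 ≤ C := by have := abs_nonneg (re r); linarith
  have habs : |re κ| < 1 := by
    have : |re κ| * 1 ≤ |re κ| * C ^ 2 :=
      mul_le_mul_of_nonneg_left (by nlinarith) (abs_nonneg _)
    linarith
  have hz2 : ZZ M p q r (im L * (-κ₁)) := by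
    apply H.im_real (by simp [hκ₁]) hκ₁s.neg
    rw [re_neg, neg_mul_neg, hreκ₁]
    linarith
  have hz1' : ZZ M p q r (im L * κ₁) := by
    apply H.im_real hκ₁ hκ₁s
    rw [hreκ₁]
    linarith
  -- inner Cayley
  have hρ : star (r * (κ₁ * κ₁)) = r * (κ₁ * κ₁) := by simp [hstar, hκ₁]
  have hρs : Sm (r * (κ₁ * κ₁)) := H.sr.mul (hκ₁s.bd.mul hκ₁s.bd)
  have hκ' : star (-(ε : L) * κ₁) = -(ε : L) * κ₁ := by simp [hκ₁]
  have hεbd : Bd (-(ε : L)) := by
    rcases hε1 with h | h <;> rw [h] <;> unfold Bd <;> simp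
  have hκ's : Sm (-(ε : L) * κ₁) := hεbd.mul_sm hκ₁s
  have hinner : 0 < re (1 - (-(ε : L) * κ₁ * (1 - r * (κ₁ * κ₁)) * 2⁻¹) *
      (-(ε : L) * κ₁ * (1 - r * (κ₁ * κ₁)) * 2⁻¹)) := by
    have e1 : (-(ε : L) * κ₁ * (1 - r * (κ₁ * κ₁)) * 2⁻¹) * (-(ε : L) * κ₁ * (1 - r * (κ₁ * κ₁)) * 2⁻¹)
        = (κ₁ * (1 - r * (κ₁ * κ₁)) * 2⁻¹) * (κ₁ * (1 - r * (κ₁ * κ₁)) * 2⁻¹) := by
      linear_combination ((κ₁ * (1 - r * (κ₁ * κ₁)) * 2⁻¹) * (κ₁ * (1 - r * (κ₁ * κ₁)) * 2⁻¹)) * hεε
    rw [e1]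
    have hd : star (κ₁ * (1 - r * (κ₁ * κ₁)) * 2⁻¹) = κ₁ * (1 - r * (κ₁ * κ₁)) * 2⁻¹ := by
      simp [hκ₁, hstar]
    have h2r : re ((2 : L)⁻¹) = 2⁻¹ := by
      rw [re_inv (by simp), show (2 : L) = ((2 : ℕ) : L) by norm_num, re_natCast]; norm_num
    have hred : re (κ₁ * (1 - r * (κ₁ * κ₁)) * 2⁻¹) = re κ₁ * (1 - re r * |re κ|) * 2⁻¹ := by
      rw [mul_assoc, re_mul hκ₁, re_mul (by simp [hstar, hκ₁]), re_sub, re_one, h2r,
        re_mul hstar, re_mul hκ₁, hreκ₁]; ring
    rw [re_sub, re_mul hd, hred, re_one]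
    have h1 : (1 - re r * |re κ|) ^ 2 ≤ C ^ 2 := by
      have h3 : abs (re r * abs (re κ)) ≤ |re r| := by
        rw [abs_mul, abs_abs]
        have : |re r| * |re κ| ≤ |re r| * 1 := mul_le_mul_of_nonneg_left habs.le (abs_nonneg _)
        linarith
      have h4 := abs_le.1 h3
      apply sq_le_sq' <;> linarith [abs_nonneg (re r)]
    have h3 : |re κ| * (1 - re r * |re κ|) ^ 2 ≤ |re κ| * C ^ 2 :=
      mul_le_mul_of_nonneg_left h1 (abs_nonneg _)
    have h5 : re κ₁ * (1 - re r * |re κ|) * 2⁻¹ * (re κ₁ * (1 - re r * |re κ|) * 2⁻¹)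
        = |re κ| * (1 - re r * |re κ|) ^ 2 / 4 := by
      rw [← hreκ₁]; ring
    rw [h5]
    linarith
  obtain ⟨x, y', hx, hy', -, hc⟩ := cayley hρ hκ' hρs hκ's hinner
  have hz1 : ZZ M p q r (x * (im L * κ₁)) := ZZ.Ymul H.pq H.Mp hx hz1'
  have hcomp := ZZ.comp H.pq H.Mp hstar H.sr hz1 hz2
  have e1 : (x * (im L * κ₁) + im L * (-κ₁)) / (1 - r * star (x * (im L * κ₁)) * (im L * (-κ₁)))
      = (im L * κ₁) * ((x - 1) / (1 + r * (κ₁ * κ₁) * star x)) := by
    have e2 : 1 - r * star (x * (im L * κ₁)) * (im L * (-κ₁)) = 1 + r * (κ₁ * κ₁) * star x := by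
      rw [star_mul', star_mul', star_im, hκ₁]
      linear_combination (- r * star x * κ₁ * κ₁) * im_mul_im (L := L)
    rw [e2]
    ring
  rw [e1, hc] at hcomp
  have hxy : isY (x * y') := hx.mul hy'
  have hfin := ZZ.Ymul H.pq H.Mp hxy.inv hcomp
  have e3 : (x * y')⁻¹ * (im L * κ₁ * (im L * (-(ε : L) * κ₁) * x * y')) = κ := by
    have h0 := hxy.ne
    have e4 : im L * κ₁ * (im L * (-(ε : L) * κ₁) * x * y') = κ * (x * y') := by
      linear_combination (κ₁ * (-(ε : L)) * κ₁ * x * y') * im_mul_im (L := L)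
        + ((ε : L) * x * y') * hκκ + (κ * x * y') * hεε
    rw [e4, mul_comm κ, ← mul_assoc, inv_mul_cancel₀ h0, one_mul]
  rwa [e3] at hfin

theorem PC.small {M : Subgroup (GLV L)} {p q : ℕ →₀ L} {r : L} (H : PC M p q r) {z : L}
    (hz : Sm z) (hsz : re (z * star z) * (16 * (1 + |re r|) ^ 4) < 1) :
    ZZ M p q r z := by
  have hstar := H.star_r
  set C : ℝ := 1 + |re r| with hC
  have hC1 : 1 ≤ C := by have := abs_nonneg (re r); linarith
  have hRC : |re r| ≤ C := by linarith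
  obtain ⟨a, b, ha, hb, has, hbs, hzab, hna, hnb⟩ := exists_re_im z hz
  set nz : ℝ := re (z * star z) with hnz
  have hnz0 : 0 ≤ nz := re_mul_star_nonneg z
  rw [re_mul ha] at hna
  rw [re_mul hb] at hnb
  have hC2 : 1 ≤ C ^ 2 := one_le_pow₀ hC1
  have hC4 : C ^ 4 = C ^ 2 * C ^ 2 := by ring
  -- a part
  have hA : ZZ M p q r a := by
    apply H.real ha has
    rw [← hC]
    have h1 : (|re a| * C ^ 2) ^ 2 < 1 := by
      rw [mul_pow, sq_abs]
      have : re a ^ 2 ≤ nz := by nlinarith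
      have h3 : re a ^ 2 * (C ^ 2) ^ 2 ≤ nz * (C ^ 2) ^ 2 := mul_le_mul_of_nonneg_right this (by positivity)
      nlinarith [mul_nonneg hnz0 (show (0:ℝ) ≤ C ^ 4 by positivity)]
    have h3 : 0 ≤ |re a| * C ^ 2 := by positivity
    nlinarith
  -- c
  set c : L := 1 + r * a * z with hc
  have hcU : U1 c := ((H.sr.mul has.bd).mul hz.bd).one_add
  have hc0 := hcU.ne
  have hcn : 1 / 4 ≤ re (c * star c) := by
    rw [re_mul_star, Complex.normSq_eq_norm_sq]
    have h1 : emb c = 1 + (re r : ℂ) * (re a : ℂ) * emb z := by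
      rw [hc, map_add, map_one, map_mul, map_mul, emb_real hstar, emb_real ha]
    have h3 : ‖emb z‖ ^ 2 = nz := by rw [hnz, re_mul_star, Complex.normSq_eq_norm_sq]
    have h4 : ‖(re r : ℂ) * (re a : ℂ) * emb z‖ ≤ 1 / 2 := by
      rw [norm_mul, norm_mul, Complex.norm_real, Complex.norm_real, Real.norm_eq_abs,
        Real.norm_eq_abs]
      have h5 : |re a| ≤ ‖emb z‖ := by
        apply abs_le_of_sq_le_sq _ (norm_nonneg _)
        rw [h3]; nlinarith
      have h6 : |re r| * |re a| * ‖emb z‖ ≤ C * nz := by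
        rw [← h3, sq, mul_assoc]
        apply mul_le_mul hRC _ (by positivity) (by linarith)
        exact mul_le_mul_of_nonneg_right h5 (norm_nonneg _)
      have h7 : C * nz ≤ C ^ 4 * nz := by
        apply mul_le_mul_of_nonneg_right _ hnz0
        calc C = C ^ 1 := (pow_one C).symm
          _ ≤ C ^ 4 := pow_le_pow_right₀ hC1 (by norm_num)
      linarith
    have h5 : 1 / 2 ≤ ‖emb c‖ := by
      rw [h1]
      have := norm_sub_norm_le (1 : ℂ) (-((re r : ℂ) * (re a : ℂ) * emb z))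
      rw [norm_neg, sub_neg_eq_add, norm_one] at this
      linarith
    nlinarith
  obtain ⟨s, hs, hss, hsU⟩ := exists_U1_sqrt (a := c * star c) (star_mul_star c) (by linarith)
    (hcU.mul hcU.conj)
  have hs0 := hsU.ne
  have hx : isY (s / c) := by
    refine ⟨?_, hsU.div hcU⟩
    rw [star_div₀, hs]
    have := hcU.conj.ne
    field_simp
    linear_combination hss
  have hB : ZZ M p q r (im L * (b / s)) := by
    apply H.im_real (by rw [star_div₀, hb, hs]) (hbs.div_U1 hsU)
    rw [← hC]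
    have h1 : re (b / s) = re b * (re s)⁻¹ := by rw [div_eq_mul_inv, re_mul hb, re_inv hs]
    have h3 : re s * re s = re (c * star c) := by rw [← re_mul hs, hss]
    have h5 : 1 / 4 ≤ re s * re s := by rw [h3]; exact hcn
    have h6 : re b * (re s)⁻¹ * (re b * (re s)⁻¹) = (re b * re b) / (re s * re s) := by
      rw [div_eq_mul_inv, mul_inv]; ring
    rw [h1, h6]
    have h7 : (re b * re b) / (re s * re s) ≤ nz / (1 / 4) := by
      apply div_le_div₀ hnz0 hnb (by norm_num) h5
    have h8 : (re b * re b) / (re s * re s) * C ^ 2 ≤ nz / (1 / 4) * C ^ 2 :=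
      mul_le_mul_of_nonneg_right h7 (by positivity)
    have h9 : nz * C ^ 2 ≤ nz * C ^ 4 := by
      apply mul_le_mul_of_nonneg_left _ hnz0
      exact pow_le_pow_right₀ hC1 (by norm_num)
    nlinarith
  have hB' := ZZ.Ymul H.pq H.Mp hx hB
  have hw : s / c * (im L * (b / s)) = im L * b / c := by field_simp
  rw [hw] at hB'
  have hcomp := ZZ.comp H.pq H.Mp hstar H.sr hA hB'
  have hden : U1 (1 - r * star a * (im L * b / c)) := by
    apply Sm.one_sub
    exact (H.sr.mul has.conj.bd).mul ((Bd.im.mul_sm hbs).div_U1 hcU).bd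
  have e1 : (a + im L * b / c) / (1 - r * star a * (im L * b / c)) = z := by
    rw [div_eq_iff hden.ne, ha]
    have e2 : im L * b = z - a := by rw [hzab]; ring
    rw [e2]
    field_simp
    rw [hc]
    ring
  rwa [e1] at hcomp

theorem PC.all {M : Subgroup (GLV L)} {p q : ℕ →₀ L} {r : L} (H : PC M p q r) {z : L}
    (hz : Sm z) (hpos : 0 < re (1 + r * (z * star z))) :
    ZZ M p q r z := by
  have hstar := H.star_r
  set C : ℝ := 16 * (1 + |re r|) ^ 4 with hC
  have hCpos : 0 < C := by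
    have := abs_nonneg (re r)
    rw [hC]; positivity
  set nz : ℝ := re (z * star z) with hnz
  have hnz0 : 0 ≤ nz := re_mul_star_nonneg z
  have hpos' : 0 < 1 + re r * nz := by
    rwa [re_add, re_one, re_mul hstar] at hpos
  set μ : ℝ := min 1 (1 + re r * nz) with hμ
  have hμ0 : 0 < μ := lt_min one_pos hpos'
  obtain ⟨m, hm⟩ : ∃ m : ℕ, nz * C / (μ * μ) < 2 ^ m := by
    obtain ⟨m, hm⟩ := pow_unbounded_of_one_lt (nz * C / (μ * μ)) (one_lt_two : (1:ℝ) < 2)
    exact ⟨m, hm⟩
  set n : ℕ := 2 ^ m with hn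
  have hn0 : (n : L) ≠ 0 := by rw [hn]; push_cast; exact pow_ne_zero _ two_ne
  have hninv : N ((n : L)⁻¹) = 1 := by
    rw [hn]; push_cast; rw [← inv_pow, N_pow, N_inv_two, one_pow]
  have hns : star ((n : L)⁻¹) = (n : L)⁻¹ := by simp
  have hnR : (0 : ℝ) < n := by rw [hn]; positivity
  have hren : re ((n : L)⁻¹) = (n : ℝ)⁻¹ := by rw [re_inv (by simp), re_natCast]
  -- induction
  have key : ∀ k : ℕ, k ≤ n → ZZ M p q r ((k : L) * (n : L)⁻¹ * z) := by
    intro k
    induction k with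
    | zero => intro _; simp only [Nat.cast_zero, zero_mul]; exact ZZ.zero
    | succ k ih =>
      intro hk
      have ih' := ih (by omega)
      set t : L := (k : L) * (n : L)⁻¹ with ht
      set t' : L := ((k + 1 : ℕ) : L) * (n : L)⁻¹ with ht'
      have hts : star t = t := by rw [ht]; simp
      have hts' : star t' = t' := by rw [ht']; simp
      have htb : Bd t := by
        rw [ht]; exact Bd.mul (N_natCast k) hninv.le
      have htb' : Bd t' := by
        rw [ht']; exact Bd.mul (N_natCast _) hninv.le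
      have hret : re t = (k : ℝ) / n := by
        rw [ht, re_mul (by simp), re_natCast, hren, div_eq_mul_inv]
      have hret' : re t' = ((k : ℝ) + 1) / n := by
        rw [ht', re_mul (by simp), re_natCast, hren, div_eq_mul_inv]; push_cast; ring
      have hdiff : t' - t = (n : L)⁻¹ := by rw [ht, ht']; push_cast; ring
      set c : L := 1 + r * (t * t') * (z * star z) with hc
      have hcs : star c = c := by
        rw [hc]; simp only [star_add, star_one, star_mul', star_star, hstar, hts, hts']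
        ring
      have hcU : U1 c := by
        apply Sm.one_add
        exact (H.sr.mul (htb.mul htb')).mul (hz.bd.mul hz.conj.bd)
      have hc0 := hcU.ne
      have hrec : μ ≤ re c := by
        have h1 : re c = 1 + re r * (re t * re t') * nz := by
          rw [hc, re_add, re_one, mul_assoc, re_mul hstar, re_mul (by simp [hts, hts']),
            re_mul hts, ← hnz]; ring
        have hkn : (k : ℝ) + 1 ≤ n := by exact_mod_cast hk
        have h3 : 0 ≤ re t * re t' := by rw [hret, hret']; positivity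
        have h4 : re t * re t' ≤ 1 := by
          rw [hret, hret']
          have h5 : (k : ℝ) / n ≤ 1 := by rw [div_le_one hnR]; linarith
          have h6 : ((k : ℝ) + 1) / n ≤ 1 := by rw [div_le_one hnR]; linarith
          have h7 : 0 ≤ (k : ℝ) / n := by positivity
          have h8 : 0 ≤ ((k : ℝ) + 1) / n := by positivity
          nlinarith
        rw [h1]
        set θ := re t * re t' with hθ
        rcases le_total 0 (re r * nz) with h5 | h5
        · refine (min_le_left _ _).trans ?_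
          nlinarith
        · refine (min_le_right _ _).trans ?_
          nlinarith
      set w : L := (n : L)⁻¹ * z / c with hw
      have hws : Sm w := ((show Bd ((n : L)⁻¹) from hninv.le).mul_sm hz).div_U1 hcU
      have hwZ : ZZ M p q r w := by
        apply H.small hws
        rw [← hC]
        have h1 : w * star w = ((n : L)⁻¹ * (n : L)⁻¹) * ((c * c)⁻¹ * (z * star z)) := by
          rw [hw, star_div₀, star_mul', hcs, hns]
          field_simp
        have h3 : re (w * star w) = (n : ℝ)⁻¹ * (n : ℝ)⁻¹ * ((re c * re c)⁻¹ * nz) := by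
          rw [h1, re_mul (by simp), re_mul hns, hren, re_mul (by simp [hcs]), re_inv (by simp [hcs]),
            re_mul hcs, ← hnz]
        rw [h3]
        have h4 : (re c * re c)⁻¹ ≤ (μ * μ)⁻¹ := by
          apply inv_anti₀ (by positivity)
          exact mul_le_mul hrec hrec hμ0.le (hμ0.le.trans hrec)
        have h5 : (n : ℝ)⁻¹ * (n : ℝ)⁻¹ * ((re c * re c)⁻¹ * nz) * C
            ≤ (n : ℝ)⁻¹ * (n : ℝ)⁻¹ * ((μ * μ)⁻¹ * nz) * C := by
          apply mul_le_mul_of_nonneg_right _ hCpos.le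
          apply mul_le_mul_of_nonneg_left _ (by positivity)
          exact mul_le_mul_of_nonneg_right h4 hnz0
        refine h5.trans_lt ?_
        have h6 : (n : ℝ)⁻¹ * (n : ℝ)⁻¹ * ((μ * μ)⁻¹ * nz) * C
            = (nz * C / (μ * μ)) / (n * n) := by
          field_simp
        rw [h6, div_lt_one (by positivity)]
        have h7 : (n : ℝ) = 2 ^ m := by rw [hn]; push_cast; ring
        have h8 : (1 : ℝ) ≤ n := by rw [h7]; exact one_le_pow₀ (by norm_num)
        calc nz * C / (μ * μ) < 2 ^ m := hm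
          _ = n := h7.symm
          _ ≤ n * n := by nlinarith
      have hcomp := ZZ.comp H.pq H.Mp hstar H.sr ih' hwZ
      have hden : U1 (1 - r * star (t * z) * w) := by
        apply Sm.one_sub
        exact (H.sr.mul (htb.mul hz.bd).conj).mul hws.bd
      have e1 : (t * z + w) / (1 - r * star (t * z) * w) = t' * z := by
        rw [div_eq_iff hden.ne, star_mul', hts]
        have e2 : w * c = (n : L)⁻¹ * z := by rw [hw]; field_simp
        rw [← hdiff] at e2
        rw [hc] at e2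
        linear_combination e2
      rwa [e1] at hcomp
  have := key n le_rfl
  rwa [mul_inv_cancel₀ hn0, one_mul] at this

/-- The plane lemma. -/
theorem plane {M : Subgroup (GLV L)} {p q : ℕ →₀ L} (hpq : h p q = 0)
    (hr : Sm (h q q / h p p)) (Mp : RM M p) (Mpq : RM M (p + q)) {z : L} (hz : Sm z)
    (hpos : 0 < re (1 + h q q / h p p * (z * star z))) :
    ∃ T ∈ M, ∃ lam : L, lam ≠ 0 ∧ T p = lam • (p + z • q) ∧
      ∀ v, h v p = 0 → h v q = 0 → T v = v := by
  have H : PC M p q (h q q / h p p) := ⟨hpq, Mp.1, rfl, hr, Mp, Mpq⟩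
  obtain ⟨T, lam, y, hT⟩ := H.all hz hpos
  exact ⟨T, hT.mem, lam, hT.ul.ne, hT.hp, hT.fix⟩

end lemz

end Pool.Agent.NoMax
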