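import Pool.Agent.Lib.MP_e2b313_al.Form

namespace Pool.Agent.NoMax

section plane

variable {L : Type} [Field L] [StarRing L] [FD L]

/-- `M` contains all the reflections about `w`. -/
def RM (M : Subgroup (GLV L)) (w : ℕ →₀ L) : Prop :=
  h w w ≠ 0 ∧ ∀ y : L, isY y → ∃ T ∈ M, isR T w y

/-- `T` is an element of `M` acting on the plane `(p,q)` with parameters `(lam,z,y)`. -/
structure PM (M : Subgroup (GLV L)) (p q : ℕ →₀ L) (r : L) (T : GLV L) (lam z y : L) : Prop where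
  mem : T ∈ M
  hy : y * star y = 1
  ul : U1 lam
  uy : U1 y
  sz : Sm z
  hp : T p = lam • (p + z • q)
  hq : T q = (lam * y) • (q - (r * star z) • p)
  fix : ∀ v, h v p = 0 → h v q = 0 → T v = v

theorem PM.mul {M : Subgroup (GLV L)} {p q : ℕ →₀ L} {r : L} {T₁ T₂ : GLV L}
    {l₁ z₁ y₁ l₂ z₂ y₂ : L} (hr : star r = r) (hrs : Sm r)
    (H₁ : PM M p q r T₁ l₁ z₁ y₁) (H₂ : PM M p q r T₂ l₂ z₂ y₂) :
    ∃ lam y, PM M p q r (T₁ * T₂) lam ((z₁ + y₁ * z₂) / (1 - r * y₁ * star z₁ * z₂)) y := by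
  have hD : U1 (1 - r * y₁ * star z₁ * z₂) := by
    apply Sm.one_sub
    exact ((hrs.mul H₁.uy.bd).mul H₁.sz.conj.bd).mul H₂.sz.bd
  set D := 1 - r * y₁ * star z₁ * z₂ with hDdef
  have hD0 := hD.ne
  have hDs0 := hD.conj.ne
  have hy1 : y₁ ≠ 0 := H₁.uy.ne
  have hDs : star D = 1 - r * star y₁ * z₁ * star z₂ := by
    rw [hDdef]; simp [hr]
  refine ⟨l₁ * l₂ * D, y₁ * y₂ * star D / D, ?_, ?_, ?_, ?_, ?_, ?_, ?_, ?_⟩
  · exact M.mul_mem H₁.mem H₂.mem
  · rw [star_div₀, star_mul', star_mul', star_star]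
    have e1 := H₁.hy
    have e2 := H₂.hy
    field_simp
    linear_combination (y₂ * star y₂) * e1 + e2
  · exact (H₁.ul.mul H₂.ul).mul hD
  · exact ((H₁.uy.mul H₂.uy).mul hD.conj).div hD
  · exact (H₁.sz.add (H₁.uy.bd.mul_sm H₂.sz)).div_U1 hD
  · rw [mul_apply', H₂.hp, map_smul, map_add, map_smul, H₁.hp, H₁.hq]
    have : (l₁ * l₂ * D) • (p + ((z₁ + y₁ * z₂) / D) • q)
        = (l₁ * l₂ * D) • p + (l₁ * l₂ * (z₁ + y₁ * z₂)) • q := by
      rw [smul_add, smul_smul]; congr 2; field_simp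
    rw [this, hDdef]
    module
  · rw [mul_apply', H₂.hq, map_smul, map_sub, map_smul, H₁.hp, H₁.hq]
    have e1 := H₁.hy
    have hst : star ((z₁ + y₁ * z₂) / D) = (star z₁ + star y₁ * star z₂) / star D := by
      rw [star_div₀, star_add, star_mul']
    have e3 : l₁ * l₂ * D * (y₁ * y₂ * star D / D) = l₁ * l₂ * y₁ * y₂ * star D := by
      field_simp
    rw [hst, e3]
    have e4 : (l₁ * l₂ * y₁ * y₂ * star D) • (q - (r * ((star z₁ + star y₁ * star z₂) / star D)) • p)
        = (l₁ * l₂ * y₁ * y₂ * star D) • q - (l₁ * l₂ * y₂ * r * (y₁ * star z₁ + star z₂)) • p := by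
      rw [smul_sub, smul_smul]
      congr 2
      field_simp
      linear_combination (l₁ * l₂ * y₂ * r * star z₂) * e1
    rw [e4, hDs]
    have e5 : l₁ * l₂ * y₁ * y₂ * (1 - r * star y₁ * z₁ * star z₂)
        = l₁ * l₂ * y₂ * (y₁ - r * z₁ * star z₂) := by
      linear_combination (-l₁ * l₂ * y₂ * r * z₁ * star z₂) * e1
    rw [e5]
    module
  · intro v hv1 hv2
    rw [mul_apply', H₂.fix v hv1 hv2, H₁.fix v hv1 hv2]

/-- the set of reachable parameters -/
def ZZ (M : Subgroup (GLV L)) (p q : ℕ →₀ L) (r : L) (z : L) : Prop :=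
  ∃ T lam y, PM M p q r T lam z y

theorem ZZ.zero {M : Subgroup (GLV L)} {p q : ℕ →₀ L} {r : L} : ZZ M p q r 0 := by
  refine ⟨1, 1, 1, M.one_mem, by simp, U1.one, U1.one, Sm.zero, by simp, by simp, ?_⟩
  intro v _ _
  rfl

theorem ZZ.Ymul {M : Subgroup (GLV L)} {p q : ℕ →₀ L} {r : L} {z x : L} (hpq : h p q = 0)
    (Mp : RM M p) (hx : isY x) (H : ZZ M p q r z) : ZZ M p q r (x * z) := by
  obtain ⟨T, lam, y, H⟩ := H
  obtain ⟨X, hXM, hX⟩ := Mp.2 (x⁻¹) hx.inv
  have hP := Mp.1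
  have hqp : h q p = 0 := by rw [← star_h, hpq, star_zero]
  have hX1 : X p = x⁻¹ • p := by
    rw [hX]
    have : (x⁻¹ - 1) * h p p / h p p = x⁻¹ - 1 := by field_simp
    rw [this]; module
  have hX2 : X q = q := by
    rw [hX, hqp]; simp
  have hX3 : ∀ v, h v p = 0 → X v = v := by
    intro v hv
    rw [hX, hv]; simp
  have hX1' : X⁻¹ p = x • p := by
    have : p = x • X p := by rw [hX1, smul_smul, mul_inv_cancel₀ hx.ne, one_smul]
    conv_lhs => rw [this]
    rw [map_smul, inv_apply_self']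
  have hX2' : X⁻¹ q = q := by
    conv_lhs => rw [← hX2]
    rw [inv_apply_self']
  have hx1 := hx.1
  have hx0 := hx.ne
  refine ⟨X * T * X⁻¹, lam, y, M.mul_mem (M.mul_mem hXM H.mem) (M.inv_mem hXM), H.hy, H.ul, H.uy,
    hx.2.bd.mul_sm H.sz, ?_, ?_, ?_⟩
  · rw [mul_apply', mul_apply', hX1', map_smul, H.hp, map_smul, map_smul, map_add, map_smul, hX1,
      hX2]
    rw [smul_smul, smul_add, smul_add, smul_smul, smul_smul, smul_smul]
    congr 2
    · field_simp
    · ring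
  · rw [mul_apply', mul_apply', hX2', H.hq, map_smul, map_sub, map_smul, hX1, hX2]
    rw [smul_smul, star_mul', hx.star_eq]
    congr 3
    ring
  · intro v hv1 hv2
    have h1 : X⁻¹ v = v := by
      conv_lhs => rw [← hX3 v hv1]
      rw [inv_apply_self']
    rw [mul_apply', mul_apply', h1, H.fix v hv1 hv2, hX3 v hv1]

theorem ZZ.comp {M : Subgroup (GLV L)} {p q : ℕ →₀ L} {r : L} {z₁ z₂ : L} (hpq : h p q = 0)
    (Mp : RM M p) (hr : star r = r) (hrs : Sm r) (H₁ : ZZ M p q r z₁) (H₂ : ZZ M p q r z₂) :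
    ZZ M p q r ((z₁ + z₂) / (1 - r * star z₁ * z₂)) := by
  obtain ⟨T₁, l₁, y₁, H₁⟩ := H₁
  have hy : isY (y₁⁻¹) := isY.inv ⟨H₁.hy, H₁.uy⟩
  obtain ⟨T₂, l₂, y₂, H₂⟩ := ZZ.Ymul hpq Mp hy H₂
  obtain ⟨lam, y, H⟩ := PM.mul hr hrs H₁ H₂
  have h0 : y₁ ≠ 0 := H₁.uy.ne
  have e1 : y₁ * (y₁⁻¹ * z₂) = z₂ := by field_simp
  have e2 : r * y₁ * star z₁ * (y₁⁻¹ * z₂) = r * star z₁ * z₂ := by field_simp
  rw [e1, e2] at H
  exact ⟨_, _, _, H⟩

theorem ZZ.driver {M : Subgroup (GLV L)} {p q : ℕ →₀ L} (hpq : h p q = 0) (hP : h p p ≠ 0)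
    (hrs : Sm (h q q / h p p)) (Mpq : RM M (p + q)) {y : L} (hy : isY y) :
    ZZ M p q (h q q / h p p) ((y - 1) / (y + h q q / h p p)) := by
  obtain ⟨T, hTM, hT⟩ := Mpq.2 y hy
  set r := h q q / h p p with hr
  have hQ : h q q = r * h p p := by rw [hr]; field_simp
  have hqp : h q p = 0 := by rw [← star_h, hpq, star_zero]
  have hstar : star r = r := by rw [hr, star_div₀, star_h_self, star_h_self]
  have hu : h (p + q) (p + q) = h p p * (1 + r) := by
    rw [h_add_left, h_add_right, h_add_right, hpq, hqp, hQ]; ring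
  have hpu : h p (p + q) = h p p := by rw [h_add_right, hpq, add_zero]
  have hqu : h q (p + q) = r * h p p := by rw [h_add_right, hqp, zero_add, hQ]
  have h1r : U1 (1 + r) := hrs.one_add
  have h1r0 := h1r.ne
  have hyr : U1 (y + r) := hy.2.add_sm hrs
  have hyr0 := hyr.ne
  have hry : U1 (1 + r * y) := (hrs.mul hy.2.bd).one_add
  have hry0 := hry.ne
  have hyy := hy.1
  have hy0 := hy.ne
  have hsy : star y = y⁻¹ := hy.star_eq
  have hyrs : star y + r ≠ 0 := by
    have := hyr.conj.ne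
    rwa [star_add, hstar] at this
  refine ⟨T, (y + r) / (1 + r), (1 + r * y) / (y + r), hTM, ?_, hyr.div h1r, hry.div hyr,
    hy.sm.div_U1 hyr, ?_, ?_, ?_⟩
  · rw [star_div₀, star_add, star_add, star_mul', star_one, hstar]
    rw [hsy] at hyrs ⊢
    have : y⁻¹ + r = (1 + r * y) / y := by field_simp
    rw [this]
    field_simp
  · rw [hT, hu, hpu]
    have e1 : (y - 1) * h p p / (h p p * (1 + r)) = (y - 1) / (1 + r) := by field_simp
    rw [e1]
    have e2 : ((y + r) / (1 + r)) • (p + ((y - 1) / (y + r)) • q)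
        = ((y + r) / (1 + r)) • p + ((y - 1) / (1 + r)) • q := by
      rw [smul_add, smul_smul]; congr 2; field_simp
    rw [e2]
    have e3 : (y + r) / (1 + r) = 1 + (y - 1) / (1 + r) := by field_simp; ring
    rw [e3]
    module
  · rw [hT, hu, hqu]
    have e1 : (y - 1) * (r * h p p) / (h p p * (1 + r)) = (y - 1) * r / (1 + r) := by field_simp
    rw [e1, star_div₀, star_sub, star_add, star_one, hstar]
    have e2 : ((y + r) / (1 + r) * ((1 + r * y) / (y + r))) = (1 + r * y) / (1 + r) := by field_simp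
    rw [e2]
    have e3 : ((1 + r * y) / (1 + r)) • (q - (r * ((star y - 1) / (star y + r))) • p)
        = ((1 + r * y) / (1 + r)) • q + ((y - 1) * r / (1 + r)) • p := by
      rw [smul_sub, smul_smul, sub_eq_add_neg, ← neg_smul]
      congr 2
      rw [hsy] at hyrs ⊢
      have e4 : y⁻¹ + r = (1 + r * y) / y := by field_simp
      rw [e4]
      field_simp
      ring
    rw [e3]
    have e5 : (1 + r * y) / (1 + r) = 1 + (y - 1) * r / (1 + r) := by field_simp; ring
    rw [e5]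
    module
  · intro v hv1 hv2
    rw [hT, h_add_right, hv1, hv2]
    simp

/-- Cayley lemma -/
theorem cayley {ρ κ : L} (hρ : star ρ = ρ) (hκ : star κ = κ) (hρs : Sm ρ) (hκs : Sm κ)
    (hpos : 0 < re (1 - (κ * (1 - ρ) * 2⁻¹) * (κ * (1 - ρ) * 2⁻¹))) :
    ∃ y y' : L, isY y ∧ isY y' ∧ (y - 1) / (y + ρ) = im L * κ * y' ∧
      (y - 1) / (1 + ρ * star y) = im L * κ * y * y' := by
  have h2 := two_ne (L := L)
  set d : L := κ * (1 - ρ) * 2⁻¹ with hd
  set b : L := κ * (1 + ρ) * 2⁻¹ with hb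
  have hdr : star d = d := by simp [hd, hκ, hρ]
  have hbr : star b = b := by simp [hb, hκ, hρ]
  have hds : Sm d := (hκs.mul (hρs.one_sub.bd)).mul Bd.inv_two
  have hbs : Sm b := (hκs.mul (hρs.one_add.bd)).mul Bd.inv_two
  have hone : star (1 - d * d) = 1 - d * d := by simp [hdr]
  obtain ⟨s, hs, hss, hsU⟩ := exists_U1_sqrt hone hpos ((hds.mul hds.bd).one_sub)
  have hn : U1 (s + im L * b) := hsU.add_sm (Bd.im.mul_sm hbs)
  have hm : U1 (s - im L * b) := hsU.sub_sm (Bd.im.mul_sm hbs)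
  have hn0 := hn.ne
  have hm0 := hm.ne
  have hy' : isY (s - im L * d) := by
    refine ⟨?_, hsU.sub_sm (Bd.im.mul_sm hds)⟩
    rw [star_sub, star_mul', hs, hdr, star_im]
    linear_combination hss - (d * d) * im_mul_im (L := L)
  have hy : isY ((s + im L * b) / (s - im L * b)) := by
    refine ⟨?_, hn.div hm⟩
    rw [star_div₀, star_add, star_sub, star_mul', hs, hbr, star_im,
      show s - -im L * b = s + im L * b by ring, show s + -im L * b = s - im L * b by ring]
    field_simp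
  have hsum : U1 ((s + im L * b) / (s - im L * b) + ρ) := (hn.div hm).add_sm hρs
  have hρ1 : U1 (1 + ρ) := hρs.one_add
  have hρ10 := hρ1.ne
  have hkey : ((s + im L * b) / (s - im L * b) - 1)
      = im L * κ * (s - im L * d) * ((s + im L * b) / (s - im L * b) + ρ) := by
    have e1 : b * 2 = κ * (1 + ρ) := by rw [hb]; field_simp
    have e2 : d * 2 = κ * (1 - ρ) := by rw [hd]; field_simp
    have e3 : b * (1 - ρ) = d * (1 + ρ) := by rw [hb, hd]; ring
    have e4 : (s - im L * d) * (s + im L * d) = 1 := by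
      linear_combination hss - (d * d) * im_mul_im (L := L)
    have e5 : ((s + im L * b) / (s - im L * b) + ρ) = (1 + ρ) * (s + im L * d) / (s - im L * b) := by
      field_simp
      linear_combination (im L) * e3
    rw [e5]
    field_simp
    linear_combination (im L) * e1 - (im L * κ * (1 + ρ)) * e4
  refine ⟨_, _, hy, hy', ?_, ?_⟩
  · rw [hkey]
    exact mul_div_cancel_right₀ _ hsum.ne
  · have h1 : 1 + ρ * star ((s + im L * b) / (s - im L * b))
        = ((s + im L * b) / (s - im L * b) + ρ) / ((s + im L * b) / (s - im L * b)) := by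
      rw [hy.star_eq]
      have := hy.ne
      field_simp
    rw [h1, hkey]
    have h3 := hsum.ne
    have h4 := hy.ne
    rw [div_div_eq_mul_div, div_eq_iff h3]
    ring

end plane

end Pool.Agent.NoMax
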