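import Pool.Agent.Lib.MP_e2b313_al.Dense

namespace Pool.Agent.NoMax

section stepb

variable {L : Type} [Field L] [StarRing L] [FD L]

/-- linear algebra: solving a system congruent to the identity -/
theorem LA (j : ℕ) (A : Fin j → Fin j → L) (hd : ∀ i, A i i = 1)
    (ho : ∀ l i, l ≠ i → Sm (A l i)) (y : Fin j → L) {C : ℝ} (hC : 0 ≤ C) (hy : ∀ i, N (y i) ≤ C) :
    ∃ x : Fin j → L, (∀ i, ∑ l, x l * A l i = y i) ∧ ∀ i, N (x i) ≤ C := by
  classical
  let f : (Fin j → L) →ₗ[L] (Fin j → L) :=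
    { toFun := fun x i => ∑ l, x l * A l i
      map_add' := by
        intro x x'
        ext i
        simp only [Pi.add_apply, add_mul, Finset.sum_add_distrib]
      map_smul' := by
        intro c x
        ext i
        simp only [Pi.smul_apply, smul_eq_mul, RingHom.id_apply, mul_assoc, Finset.mul_sum] }
  have key : ∀ (x : Fin j → L) (C : ℝ), 0 ≤ C → (∀ i, N (f x i) ≤ C) → ∀ i, N (x i) ≤ C := by
    intro x C hC hx i
    have : Nonempty (Fin j) := ⟨i⟩
    obtain ⟨i0, -, hi0⟩ := Finset.exists_max_image Finset.univ (fun i => N (x i))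
      ⟨i, Finset.mem_univ i⟩
    refine (hi0 i (Finset.mem_univ i)).trans ?_
    by_contra hcon
    push Not at hcon
    have hX : 0 < N (x i0) := lt_of_le_of_lt hC hcon
    have h1 : f x i0 = x i0 + ∑ l ∈ Finset.univ.erase i0, x l * A l i0 := by
      change ∑ l, x l * A l i0 = _
      rw [← Finset.add_sum_erase _ _ (Finset.mem_univ i0), hd, mul_one]
    have h2 : x i0 = f x i0 - ∑ l ∈ Finset.univ.erase i0, x l * A l i0 := by rw [h1]; ring
    have h3 : N (∑ l ∈ Finset.univ.erase i0, x l * A l i0) < N (x i0) := by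
      apply N_sum_lt _ _ hX
      intro l hl
      calc N (x l * A l i0) ≤ N (x l) * N (A l i0) := N_mul _ _
        _ ≤ N (x i0) * N (A l i0) :=
            mul_le_mul_of_nonneg_right (hi0 l (Finset.mem_univ l)) (N_nonneg _)
        _ < N (x i0) * 1 := mul_lt_mul_of_pos_left (ho l i0 (Finset.ne_of_mem_erase hl)) hX
        _ = N (x i0) := mul_one _
    have h4 : N (x i0) < N (x i0) := by
      conv_lhs => rw [h2]
      exact (N_sub _ _).trans_lt (max_lt ((hx i0).trans_lt hcon) h3)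
    exact lt_irrefl _ h4
  have hinj : Function.Injective f := by
    rw [injective_iff_map_eq_zero]
    intro x hx
    ext i
    have h1 := key x 0 le_rfl (fun i => by rw [hx]; simp) i
    exact N_eq_zero.1 (le_antisymm h1 (N_nonneg _))
  have hsurj : Function.Surjective f := LinearMap.injective_iff_surjective.1 hinj
  obtain ⟨x, hx⟩ := hsurj y
  refine ⟨x, fun i => congrFun hx i, key x C hC fun i => ?_⟩
  rw [hx]; exact hy i

theorem re_sum {α : Type*} (s : Finset α) (f : α → L) : re (∑ i ∈ s, f i) = ∑ i ∈ s, re (f i) := by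
  unfold re
  rw [map_sum, Complex.re_sum]

theorem re_h_ge (D : ℕ →₀ L) : - re (D 0 * star (D 0)) ≤ re (h D D) := by
  classical
  rw [h_eq_sum D D (insert 0 D.support) (Finset.subset_insert _ _), re_sum]
  rw [← Finset.add_sum_erase _ _ (Finset.mem_insert_self 0 D.support)]
  have h1 : re (D 0 * (sg 0 * star (D 0))) = - re (D 0 * star (D 0)) := by
    have : (sg 0 : L) = -1 := by simp [sg]
    rw [this, ← re_neg]; congr 1; ring
  rw [h1]
  have h2 : 0 ≤ ∑ x ∈ (insert 0 D.support).erase 0, re (D x * (sg x * star (D x))) := by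
    apply Finset.sum_nonneg
    intro i hi
    have hi0 : i ≠ 0 := Finset.ne_of_mem_erase hi
    rw [sg_pos (by omega), one_mul]
    exact re_mul_star_nonneg _
  linarith

theorem comb {M : Subgroup (GLV L)} (hMG : M ≤ G L) {k : ℕ} (hk : 1 ≤ k) (Rk : RM M (e k))
    (d : ℕ → ℕ →₀ L) (j : ℕ) (hd : ∀ s < j, Ob M k (e k + d s)) (hds : ∀ s < j, ∀ i, Sm (d s i))
    (hdk : ∀ s < j, d s k = 0) {δ C : ℝ} (hδ : 0 < δ) (hδ1 : δ ≤ 1 / 2) (hC : 0 ≤ C)
    (hdC : ∀ s < j, ‖emb (d s 0)‖ ≤ C) (hδC : δ * C < 1) :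
    ∀ s, s ≤ j → ∀ z : ℕ → L, (∀ l < s, Sm (z l)) →
      ∑ l ∈ Finset.range s, ‖emb (z l)‖ ≤ δ / 2 ^ s →
      Ob M k (e k + ∑ l ∈ Finset.range s, z l • d l) := by
  intro s
  induction s with
  | zero =>
    intro _ z _ _
    refine ⟨1, M.one_mem, 1, one_ne_zero, by simp⟩
  | succ s ih =>
    intro hs z hz hsum
    have hsj : s < j := hs
    have hzs : Sm (z s) := hz s (Nat.lt_succ_self s)
    have h1z : U1 (1 - z s) := hzs.one_sub
    have h1z0 := h1z.ne
    have hnn : 0 ≤ ∑ l ∈ Finset.range s, ‖emb (z l)‖ := Finset.sum_nonneg fun i _ => norm_nonneg _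
    have hsum' := hsum
    rw [Finset.sum_range_succ] at hsum'
    have h2s : (1 : ℝ) ≤ 2 ^ (s + 1) := one_le_pow₀ (by norm_num)
    have hδs : δ / 2 ^ (s + 1) ≤ δ := div_le_self hδ.le h2s
    have hzsn : ‖emb (z s)‖ ≤ 1 / 2 := by linarith
    have h1zn : 1 / 2 ≤ ‖emb (1 - z s)‖ := by
      rw [map_sub, map_one]
      have := norm_sub_norm_le (1 : ℂ) (emb (z s))
      rw [norm_one] at this
      linarith
    -- modified coefficients
    have hw : ∀ l < s, Sm (z l / (1 - z s)) := fun l hl => (hz l (by omega)).div_U1 h1z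
    have hwsum : ∑ l ∈ Finset.range s, ‖emb (z l / (1 - z s))‖ ≤ δ / 2 ^ s := by
      have h1 : ∀ l ∈ Finset.range s, ‖emb (z l / (1 - z s))‖ ≤ 2 * ‖emb (z l)‖ := by
        intro l _
        rw [map_div₀, norm_div, div_le_iff₀ (by linarith)]
        nlinarith [norm_nonneg (emb (z l))]
      calc ∑ l ∈ Finset.range s, ‖emb (z l / (1 - z s))‖
          ≤ ∑ l ∈ Finset.range s, 2 * ‖emb (z l)‖ := Finset.sum_le_sum h1
        _ = 2 * ∑ l ∈ Finset.range s, ‖emb (z l)‖ := by rw [Finset.mul_sum]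
        _ ≤ 2 * (δ / 2 ^ (s + 1)) := by
            have := norm_nonneg (emb (z s))
            linarith
        _ = δ / 2 ^ s := by rw [pow_succ]; field_simp
    have hOb1 := ih (by omega) (fun l => z l / (1 - z s)) hw hwsum
    have hOb2 := hd s hsj
    set v₁ : ℕ →₀ L := e k + ∑ l ∈ Finset.range s, (z l / (1 - z s)) • d l with hv₁
    set v₂ : ℕ →₀ L := e k + d s with hv₂
    have hsm1 : ∀ i, Sm ((∑ l ∈ Finset.range s, (z l / (1 - z s)) • d l : ℕ →₀ L) i) := by
      intro i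
      rw [Finsupp.finsetSum_apply]
      apply N_sum_lt _ _ one_pos
      intro l hl
      rw [Finsupp.smul_apply, smul_eq_mul]
      exact (hw l (Finset.mem_range.1 hl)).mul
        (hds l (by have := Finset.mem_range.1 hl; omega) i).bd
    have hc₁ : Cl k v₁ := by
      intro i
      rw [hv₁, add_sub_cancel_left]
      exact hsm1 i
    have hc₂ : Cl k v₂ := by
      intro i
      rw [hv₂, add_sub_cancel_left]
      exact hds s hsj i
    have hvec : v₁ + z s • (v₂ - v₁) = e k + ∑ l ∈ Finset.range (s + 1), z l • d l := by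
      have h1 : v₁ + z s • (v₂ - v₁) = (1 - z s) • v₁ + z s • v₂ := by module
      have h2 : (1 - z s) • (∑ l ∈ Finset.range s, (z l / (1 - z s)) • d l)
          = ∑ l ∈ Finset.range s, z l • d l := by
        rw [Finset.smul_sum]
        apply Finset.sum_congr rfl
        intro l _
        rw [smul_smul]; congr 1; field_simp
      rw [h1, hv₁, hv₂, smul_add, h2, Finset.sum_range_succ]
      module
    have hpos : 0 < re (h (v₁ + z s • (v₂ - v₁)) (v₁ + z s • (v₂ - v₁))) := by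
      rw [hvec]
      set D : ℕ →₀ L := ∑ l ∈ Finset.range (s + 1), z l • d l with hD
      have hDk : D k = 0 := by
        rw [hD, Finsupp.finsetSum_apply]
        apply Finset.sum_eq_zero
        intro l hl
        rw [Finsupp.smul_apply, hdk l (by have := Finset.mem_range.1 hl; omega), smul_zero]
      have h1 : h (e k + D) (e k + D) = 1 + h D D := by
        rw [h_add_left, h_add_right, h_add_right, h_e_self, sg_pos hk, h_e_left, h_e_right, hDk]
        simp
      rw [h1, re_add, re_one]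
      have h2 := re_h_ge D
      have h3 : ‖emb (D 0)‖ < 1 := by
        rw [hD, Finsupp.finsetSum_apply, map_sum]
        refine (norm_sum_le _ _).trans_lt ?_
        have h4 : ∀ l ∈ Finset.range (s + 1), ‖emb ((z l • d l : ℕ →₀ L) 0)‖
            ≤ ‖emb (z l)‖ * C := by
          intro l hl
          rw [Finsupp.smul_apply, smul_eq_mul, map_mul, norm_mul]
          exact mul_le_mul_of_nonneg_left
            (hdC l (by have := Finset.mem_range.1 hl; omega)) (norm_nonneg _)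
        refine (Finset.sum_le_sum h4).trans_lt ?_
        rw [← Finset.sum_mul]
        calc (∑ l ∈ Finset.range (s + 1), ‖emb (z l)‖) * C ≤ δ * C :=
              mul_le_mul_of_nonneg_right (hsum.trans hδs) hC
          _ < 1 := hδC
      have h4 : re (D 0 * star (D 0)) < 1 := by
        rw [re_mul_star, Complex.normSq_eq_norm_sq]
        have := norm_nonneg (emb (D 0))
        nlinarith
      linarith
    have := convex hMG hk Rk hOb1 hOb2 hc₁ hc₂ hzs hpos
    rwa [hvec] at this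

theorem exists_d {M : Subgroup (GLV L)} (hMG : M ≤ G L) (hM : Dense' M) {j : ℕ} (hj : 1 ≤ j)
    (hPi : PiIn M j) {k s : ℕ} (hk : j ≤ k) (hs : s < j) {t : L} (ht : star t = t) (hts : Sm t)
    (ht0 : t ≠ 0) :
    ∃ d : ℕ →₀ L, Ob M k (e k + d) ∧ (∀ i, Sm (d i)) ∧ (∀ i, j ≤ i → d i = 0) ∧ d s ≠ 0 ∧
      N ((d s)⁻¹) ≤ ((ν t)⁻¹) ^ 2 ∧ ∀ i, i < j → i ≠ s → Sm (d i * (d s)⁻¹) := by
  classical
  have hk1 : 1 ≤ k := hj.trans hk
  have hks : k ≠ s := by omega
  obtain ⟨m, hm, hmC, hms0, hms, hmi⟩ := approx hM hMG hk1 hks ht hts ht0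
  set v := m (e k) with hv
  let S := v.support.filter (fun i => j ≤ i ∧ i ≠ k)
  have hkS : k ∉ S := by
    intro h
    have := (Finset.mem_filter.1 h).2.2
    exact this rfl
  have hS : ∀ i ∈ S, j ≤ i ∧ i ≠ k := fun i hi => (Finset.mem_filter.1 hi).2
  obtain ⟨T, hT, hTk, hTS, hTn, -⟩ := clean hMG S hkS
    (fun i hi ζ hζ => stepIa hMG hM hj hPi hk (hS i hi).1 (Ne.symm (hS i hi).2) hζ)
    hmC.u1 (fun i hi => hmC.sm (hS i hi).2)
  set v' := T v with hv'
  have hc0 := hTk.ne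
  have hlow : ∀ i, i < j → v' i = v i := by
    intro i hi
    apply hTn
    · intro h
      have := (hS i h).1
      omega
    · omega
  have hhigh : ∀ i, j ≤ i → i ≠ k → v' i = 0 := by
    intro i hi hik
    by_cases h1 : i ∈ S
    · exact hTS i h1
    · rw [hTn i h1 hik]
      by_contra h0
      exact h1 (Finset.mem_filter.2 ⟨Finsupp.mem_support_iff.2 h0, hi, hik⟩)
  have hdi : ∀ i, i < j → ((v' k)⁻¹ • v' - e k : ℕ →₀ L) i = (v' k)⁻¹ * v i := by
    intro i hi
    rw [Finsupp.sub_apply, Finsupp.smul_apply, smul_eq_mul, e_ne (show k ≠ i by omega), sub_zero,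
      hlow i hi]
  refine ⟨(v' k)⁻¹ • v' - e k, ?_, ?_, ?_, ?_, ?_, ?_⟩
  · refine ⟨T * m, M.mul_mem hT hm, v' k, hc0, ?_⟩
    rw [mul_apply', ← hv, ← hv', add_sub_cancel, smul_smul, mul_inv_cancel₀ hc0, one_smul]
  · intro i
    by_cases hij : i < j
    · rw [hdi i hij]
      exact hTk.inv.bd.mul_sm (hmC.sm (by omega))
    · rw [Finsupp.sub_apply, Finsupp.smul_apply, smul_eq_mul]
      by_cases hik : i = k
      · subst hik
        rw [e_same, inv_mul_cancel₀ hc0, sub_self]; exact Sm.zero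
      · rw [hhigh i (by omega) hik, mul_zero, e_ne (Ne.symm hik), sub_zero]; exact Sm.zero
  · intro i hij
    rw [Finsupp.sub_apply, Finsupp.smul_apply, smul_eq_mul]
    by_cases hik : i = k
    · subst hik
      rw [e_same, inv_mul_cancel₀ hc0, sub_self]
    · rw [hhigh i (by omega) hik, mul_zero, e_ne (Ne.symm hik), sub_zero]
  · rw [hdi s hs]
    exact mul_ne_zero (inv_ne_zero hc0) hms0
  · rw [hdi s hs, mul_inv, inv_inv, hTk.N_mul]
    exact hms
  · intro i hi his
    rw [hdi i hi, hdi s hs]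
    have h1 : (v' k)⁻¹ * v i * ((v' k)⁻¹ * v s)⁻¹ = v i * (v s)⁻¹ := by
      field_simp
    rw [h1]
    exact hmi i (by omega) his

theorem stepIb {M : Subgroup (GLV L)} (hMG : M ≤ G L) (hM : Dense' M) {j : ℕ} (hj : 1 ≤ j)
    (hPi : PiIn M j) {k l : ℕ} (hk : j ≤ k) (hl : l < j) {ζ : L} (hζ : Sm ζ)
    (hpos : 0 < re (1 + sg l * (ζ * star ζ))) :
    TT M k l ζ := by
  classical
  have hk1 : 1 ≤ k := hj.trans hk
  have hkl : k ≠ l := by omega
  have Rk : RM M (e k) := RM_e_of_PiIn hPi hk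
  obtain ⟨t, ht, hts, ht0, hζt⟩ := exists_t hζ 3 (by norm_num)
  have hνt : 0 < ν t := ν_pos ht0
  have hνt1 : ν t < 1 := by rw [← N_real ht]; exact hts
  have hex : ∀ s : ℕ, ∃ d : ℕ →₀ L, s < j → Ob M k (e k + d) ∧ (∀ i, Sm (d i)) ∧
      (∀ i, j ≤ i → d i = 0) ∧ d s ≠ 0 ∧
      N ((d s)⁻¹) ≤ ((ν t)⁻¹) ^ 2 ∧ ∀ i, i < j → i ≠ s → Sm (d i * (d s)⁻¹) := by
    intro s
    by_cases hs : s < j
    · obtain ⟨d, hd⟩ := exists_d hMG hM hj hPi hk hs ht hts ht0
      exact ⟨d, fun _ => hd⟩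
    · exact ⟨0, fun h => absurd h hs⟩
  choose d hd using hex
  -- linear algebra
  obtain ⟨x, hx, hxN⟩ := LA j (fun s i => d s i * (d s s)⁻¹)
    (fun i => mul_inv_cancel₀ (hd i i.2).2.2.2.1)
    (fun s i hsi => (hd s s.2).2.2.2.2.2 i i.2 (fun h => hsi (Fin.ext h.symm)))
    (fun i => if (i : ℕ) = l then t ^ 3 else 0) (C := (ν t) ^ 3) (by positivity) (by
      intro i
      split_ifs
      · rw [N_pow, N_real ht]
      · rw [N_zero]; positivity)
  -- coefficients
  let z0 : ℕ → L := fun s => if hs : s < j then x ⟨s, hs⟩ * (d s s)⁻¹ else 0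
  have hz0 : ∀ s (hs : s < j), z0 s = x ⟨s, hs⟩ * (d s s)⁻¹ := fun s hs => dif_pos hs
  have hz0s : ∀ s < j, Sm (z0 s) := by
    intro s hs
    rw [hz0 s hs]
    unfold Sm
    calc N (x ⟨s, hs⟩ * (d s s)⁻¹) ≤ N (x ⟨s, hs⟩) * N ((d s s)⁻¹) := N_mul _ _
      _ ≤ (ν t) ^ 3 * ((ν t)⁻¹) ^ 2 :=
          mul_le_mul (hxN _) (hd s hs).2.2.2.2.1 (N_nonneg _) (by positivity)
      _ = ν t := by field_simp
      _ < 1 := hνt1
  have hcomb0 : ∑ s ∈ Finset.range j, z0 s • d s = (t ^ 3) • (e l : ℕ →₀ L) := by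
    ext i
    rw [Finsupp.finsetSum_apply, Finsupp.smul_apply, e_apply, smul_eq_mul]
    by_cases hi : i < j
    · have h1 := hx ⟨i, hi⟩
      simp only at h1
      have h2 : ∑ s ∈ Finset.range j, (z0 s • d s : ℕ →₀ L) i
          = ∑ s : Fin j, x s * (d s i * (d s s)⁻¹) := by
        rw [← Fin.sum_univ_eq_sum_range (fun s => (z0 s • d s : ℕ →₀ L) i) j]
        apply Finset.sum_congr rfl
        intro s _
        rw [Finsupp.smul_apply, smul_eq_mul, hz0 s s.2]
        ring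
      rw [h2, h1]
      by_cases hil : i = l
      · simp [hil]
      · rw [if_neg hil, if_neg (Ne.symm hil), mul_zero]
    · rw [if_neg (by omega), mul_zero]
      apply Finset.sum_eq_zero
      intro s hs
      rw [Finsupp.smul_apply, (hd s (Finset.mem_range.1 hs)).2.2.1 i (by omega), smul_zero]
  -- real scaling
  set C : ℝ := ∑ s ∈ Finset.range j, ‖emb (d s 0)‖ with hC
  have hC0 : 0 ≤ C := Finset.sum_nonneg fun i _ => norm_nonneg _
  have hdC : ∀ s < j, ‖emb (d s 0)‖ ≤ C := by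
    intro s hs
    exact Finset.single_le_sum (f := fun s => ‖emb (d s 0)‖) (fun i _ => norm_nonneg _)
      (Finset.mem_range.2 hs)
  set δ : ℝ := 1 / (2 * (C + 1)) with hδ
  have hδ0 : 0 < δ := by positivity
  have hδ1 : δ ≤ 1 / 2 := by
    rw [hδ]
    apply one_div_le_one_div_of_le (by norm_num)
    linarith
  have hδC : δ * C < 1 := by
    rw [hδ, one_div, inv_mul_lt_iff₀ (by positivity)]
    linarith
  set Sg0 : ℝ := ∑ s ∈ Finset.range j, ‖emb (z0 s)‖ with hSg
  obtain ⟨n, hn⟩ := pow_unbounded_of_one_lt (Sg0 * 2 ^ j / δ) (one_lt_two : (1:ℝ) < 2)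
  set u : L := ((2 : L)⁻¹) ^ n with hu
  have huN : N u = 1 := by rw [hu, N_pow, N_inv_two, one_pow]
  have hu0 : u ≠ 0 := pow_ne_zero _ (inv_ne_zero two_ne)
  have hus : star u = u := by rw [hu]; simp
  have huemb : ‖emb u‖ = ((2 : ℝ)⁻¹) ^ n := by
    rw [hu, map_pow, map_inv₀, norm_pow, norm_inv]
    congr 2
    rw [show (2 : L) = ((2 : ℕ) : L) by norm_num, map_natCast]
    simp
  have hres := comb hMG hk1 Rk d j (fun s hs => (hd s hs).1) (fun s hs => (hd s hs).2.1)
    (fun s hs => (hd s hs).2.2.1 k hk) hδ0 hδ1 hC0 hdC hδC j le_rfl (fun s => u * z0 s)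
    (fun s hs => by
      have : Bd u := by unfold Bd; rw [huN]
      exact this.mul_sm (hz0s s hs))
    (by
      have h1 : ∑ s ∈ Finset.range j, ‖emb (u * z0 s)‖ = ((2 : ℝ)⁻¹) ^ n * Sg0 := by
        rw [hSg, Finset.mul_sum]
        apply Finset.sum_congr rfl
        intro s _
        rw [map_mul, norm_mul, huemb]
      rw [h1, inv_pow, inv_mul_le_iff₀ (by positivity)]
      have h2 : Sg0 * 2 ^ j / δ < 2 ^ n := hn
      rw [div_lt_iff₀ hδ0] at h2
      rw [mul_div_assoc', le_div_iff₀ (by positivity)]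
      exact h2.le)
  have hvec : ∑ s ∈ Finset.range j, (u * z0 s) • d s = (u * t ^ 3) • (e l : ℕ →₀ L) := by
    have h1 : ∑ s ∈ Finset.range j, (u * z0 s) • d s = u • ∑ s ∈ Finset.range j, z0 s • d s := by
      rw [Finset.smul_sum]
      apply Finset.sum_congr rfl
      intro s _
      rw [smul_smul]
    rw [h1, hcomb0, smul_smul]
  rw [hvec] at hres
  have hRd : RM M ((1 : L) • e k + (u * t ^ 3) • e l) := by
    rw [one_smul]; exact hres.rm hMG Rk
  have ht3 : star (t ^ 3) = t ^ 3 := by rw [star_pow, ht]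
  apply TT_of_driver hk1 hkl Rk U1.one (b := u * t ^ 3) _ _ hRd _ hpos
  · have h1 : Sm (t ^ 3) := by
      unfold Sm
      rw [N_pow, N_real ht]
      exact pow_lt_one₀ hνt.le hνt1 (by norm_num)
    have : Bd u := by unfold Bd; rw [huN]
    exact this.mul_sm h1
  · exact mul_ne_zero hu0 (pow_ne_zero _ ht0)
  · unfold Sm
    rw [mul_one, div_eq_mul_inv, mul_inv]
    have h1 : N (u⁻¹ * (t ^ 3)⁻¹) = ((ν t) ^ 3)⁻¹ := by
      have hνu : ν u = 1 := by rw [← N_real hus]; exact huN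
      rw [N_mul_real (by rw [star_inv₀, hus]), N_real (by rw [star_inv₀, ht3]), ν_inv, ν_inv, hνu,
        ν_pow t 3, inv_one, one_mul]
    calc N (ζ * (u⁻¹ * (t ^ 3)⁻¹)) ≤ N ζ * N (u⁻¹ * (t ^ 3)⁻¹) := N_mul _ _
      _ = N ζ * ((ν t) ^ 3)⁻¹ := by rw [h1]
      _ < (ν t) ^ 3 * ((ν t) ^ 3)⁻¹ := mul_lt_mul_of_pos_right hζt (by positivity)
      _ = 1 := mul_inv_cancel₀ (by positivity)

end stepb

end Pool.Agent.NoMax
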