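import Pool.Agent.Lib.MP_e2b313_al.StepB

namespace Pool.Agent.NoMax

section stepc

variable {L : Type} [Field L] [StarRing L] [FD L]

/-- plane-supported -/
def PS (k l : ℕ) (A : GLV L) : Prop := ∀ v : ℕ →₀ L, v k = 0 → v l = 0 → A v = v

/-- diagonal element with a single nontrivial entry -/
def DG (D : GLV L) (l : ℕ) (y : L) : Prop := isD D (fun i => if i = l then y else 1)

omit [StarRing L] [FD L] in
theorem DG.ei {D : GLV L} {l : ℕ} {y : L} (hD : DG D l y) (i : ℕ) :
    D (e i) = (if i = l then y else (1 : L)) • e i := hD i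
omit [StarRing L] [FD L] in
theorem PS.mul {k l : ℕ} {A B : GLV L} (hA : PS k l A) (hB : PS k l B) : PS k l (A * B) := by
  intro v h1 h2
  rw [mul_apply', hB v h1 h2, hA v h1 h2]
omit [StarRing L] [FD L] in
theorem PS.inv {k l : ℕ} {A : GLV L} (hA : PS k l A) : PS k l (A⁻¹) := by
  intro v h1 h2
  conv_lhs => rw [← hA v h1 h2]
  rw [inv_apply_self']
omit [StarRing L] [FD L] in
theorem PS.e {k l : ℕ} {A : GLV L} (hA : PS k l A) {m : ℕ} (hmk : m ≠ k) (hml : m ≠ l) :
    A (e m) = e m := hA _ (e_ne hmk) (e_ne hml)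
omit [StarRing L] [FD L] in
theorem DG.ps_left {k l : ℕ} {D : GLV L} {y : L} (hD : DG D k y) : PS k l D := by
  intro v h1 h2
  ext i
  rw [isD.apply hD]
  by_cases hi : i = k
  · subst hi; rw [h1, mul_zero]
  · rw [if_neg hi, one_mul]
omit [StarRing L] [FD L] in
theorem DG.ps_right {k l : ℕ} {D : GLV L} {y : L} (hD : DG D l y) : PS k l D := by
  intro v h1 h2
  ext i
  rw [isD.apply hD]
  by_cases hi : i = l
  · subst hi; rw [h2, mul_zero]
  · rw [if_neg hi, one_mul]
theorem exists_DG (l : ℕ) {y : L} (hy : isY y) : ∃ D : GLV L, DG D l y ∧ D ∈ G L := by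
  have h1 : ∀ i : ℕ, isY (if i = l then y else 1) := by
    intro i
    split_ifs
    · exact hy
    · exact isY.one
  obtain ⟨D, hD⟩ := exists_isD (fun i => if i = l then y else 1) fun i => (h1 i).ne
  exact ⟨D, hD, hD.mem_G h1⟩
omit [StarRing L] [FD L] in
theorem DG.commute {D D' : GLV L} {k l : ℕ} {y y' : L} (hD : DG D k y) (hD' : DG D' l y') :
    D * D' = D' * D := by
  apply glv_ext
  intro i
  rw [mul_apply', mul_apply', hD.ei i, hD'.ei i, map_smul, map_smul, hD.ei i, hD'.ei i, smul_comm]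

/-- structure of plane-supported elements -/
theorem plane_decomp {M : Subgroup (GLV L)} (hMG : M ≤ G L) {k l : ℕ} (hkl : k ≠ l)
    (hPk : ∀ (y : L) (D : GLV L), isY y → DG D k y → D ∈ M) (hT : ∀ ζ : L, Sm ζ → TT M k l ζ)
    {A : GLV L} (hA : A ∈ G L) (hAp : PS k l A) :
    ∃ T ∈ M, PS k l T ∧ ∃ D : GLV L, ∃ x : L, isY x ∧ DG D l x ∧ A = T * D := by
  classical
  have hAI := hA.1
  set a₁ := (A (e k)) k with ha₁
  set a₂ := (A (e k)) l with ha₂
  have hAk : A (e k) = a₁ • e k + a₂ • e l := by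
    ext i
    rw [Finsupp.add_apply, Finsupp.smul_apply, Finsupp.smul_apply]
    by_cases hik : i = k
    · subst hik; rw [e_same, e_ne hkl.symm, smul_zero, add_zero, smul_eq_mul, mul_one]
    · by_cases hil : i = l
      · subst hil; rw [e_same, e_ne hkl, smul_zero, zero_add, smul_eq_mul, mul_one]
      · rw [e_ne (Ne.symm hik), e_ne (Ne.symm hil), smul_zero, smul_zero, add_zero,
          coord_fix hAI (hAp.e hik hil), e_ne (Ne.symm hik)]
  have hAC : Cl k (A (e k)) := fun i => hA.2.1 k i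
  have ha₁U : U1 a₁ := hAC.u1
  have ha₂s : Sm a₂ := hAC.sm hkl.symm
  have ha₁0 := ha₁U.ne
  obtain ⟨T, hTM, lam, hlam, hTe, hTf⟩ := hT (a₂ / a₁) (ha₂s.div_U1 ha₁U)
  have hTG := hMG hTM
  have hTp : PS k l T := hTf
  set D₁ := T⁻¹ * A with hD₁
  have hD₁G : D₁ ∈ G L := (G L).mul_mem ((G L).inv_mem hTG) hA
  have hD₁p : PS k l D₁ := hTp.inv.mul hAp
  have hD₁I := hD₁G.1
  have hD₁k : D₁ (e k) = (a₁ * lam⁻¹) • e k := by
    have h1 : A (e k) = T ((a₁ * lam⁻¹) • e k) := by
      rw [map_smul, hTe, hAk, smul_smul, mul_assoc, inv_mul_cancel₀ hlam, mul_one, smul_add,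
        smul_smul]
      congr 2
      field_simp
    rw [hD₁, mul_apply', h1, inv_apply_self']
  have hc0 : a₁ * lam⁻¹ ≠ 0 := mul_ne_zero ha₁0 (inv_ne_zero hlam)
  have hD₁l : D₁ (e l) = ((D₁ (e l)) l) • e l := by
    ext i
    rw [Finsupp.smul_apply, smul_eq_mul]
    by_cases hil : i = l
    · subst hil; rw [e_same, mul_one]
    · rw [e_ne (Ne.symm hil), mul_zero]
      by_cases hik : i = k
      · subst hik
        have h1 : (e i : ℕ →₀ L) = D₁ ((a₁ * lam⁻¹)⁻¹ • e i) := by
          rw [map_smul, hD₁k, smul_smul, inv_mul_cancel₀ hc0, one_smul]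
        rw [coord_eq, h1, hD₁I, h_smul_right, h_e_ne hkl.symm, mul_zero, mul_zero]
      · rw [coord_fix hD₁I (hD₁p.e hik hil), e_ne (Ne.symm hil)]
  set x := (D₁ (e l)) l with hx
  have hxY : isY x := eigen_isY hD₁G hD₁l
  have hcY : isY (a₁ * lam⁻¹) := eigen_isY hD₁G hD₁k
  obtain ⟨Dk, hDk, hDkG⟩ := exists_DG k hcY
  obtain ⟨Dl, hDl, hDlG⟩ := exists_DG l hxY
  have hprod : D₁ = Dk * Dl := by
    apply glv_ext
    intro i
    rw [mul_apply' Dk Dl, hDl.ei i, map_smul, hDk.ei i]
    by_cases hik : i = k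
    · subst hik
      rw [if_neg hkl, if_pos rfl, one_smul, hD₁k]
    · by_cases hil : i = l
      · subst hil
        rw [if_pos rfl, if_neg hik, one_smul]; exact hD₁l
      · rw [if_neg hil, if_neg hik, one_smul, one_smul, hD₁p.e hik hil]
  refine ⟨T * Dk, M.mul_mem hTM (hPk _ _ hcY hDk), hTp.mul hDk.ps_left, Dl, x, hxY, hDl, ?_⟩
  rw [mul_assoc, ← hprod, hD₁]
  group

theorem plane_conj {M : Subgroup (GLV L)} {k l : ℕ} (hkl : k ≠ l)
    (hPk : ∀ (y : L) (D : GLV L), isY y → DG D k y → D ∈ M) {T : GLV L} (hT : T ∈ M)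
    (hTp : PS k l T) (hTI : Iso T) {D : GLV L} {x : L} (hx : isY x) (hD : DG D l x) :
    D * T * D⁻¹ ∈ M := by
  classical
  obtain ⟨K, hK, -⟩ := exists_DG k hx
  have hKM := hPk x K hx hK
  -- `K * D` acts as the scalar `x` on the plane and commutes with `T`
  have hS : ∀ w : ℕ →₀ L, (∀ i, i ≠ k → i ≠ l → w i = 0) → (K * D) w = x • w := by
    intro w hw
    ext i
    rw [mul_apply', isD.apply hK, isD.apply hD, Finsupp.smul_apply, smul_eq_mul]
    by_cases hik : i = k
    · subst hik; rw [if_pos rfl, if_neg hkl, one_mul]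
    · by_cases hil : i = l
      · subst hil; rw [if_neg hik, if_pos rfl, one_mul]
      · rw [hw i hik hil]; simp
  have hTsupp : ∀ j, (j = k ∨ j = l) → ∀ i, i ≠ k → i ≠ l → (T (e j)) i = 0 := by
    intro j hj i hik hil
    rw [coord_fix hTI (hTp.e hik hil)]
    rcases hj with rfl | rfl
    · exact e_ne (Ne.symm hik)
    · exact e_ne (Ne.symm hil)
  have hesupp : ∀ j, (j = k ∨ j = l) → ∀ i, i ≠ k → i ≠ l → (e j : ℕ →₀ L) i = 0 := by
    intro j hj i hik hil
    rcases hj with rfl | rfl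
    · exact e_ne (Ne.symm hik)
    · exact e_ne (Ne.symm hil)
  have hcomm : (K * D) * T = T * (K * D) := by
    apply glv_ext
    intro j
    by_cases hj : j = k ∨ j = l
    · rw [mul_apply' (K * D) T, mul_apply' T (K * D), hS _ (hTsupp j hj), hS _ (hesupp j hj),
        map_smul]
    · push Not at hj
      have h1 : (K * D) (e j) = e j := by
        rw [mul_apply', hD.ei j, if_neg hj.2, one_smul, hK.ei j, if_neg hj.1, one_smul]
      rw [mul_apply' (K * D) T, mul_apply' T (K * D), hTp.e hj.1 hj.2, h1, hTp.e hj.1 hj.2]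
  have h1 : D * T * D⁻¹ = K⁻¹ * T * K := by
    calc D * T * D⁻¹ = K⁻¹ * ((K * D) * T) * (K * D)⁻¹ * K := by group
      _ = K⁻¹ * (T * (K * D)) * (K * D)⁻¹ * K := by rw [hcomm]
      _ = K⁻¹ * T * K := by group
  rw [h1]
  exact M.mul_mem (M.mul_mem (M.inv_mem hKM) hT) hKM

theorem plane_comm {M : Subgroup (GLV L)} (hMG : M ≤ G L) {k l : ℕ} (hkl : k ≠ l)
    (hPk : ∀ (y : L) (D : GLV L), isY y → DG D k y → D ∈ M) (hT : ∀ ζ : L, Sm ζ → TT M k l ζ)
    {A B : GLV L} (hA : A ∈ G L) (hAp : PS k l A) (hB : B ∈ G L) (hBp : PS k l B) :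
    A * B * A⁻¹ * B⁻¹ ∈ M := by
  obtain ⟨T₁, hT₁, hT₁p, D₁, x₁, hx₁, hD₁, rfl⟩ := plane_decomp hMG hkl hPk hT hA hAp
  obtain ⟨T₂, hT₂, hT₂p, D₂, x₂, hx₂, hD₂, rfl⟩ := plane_decomp hMG hkl hPk hT hB hBp
  have hc := hD₁.commute hD₂
  have h1 := plane_conj hkl hPk hT₂ hT₂p (hMG hT₂).1 hx₁ hD₁
  have h2 := plane_conj hkl hPk (M.inv_mem hT₁) hT₁p.inv (hMG (M.inv_mem hT₁)).1 hx₂ hD₂
  have hc' : D₂ * D₁⁻¹ = D₁⁻¹ * D₂ := by
    calc D₂ * D₁⁻¹ = D₁⁻¹ * (D₁ * D₂) * D₁⁻¹ := by group
      _ = D₁⁻¹ * (D₂ * D₁) * D₁⁻¹ := by rw [hc]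
      _ = D₁⁻¹ * D₂ := by group
  have h3 : T₁ * D₁ * (T₂ * D₂) * (T₁ * D₁)⁻¹ * (T₂ * D₂)⁻¹
      = T₁ * (D₁ * T₂ * D₁⁻¹) * (D₂ * T₁⁻¹ * D₂⁻¹) * T₂⁻¹ := by
    calc T₁ * D₁ * (T₂ * D₂) * (T₁ * D₁)⁻¹ * (T₂ * D₂)⁻¹
        = T₁ * D₁ * T₂ * (D₂ * D₁⁻¹) * T₁⁻¹ * D₂⁻¹ * T₂⁻¹ := by group
      _ = T₁ * D₁ * T₂ * (D₁⁻¹ * D₂) * T₁⁻¹ * D₂⁻¹ * T₂⁻¹ := by rw [hc']
      _ = T₁ * (D₁ * T₂ * D₁⁻¹) * (D₂ * T₁⁻¹ * D₂⁻¹) * T₂⁻¹ := by group
  rw [h3]
  exact M.mul_mem (M.mul_mem (M.mul_mem hT₁ h1) h2) (M.inv_mem hT₂)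

omit [FD L] in
theorem iso_of_basis {g : GLV L} (hg : ∀ i j, h (g (e i)) (g (e j)) = h (e i) (e j)) : Iso g := by
  have h1 : ∀ i : ℕ, ∀ y, h (g (e i)) (g y) = h (e i) y := by
    intro i y
    induction y using Finsupp.induction_linear with
    | zero => simp
    | add u v hu hv => rw [map_add, h_add_right, h_add_right, hu, hv]
    | single j c =>
      have : Finsupp.single j c = c • (e j : ℕ →₀ L) := by simp [e]
      rw [this, map_smul, h_smul_right, h_smul_right, hg]
  intro x y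
  induction x using Finsupp.induction_linear with
  | zero => simp
  | add u v hu hv => rw [map_add, h_add_left, h_add_left, hu, hv]
  | single i c =>
    have : Finsupp.single i c = c • (e i : ℕ →₀ L) := by simp [e]
    rw [this, map_smul, h_smul_left, h_smul_left, h1]

/-- linear map `SU(2)`-type -/
noncomputable def sul (k l : ℕ) (a b : L) : (ℕ →₀ L) →ₗ[L] (ℕ →₀ L) :=
  Finsupp.linearCombination L (fun m =>
    if m = k then a • (e k : ℕ →₀ L) + b • e l
    else if m = l then (-star b) • (e k : ℕ →₀ L) + star a • e l else e m)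

omit [FD L] in
theorem sul_e (k l : ℕ) (a b : L) (m : ℕ) : sul k l a b (e m) =
    if m = k then a • (e k : ℕ →₀ L) + b • e l
    else if m = l then (-star b) • (e k : ℕ →₀ L) + star a • e l else e m := by
  unfold sul
  conv_lhs => rw [show (e m : ℕ →₀ L) = Finsupp.single m 1 from rfl]
  rw [Finsupp.linearCombination_single, one_smul]

omit [FD L] in
theorem sul_comp {k l : ℕ} (hkl : k ≠ l) {a b : L} (hab : a * star a + b * star b = 1) :
    (sul k l a b).comp (sul k l (star a) (-b)) = LinearMap.id := by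
  apply lin_ext
  intro m
  rw [LinearMap.comp_apply, LinearMap.id_apply, sul_e]
  by_cases hmk : m = k
  · subst hmk
    rw [if_pos rfl, map_add, map_smul, map_smul, sul_e, sul_e, if_pos rfl, if_neg hkl.symm,
      if_pos rfl]
    have h1 : (star a) • (a • (e m : ℕ →₀ L) + b • e l) + (-b) • ((-star b) • e m + star a • e l)
        = (a * star a + b * star b) • e m := by module
    rw [h1, hab, one_smul]
  · by_cases hml : m = l
    · subst hml
      rw [if_neg hmk, if_pos rfl, map_add, map_smul, map_smul, sul_e, sul_e, if_pos rfl,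
        if_neg hmk, if_pos rfl, star_star, star_neg, neg_neg]
      have h1 : (star b) • (a • (e k : ℕ →₀ L) + b • e m) + a • ((-star b) • e k + star a • e m)
          = (a * star a + b * star b) • e m := by module
      rw [h1, hab, one_smul]
    · rw [if_neg hmk, if_neg hml, sul_e, if_neg hmk, if_neg hml]

theorem exists_su {k l : ℕ} (hk : 1 ≤ k) (hl : 1 ≤ l) (hkl : k ≠ l) {a b : L}
    (hab : a * star a + b * star b = 1) (ha : U1 a) (hb : Sm b) :
    ∃ A : GLV L, A ∈ G L ∧ PS k l A ∧ A (e k) = a • e k + b • e l ∧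
      A (e l) = (-star b) • e k + star a • e l := by
  have hab' : (star a) * star (star a) + (-b) * star (-b) = 1 := by
    rw [star_star, star_neg]; linear_combination hab
  have hc2 := sul_comp hkl hab'
  rw [star_star, neg_neg] at hc2
  let A : GLV L := LinearEquiv.ofLinearMap (sul k l a b) (sul k l (star a) (-b))
    (sul_comp hkl hab) hc2
  have hAe : ∀ m, A (e m) = if m = k then a • (e k : ℕ →₀ L) + b • e l
    else if m = l then (-star b) • (e k : ℕ →₀ L) + star a • e l else e m := fun m => sul_e k l a b m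
  have hAk : A (e k) = a • e k + b • e l := by rw [hAe, if_pos rfl]
  have hAl : A (e l) = (-star b) • e k + star a • e l := by
    rw [hAe, if_neg hkl.symm, if_pos rfl]
  have hAm : ∀ m, m ≠ k → m ≠ l → A (e m) = e m := by
    intro m h1 h2
    rw [hAe, if_neg h1, if_neg h2]
  have hAp : PS k l A := by
    intro v hvk hvl
    have hv : v = ∑ m ∈ v.support, v m • (e m : ℕ →₀ L) := by
      conv_lhs => rw [← Finsupp.sum_single v]
      unfold Finsupp.sum e
      apply Finset.sum_congr rfl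
      intro m _
      simp
    conv_lhs => rw [hv]
    conv_rhs => rw [hv]
    rw [map_sum]
    apply Finset.sum_congr rfl
    intro m hm
    rw [map_smul, hAm m]
    · rintro rfl
      exact (Finsupp.mem_support_iff.1 hm) hvk
    · rintro rfl
      exact (Finsupp.mem_support_iff.1 hm) hvl
  have hAI : Iso A := by
    apply iso_of_basis
    intro i j
    by_cases hik : i = k
    · rw [hik, hAk]
      by_cases hjk : j = k
      · rw [hjk, hAk]
        simp only [h_add_left, h_add_right, h_smul_left, h_smul_right, h_e_self, h_e_ne hkl,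
          h_e_ne hkl.symm, sg_pos hk, sg_pos hl]
        linear_combination hab
      · by_cases hjl : j = l
        · rw [hjl, hAl]
          simp only [h_add_left, h_add_right, h_smul_left, h_smul_right, h_e_self, h_e_ne hkl,
            h_e_ne hkl.symm, sg_pos hk, sg_pos hl, star_neg, star_star]
          ring
        · rw [hAm j hjk hjl]
          simp only [h_add_left, h_smul_left, h_e_ne (Ne.symm hjk), h_e_ne (Ne.symm hjl)]
          ring
    · by_cases hil : i = l
      · rw [hil, hAl]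
        by_cases hjk : j = k
        · rw [hjk, hAk]
          simp only [h_add_left, h_add_right, h_smul_left, h_smul_right, h_e_self, h_e_ne hkl,
            h_e_ne hkl.symm, sg_pos hk, sg_pos hl]
          ring
        · by_cases hjl : j = l
          · rw [hjl, hAl]
            simp only [h_add_left, h_add_right, h_smul_left, h_smul_right, h_e_self, h_e_ne hkl,
              h_e_ne hkl.symm, sg_pos hk, sg_pos hl, star_neg, star_star]
            linear_combination hab
          · rw [hAm j hjk hjl]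
            simp only [h_add_left, h_smul_left, h_e_ne (Ne.symm hjk), h_e_ne (Ne.symm hjl)]
            ring
      · rw [hAm i hik hil]
        by_cases hjk : j = k
        · rw [hjk, hAk]
          simp only [h_add_right, h_smul_right, h_e_ne hik, h_e_ne hil]
          ring
        · by_cases hjl : j = l
          · rw [hjl, hAl]
            simp only [h_add_right, h_smul_right, h_e_ne hik, h_e_ne hil]
            ring
          · rw [hAm j hjk hjl]
  refine ⟨A, ⟨hAI, ?_, ?_⟩, hAp, hAk, hAl⟩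
  · intro m i
    by_cases hmk : m = k
    · rw [hmk, hAk, Finsupp.sub_apply, Finsupp.add_apply, Finsupp.smul_apply, Finsupp.smul_apply,
        smul_eq_mul, smul_eq_mul]
      by_cases hik : i = k
      · rw [hik, e_same, e_ne hkl.symm, mul_one, mul_zero, add_zero]; exact ha
      · by_cases hil : i = l
        · rw [hil, e_same, e_ne hkl, mul_one, mul_zero, zero_add, sub_zero]; exact hb
        · rw [e_ne (Ne.symm hik), e_ne (Ne.symm hil), mul_zero, mul_zero, add_zero, sub_zero]
          exact Sm.zero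
    · by_cases hml : m = l
      · rw [hml, hAl, Finsupp.sub_apply, Finsupp.add_apply, Finsupp.smul_apply, Finsupp.smul_apply,
          smul_eq_mul, smul_eq_mul]
        by_cases hil : i = l
        · rw [hil, e_same, e_ne hkl, mul_one, mul_zero, zero_add]; exact ha.conj
        · by_cases hik : i = k
          · rw [hik, e_same, e_ne hkl.symm, mul_one, mul_zero, add_zero, sub_zero]
            exact hb.conj.neg
          · rw [e_ne (Ne.symm hik), e_ne (Ne.symm hil), mul_zero, mul_zero, add_zero, sub_zero]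
            exact Sm.zero
      · rw [hAm m hmk hml, sub_self]; exact Sm.zero
  · refine ⟨max k l + 1, fun m hm => ⟨1, ?_⟩⟩
    have h1 : k ≤ max k l := le_max_left _ _
    have h2 : l ≤ max k l := le_max_right _ _
    rw [hAm m (by omega) (by omega), one_smul]

/-- Step II -/
theorem stepII {M : Subgroup (GLV L)} (hMG : M ≤ G L) {k l : ℕ} (hk : 1 ≤ k) (hl : 1 ≤ l)
    (hkl : k ≠ l) (hPk : ∀ (y : L) (D : GLV L), isY y → DG D k y → D ∈ M)
    (hT : ∀ ζ : L, Sm ζ → TT M k l ζ) {y : L} (hy : isY y) {D : GLV L} (hD : DG D l y) :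
    D ∈ M := by
  classical
  obtain ⟨μ, hμ, hμ2⟩ := hy.exists_root (n := 2) (by norm_num)
  have hi2 := im_sq (L := L)
  have h2 := two_ne (L := L)
  have hμ0 := hμ.ne
  obtain ⟨m, hm⟩ : ∃ m : L, m = -(im L) * (μ - star μ) * 2⁻¹ := ⟨_, rfl⟩
  have hmr : star m = m := by rw [hm]; simp; ring
  have hms : Sm m := by
    have h1 : Sm (μ - star μ) := by
      have : μ - star μ = (μ - 1) - (star μ - 1) := by ring
      rw [this]; exact hμ.sm.sub hμ.conj.sm
    rw [hm]
    exact (Bd.im.neg.mul_sm h1).mul Bd.inv_two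
  have hmeq : μ - star μ = 2 * im L * m := by
    rw [hm]; field_simp; linear_combination (μ - star μ) * hi2
  have hνm : ν m < 1 := by rw [← N_real hmr]; exact hms
  obtain ⟨κ, hκr, hκm, hκ1⟩ := exists_real_val (L := L) hνm
  have hνκ : 0 < ν κ := lt_of_le_of_lt (ν_nonneg m) hκm
  have hκ0 : κ ≠ 0 := by
    rintro rfl
    rw [ν_zero] at hνκ
    exact lt_irrefl _ hνκ
  have hκs : Sm κ := by unfold Sm; rwa [N_real hκr]
  have hmκr : star (m / κ) = m / κ := by rw [star_div₀, hmr, hκr]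
  have hmκs : Sm (m / κ) := by
    unfold Sm
    rw [N_real hmκr, ν_div, div_lt_one hνκ]; exact hκm
  -- a₀ and k₀
  have hsq : ∀ r : L, star r = r → Sm r → ∃ s : L, star s = s ∧ s * s * (1 + r ^ 2) = 1 ∧ U1 s := by
    intro r hr hrs
    have h1 : U1 (1 + r ^ 2) := by rw [sq]; exact (hrs.mul hrs.bd).one_add
    have h3 : star (1 + r ^ 2) = 1 + r ^ 2 := by simp [hr]
    have h4 : 0 < re (1 + r ^ 2) := by
      rw [re_add, re_one, sq, re_mul hr]
      nlinarith [mul_self_nonneg (re r)]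
    obtain ⟨s, hs, hss, hsU⟩ := exists_U1_sqrt h3 h4 h1
    refine ⟨s⁻¹, by rw [star_inv₀, hs], ?_, hsU.inv⟩
    rw [← hss]
    have := hsU.ne
    field_simp
  obtain ⟨a₀, ha₀r, ha₀, ha₀U⟩ := hsq (m / κ) hmκr hmκs
  obtain ⟨k₀, hk₀r, hk₀, hk₀U⟩ := hsq κ hκr hκs
  have hμμ := hμ.1
  -- A and B
  obtain ⟨A, hAG, hAp, hAk, hAl⟩ := exists_su hk hl hkl (a := a₀ * star μ)
    (b := -(im L * a₀ * μ * (m / κ)))
    (by
      simp only [star_mul', star_neg, star_star, ha₀r, hmκr, star_im]
      linear_combination ha₀ + (a₀ * a₀ - a₀ * a₀ * (m / κ) ^ 2 * (im L) ^ 2) * hμμ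
        - a₀ * a₀ * (m / κ) ^ 2 * hi2)
    (ha₀U.mul hμ.conj.2) (((Bd.im.mul ha₀U.bd).mul hμ.2.bd).mul_sm hmκs).neg
  obtain ⟨B, hBG, hBp, hBk, hBl⟩ := exists_su hk hl hkl (a := k₀ * μ) (b := k₀ * κ)
    (by
      simp only [star_mul', hk₀r, hκr]
      linear_combination hk₀ + (k₀ * k₀) * hμμ)
    (hk₀U.mul hμ.2) (hk₀U.bd.mul_sm hκs)
  have hcomm := plane_comm hMG hkl hPk hT hAG hAp hBG hBp
  -- the diagonal element
  obtain ⟨Dk, hDk, hDkG⟩ := exists_DG k (hμ.conj.mul hμ.conj)
  have hDl := hD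
  have hyμ : y = μ * μ := by rw [← hμ2, sq]
  have hkey : A * B = (Dk * D) * (B * A) := by
    have hDe : ∀ (u v : L), (Dk * D) (u • e k + v • e l)
        = (star μ * star μ * u) • e k + (μ * μ * v) • (e l : ℕ →₀ L) := by
      intro u v
      rw [mul_apply', map_add, map_smul, map_smul, hD.ei k, hD.ei l, if_neg hkl, if_pos rfl,
        one_smul, map_add, map_smul, map_smul, map_smul, hDk.ei k, hDk.ei l, if_pos rfl,
        if_neg hkl.symm, one_smul, smul_smul, smul_smul, hyμ]
      congr 2 <;> ring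
    have hsκ : κ * (m / κ) = m := by field_simp
    apply glv_ext
    intro i
    by_cases hik : i = k
    · subst hik
      have e1 : (A * B) (e i) = (k₀ * μ * (a₀ * star μ) + k₀ * κ * (-star (-(im L * a₀ * μ * (m / κ)))))
          • e i + (k₀ * μ * (-(im L * a₀ * μ * (m / κ))) + k₀ * κ * star (a₀ * star μ)) • e l := by
        rw [mul_apply', hBk, map_add, map_smul, map_smul, hAk, hAl]
        module
      have e2 : (B * A) (e i) = (a₀ * star μ * (k₀ * μ) + (-(im L * a₀ * μ * (m / κ))) * (-star (k₀ * κ)))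
          • e i + (a₀ * star μ * (k₀ * κ) + (-(im L * a₀ * μ * (m / κ))) * star (k₀ * μ)) • e l := by
        rw [mul_apply', hAk, map_add, map_smul, map_smul, hBk, hBl]
        module
      rw [e1, mul_apply' (Dk * D), e2, hDe]
      simp only [star_mul', star_neg, star_star, ha₀r, hk₀r, hmκr, star_im, hκr]
      congr 2
      · -- coefficient of e k
        linear_combination (a₀ * k₀) * ((-(star μ) ^ 2 - im L * star μ * m) * hμμ
          + (star μ) * hmeq) - (a₀ * k₀ * im L * (star μ + μ * (star μ) ^ 2)) * hsκ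
      · linear_combination (k₀ * a₀ * μ * κ - k₀ * a₀ * im L * (m/κ) * μ * μ) * (-1 : L) * hμμ
    · by_cases hil : i = l
      · subst hil
        have e1 : (A * B) (e i) = ((-star (k₀ * κ)) * (a₀ * star μ) + star (k₀ * μ) *
            (-star (-(im L * a₀ * μ * (m / κ))))) • e k
            + ((-star (k₀ * κ)) * (-(im L * a₀ * μ * (m / κ))) + star (k₀ * μ) * star (a₀ * star μ))
            • e i := by
          rw [mul_apply', hBl, map_add, map_smul, map_smul, hAk, hAl]
          module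
        have e2 : (B * A) (e i) = ((-star (-(im L * a₀ * μ * (m / κ)))) * (k₀ * μ)
            + star (a₀ * star μ) * (-star (k₀ * κ))) • e k
            + ((-star (-(im L * a₀ * μ * (m / κ)))) * (k₀ * κ) + star (a₀ * star μ) * star (k₀ * μ))
            • e i := by
          rw [mul_apply', hAl, map_add, map_smul, map_smul, hBk, hBl]
          module
        rw [e1, mul_apply' (Dk * D), e2, hDe]
        simp only [star_mul', star_neg, star_star, ha₀r, hk₀r, hmκr, star_im, hκr]
        congr 2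
        · linear_combination (a₀ * k₀ * star μ * (κ + im L * star μ * (m / κ))) * hμμ
        · linear_combination (a₀ * k₀) * ((im L * μ * m - μ ^ 2) * hμμ - μ * hmeq)
            + (a₀ * k₀ * im L * (μ + μ ^ 2 * star μ)) * hsκ
      · rw [mul_apply' A B, mul_apply' (Dk * D), mul_apply' B A, hBp.e hik hil, hAp.e hik hil,
          hBp.e hik hil, mul_apply', hD.ei i, if_neg hil, one_smul, hDk.ei i, if_neg hik, one_smul]
  have h3 : Dk * D = A * B * A⁻¹ * B⁻¹ := by
    have : A * B * A⁻¹ * B⁻¹ = (A * B) * (B * A)⁻¹ := by group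
    rw [this, hkey]; group
  have h4 : Dk * D ∈ M := by rw [h3]; exact hcomm
  have h5 : D = Dk⁻¹ * (Dk * D) := by group
  rw [h5]
  exact M.mul_mem (M.inv_mem (hPk _ _ (hμ.conj.mul hμ.conj) hDk)) h4

end stepc

end Pool.Agent.NoMax
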