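import Pool.Agent.Lib.MP_e2b313_al.LemZ
import Pool.Agent.Lib.MP_e2b313_al.Cla1

namespace Pool.Agent.NoMax

section trick

variable {L : Type} [Field L] [StarRing L] [FD L]

omit [FD L] in
theorem Iso.h_inv {T : GLV L} (hT : Iso T) (v w : ℕ →₀ L) : h (T⁻¹ v) w = h v (T w) := by
  rw [← hT (T⁻¹ v) w, apply_inv_self']

theorem RM.map {M : Subgroup (GLV L)} {w : ℕ →₀ L} (H : RM M w) {T : GLV L} (hT : T ∈ M)
    (hTi : Iso T) : RM M (T w) := by
  refine ⟨by rw [hTi]; exact H.1, fun y hy => ?_⟩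
  obtain ⟨R, hR, hRw⟩ := H.2 y hy
  refine ⟨T * R * T⁻¹, M.mul_mem (M.mul_mem hT hR) (M.inv_mem hT), ?_⟩
  intro v
  rw [mul_apply', mul_apply', hRw, map_add, map_smul, apply_inv_self', hTi.h_inv, hTi]

theorem RM.smul {M : Subgroup (GLV L)} {w : ℕ →₀ L} (H : RM M w) {c : L} (hc : c ≠ 0) :
    RM M (c • w) := by
  have hcs : star c ≠ 0 := star_ne_zero.2 hc
  have h0 := H.1
  refine ⟨?_, fun y hy => ?_⟩
  · rw [h_smul_left, h_smul_right]
    exact mul_ne_zero hc (mul_ne_zero hcs h0)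
  obtain ⟨R, hR, hRw⟩ := H.2 y hy
  refine ⟨R, hR, ?_⟩
  intro v
  rw [hRw, h_smul_left, h_smul_right, h_smul_right, smul_smul]
  congr 2
  field_simp

theorem RM_e_of_PiIn {M : Subgroup (GLV L)} {j : ℕ} (hM : PiIn M j) {k : ℕ} (hk : j ≤ k) :
    RM M (e k) := by
  classical
  refine ⟨by rw [h_e_self]; exact sg_ne k, fun y hy => ?_⟩
  let c : ℕ → L := fun i => if i = k then y else 1
  have hc : ∀ i, isY (c i) := by
    intro i
    change isY (if i = k then y else 1)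
    split_ifs
    · exact hy
    · exact isY.one
  obtain ⟨D, hD⟩ := exists_isD c fun i => (hc i).ne
  refine ⟨D, hM D c hD hc ?_, ?_⟩
  · intro i hi
    change (if i = k then y else 1) = 1
    rw [if_neg (by omega)]
  · intro v
    ext i
    rw [hD.apply, Finsupp.add_apply, Finsupp.smul_apply, h_e_self, h_e_right, smul_eq_mul]
    change (if i = k then y else 1) * v i = _
    have hsg := sg_ne (L := L) k
    by_cases hi : i = k
    · subst hi
      rw [if_pos rfl, e_same]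
      field_simp
      ring
    · rw [if_neg hi, e_ne (Ne.symm hi)]
      ring

/-- availability of the plane transformation `T_ζ` in the plane `(e k, e l)` -/
def TT (M : Subgroup (GLV L)) (k l : ℕ) (ζ : L) : Prop :=
  ∃ T ∈ M, ∃ lam : L, lam ≠ 0 ∧ T (e k) = lam • (e k + ζ • e l) ∧
    ∀ v : ℕ →₀ L, v k = 0 → v l = 0 → T v = v

theorem TT_of_driver {M : Subgroup (GLV L)} {k l : ℕ} (hk : 1 ≤ k) (hkl : k ≠ l)
    (hRk : RM M (e k)) {a b : L} (ha : U1 a) (hb : Sm b) (hb0 : b ≠ 0)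
    (hd : RM M (a • e k + b • e l)) {ζ : L} (hζ : Sm (ζ * a / b))
    (hpos : 0 < re (1 + sg l * (ζ * star ζ))) : TT M k l ζ := by
  have ha0 := ha.ne
  have has0 := ha.conj.ne
  have hbs0 : star b ≠ 0 := star_ne_zero.2 hb0
  have hpq : h (a • (e k : ℕ →₀ L)) (b • e l) = 0 := by
    rw [h_smul_left, h_smul_right, h_e_ne hkl, mul_zero, mul_zero]
  have hpp : h (a • (e k : ℕ →₀ L)) (a • e k) = a * star a := by
    rw [h_smul_left, h_smul_right, h_e_self, sg_pos hk, mul_one]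
  have hqq : h (b • (e l : ℕ →₀ L)) (b • e l) = b * star b * sg l := by
    rw [h_smul_left, h_smul_right, h_e_self, mul_assoc]
  have hr : Sm (h (b • (e l : ℕ →₀ L)) (b • e l) / h (a • (e k : ℕ →₀ L)) (a • e k)) := by
    rw [hpp, hqq]
    exact ((hb.mul hb.conj.bd).mul (Bd.sg l)).div_U1 (ha.mul ha.conj)
  have hpos' : 0 < re (1 + h (b • (e l : ℕ →₀ L)) (b • e l) / h (a • (e k : ℕ →₀ L)) (a • e k)
      * ((ζ * a / b) * star (ζ * a / b))) := by
    rw [hpp, hqq, star_div₀, star_mul']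
    have : b * star b * sg l / (a * star a) * (ζ * a / b * (star ζ * star a / star b))
        = sg l * (ζ * star ζ) := by field_simp
    rw [this]; exact hpos
  obtain ⟨T, hT, lam, hlam, hTp, hfix⟩ := plane hpq hr (hRk.smul ha0) hd hζ hpos'
  refine ⟨T, hT, lam, hlam, ?_, ?_⟩
  · have h1 : a • T (e k) = a • (lam • (e k + ζ • e l)) := by
      rw [← map_smul, hTp]
      have : (ζ * a / b) • (b • (e l : ℕ →₀ L)) = (ζ * a) • e l := by
        rw [smul_smul]; congr 1; field_simp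
      rw [this]
      module
    exact smul_right_injective _ ha0 h1
  · intro v hvk hvl
    apply hfix
    · rw [h_smul_right, h_e_right, hvk, mul_zero, mul_zero]
    · rw [h_smul_right, h_e_right, hvl, mul_zero, mul_zero]

theorem cay_eq {t : L} (ht : Sm t) :
    cay t = 1 + 2 * t * (im L - t) / (1 + t ^ 2) := by
  have h1 := (cay_den ht).ne
  have h2 : U1 (1 + t ^ 2) := by rw [sq]; exact (ht.mul ht.bd).one_add
  have h3 := h2.ne
  unfold cay
  field_simp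
  linear_combination (2 * t ^ 2) * im_sq (L := L)

theorem star_cay_eq {t : L} (hr : star t = t) (ht : Sm t) :
    star (cay t) = 1 + 2 * t * (-im L - t) / (1 + t ^ 2) := by
  rw [cay_eq ht, star_add, star_div₀, star_add, star_mul', star_mul', star_sub, star_im, star_pow,
    hr, star_one, star_ofNat]

omit [StarRing L] [FD L] in
/-- the algebraic identity behind the two-reflection trick -/
theorem trick_identity (I t φ ξ A B : L) (hI : I ^ 2 = -1) (h1 : 1 + t ^ 2 ≠ 0)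
    (h2 : 1 + φ ^ 2 ≠ 0) (h3 : 1 + ξ ^ 2 ≠ 0)
    (hE : φ * (1 + ξ ^ 2) = t * ((φ ^ 2 - 2 * φ ^ 2 * B) * (1 + ξ ^ 2) - 2 * ξ ^ 2 * A * (1 + φ ^ 2))) :
    (2 * t * (I - t) / (1 + t ^ 2)) *
        ((1 + 2 * φ * (I - φ) / (1 + φ ^ 2)) + (2 * t * (-I - t) / (1 + t ^ 2)) *
          (1 + (2 * φ * (I - φ) / (1 + φ ^ 2)) * B + (2 * ξ * (I - ξ) / (1 + ξ ^ 2)) * A))
      + (2 * t * (-I - t) / (1 + t ^ 2)) *
        ((1 + 2 * φ * (-I - φ) / (1 + φ ^ 2)) + (2 * t * (I - t) / (1 + t ^ 2)) *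
          (1 + (2 * φ * (-I - φ) / (1 + φ ^ 2)) * B + (2 * ξ * (-I - ξ) / (1 + ξ ^ 2)) * A))
      = (2 * t * (I - t) / (1 + t ^ 2)) * (2 * t * (-I - t) / (1 + t ^ 2)) := by
  have e1 : (2 * t * (I - t) / (1 + t ^ 2)) * (2 * t * (-I - t) / (1 + t ^ 2))
      = 4 * t ^ 2 / (1 + t ^ 2) := by
    field_simp
    linear_combination (-4 * t ^ 2) * hI
  have e2 : (2 * t * (I - t) / (1 + t ^ 2)) * (1 + 2 * φ * (I - φ) / (1 + φ ^ 2))
      + (2 * t * (-I - t) / (1 + t ^ 2)) * (1 + 2 * φ * (-I - φ) / (1 + φ ^ 2))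
      = -4 * t * (2 * φ + t * (1 - φ ^ 2)) / ((1 + t ^ 2) * (1 + φ ^ 2)) := by
    have : (2 * t * (I - t) / (1 + t ^ 2)) * (1 + 2 * φ * (I - φ) / (1 + φ ^ 2))
      + (2 * t * (-I - t) / (1 + t ^ 2)) * (1 + 2 * φ * (-I - φ) / (1 + φ ^ 2))
      = 4 * t * (2 * I ^ 2 * φ - t * (1 - φ ^ 2)) / ((1 + t ^ 2) * (1 + φ ^ 2)) := by
      field_simp
      ring
    rw [this, hI]
    ring
  have e3 : (1 + (2 * φ * (I - φ) / (1 + φ ^ 2)) * B + (2 * ξ * (I - ξ) / (1 + ξ ^ 2)) * A)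
      + (1 + (2 * φ * (-I - φ) / (1 + φ ^ 2)) * B + (2 * ξ * (-I - ξ) / (1 + ξ ^ 2)) * A)
      = 2 - 4 * φ ^ 2 * B / (1 + φ ^ 2) - 4 * ξ ^ 2 * A / (1 + ξ ^ 2) := by
    field_simp
    ring
  have e4 : (-4 * t * (2 * φ + t * (1 - φ ^ 2)) / ((1 + t ^ 2) * (1 + φ ^ 2)))
      + (4 * t ^ 2 / (1 + t ^ 2)) * (2 - 4 * φ ^ 2 * B / (1 + φ ^ 2) - 4 * ξ ^ 2 * A / (1 + ξ ^ 2))
      = 4 * t ^ 2 / (1 + t ^ 2) := by
    field_simp
    linear_combination (-8 * t) * hE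
  set a := (2 * t * (I - t) / (1 + t ^ 2)) with ha
  set a' := (2 * t * (-I - t) / (1 + t ^ 2)) with ha'
  linear_combination e2 + e1 * ((1 + (2 * φ * (I - φ) / (1 + φ ^ 2)) * B + (2 * ξ * (I - ξ) / (1 + ξ ^ 2)) * A)
      + (1 + (2 * φ * (-I - φ) / (1 + φ ^ 2)) * B + (2 * ξ * (-I - ξ) / (1 + ξ ^ 2)) * A))
      + (4 * t ^ 2 / (1 + t ^ 2)) * e3 + e4 - e1

theorem N_inv_star (x : L) : N ((star x)⁻¹) = N (x⁻¹) := by
  rw [← star_inv₀, N_star]

/-- The two-reflection trick. -/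
theorem trick {M : Subgroup (GLV L)} (hMG : M ≤ G L) {i k : ℕ} (hi : 1 ≤ i) (hk : 1 ≤ k)
    (hik : i ≠ k) (Ri : RM M (e i)) (Rk : RM M (e k)) {u : ℕ →₀ L} (hu : h u u = 1)
    (Ru : RM M u) (hα : U1 (u i)) (hβ : Sm (u k)) (hβ0 : u k ≠ 0) {ξ : L} (hξ : star ξ = ξ)
    (hξs : Sm ξ) (hξ0 : ξ ≠ 0) :
    ∃ a b : L, U1 a ∧ Sm b ∧ b ≠ 0 ∧ N (b⁻¹) ≤ N ((u k)⁻¹) * ((ν ξ)⁻¹) ^ 2 ∧
      RM M (a • e k + b • e i) := by
  have h20 := two_ne (L := L)
  set α := u i with hαd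
  set β := u k with hβd
  set A := α * star α with hA
  set B := β * star β with hB
  have hAs : star A = A := star_mul_star α
  have hBs : star B = B := star_mul_star β
  have hAU : U1 A := hα.mul hα.conj
  have hBsm : Sm B := hβ.mul hβ.conj.bd
  set φ := ξ ^ 3 with hφ
  have hφr : star φ = φ := by rw [hφ, star_pow, hξ]
  have hφs : Sm φ := by rw [hφ, pow_succ]; exact Bd.mul_sm (by rw [sq]; exact (hξs.bd.mul hξs.bd)) hξs
  have hξ2 : U1 (1 + ξ ^ 2) := by rw [sq]; exact (hξs.mul hξs.bd).one_add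
  have hφ2 : U1 (1 + φ ^ 2) := by rw [sq]; exact (hφs.mul hφs.bd).one_add
  set κ := A * (1 + φ ^ 2) / (1 + ξ ^ 2) - ξ ^ 4 * (1 - 2 * B) * 2⁻¹ with hκ
  have hξ4 : Sm (ξ ^ 4) := by
    rw [show ξ ^ 4 = ξ * (ξ * (ξ * ξ)) by ring]
    exact hξs.mul (hξs.bd.mul (hξs.bd.mul hξs.bd))
  have hκU : U1 κ := by
    apply U1.sub_sm ((hAU.mul hφ2).div hξ2)
    exact (hξ4.mul (Bd.two.mul_sm hBsm).one_sub.bd).mul Bd.inv_two
  have hκs : star κ = κ := by
    rw [hκ]; simp [hAs, hBs, hφr, hξ]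
  have hκ0 := hκU.ne
  set t := -ξ * 2⁻¹ / κ with ht
  have htr : star t = t := by rw [ht]; simp [hκs, hξ]
  have hts : Sm t := (hξs.neg.mul Bd.inv_two).div_U1 hκU
  have hνt : ν t = ν ξ := by
    rw [ht, ν_div, ν_mul, ν_neg, hκU.ν_eq, ν_inv, FD.ν_two]; simp
  have ht0 : t ≠ 0 := by
    intro h0
    rw [h0, ν_zero] at hνt
    exact hξ0 (ν_eq_zero.1 hνt.symm)
  have ht2 : U1 (1 + t ^ 2) := by rw [sq]; exact (hts.mul hts.bd).one_add
  have hE : φ * (1 + ξ ^ 2)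
      = t * ((φ ^ 2 - 2 * φ ^ 2 * B) * (1 + ξ ^ 2) - 2 * ξ ^ 2 * A * (1 + φ ^ 2)) := by
    have h1 : κ * (1 + ξ ^ 2) * 2 = 2 * A * (1 + φ ^ 2) - ξ ^ 4 * (1 - 2 * B) * (1 + ξ ^ 2) := by
      rw [hκ]
      have := hξ2.ne
      field_simp
    have h3 : (φ ^ 2 - 2 * φ ^ 2 * B) * (1 + ξ ^ 2) - 2 * ξ ^ 2 * A * (1 + φ ^ 2)
        = - (ξ ^ 2 * (κ * (1 + ξ ^ 2) * 2)) := by
      rw [h1, hφ]; ring
    rw [h3, ht, hφ]
    field_simp
  -- the three unit numbers
  have hx : isY (cay ξ) := isY_cay hξ hξs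
  have hx' : isY (cay φ) := isY_cay hφr hφs
  have hy : isY (cay t) := isY_cay htr hts
  set x := cay ξ with hxd
  set x' := cay φ with hx'd
  set y := cay t with hyd
  obtain ⟨Xi, hXi, hXiR⟩ := Ri.2 x hx
  obtain ⟨Xk, hXk, hXkR⟩ := Rk.2 x' hx'
  have hsi : (sg i : L) = 1 := sg_pos hi
  have hsk : (sg k : L) = 1 := sg_pos hk
  have hXku : Xk u = u + ((x' - 1) * β) • e k := by
    rw [hXkR, h_e_self, h_e_right, hsk, one_mul, div_one]
  have hXu : Xi (Xk u) = u + ((x' - 1) * β) • e k + ((x - 1) * α) • e i := by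
    rw [hXiR, hXku, h_e_self, h_e_right, hsi, one_mul, div_one, Finsupp.add_apply,
      Finsupp.smul_apply, e_ne (Ne.symm hik), smul_zero, add_zero]
  set u' := u + ((x' - 1) * β) • e k + ((x - 1) * α) • (e i : ℕ →₀ L) with hu'
  have hXiI : Iso Xi := (hMG hXi).1
  have hXkI : Iso Xk := (hMG hXk).1
  have Ru' : RM M u' := by
    rw [← hXu]; exact (Ru.map hXk hXkI).map hXi hXiI
  have hu'u' : h u' u' = 1 := by rw [← hXu, hXiI, hXkI, hu]
  have huu' : h u u' = 1 + (star x' - 1) * B + (star x - 1) * A := by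
    rw [hu', h_add_right, h_add_right, hu, h_smul_right, h_smul_right, h_e_right, h_e_right, hsk,
      hsi, star_mul', star_mul', star_sub, star_sub, star_one]
    rw [hA, hB]; ring
  have heku : h (e k) u = star β := by rw [h_e_left, hsk, one_mul]
  have heku' : h (e k) u' = star x' * star β := by
    rw [h_e_left, hsk, one_mul, hu', Finsupp.add_apply, Finsupp.add_apply, Finsupp.smul_apply,
      Finsupp.smul_apply, e_same, e_ne hik, smul_zero, add_zero, smul_eq_mul, mul_one, ← hβd]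
    rw [show β + (x' - 1) * β = x' * β by ring, star_mul']
  set a := y - 1 with had
  have haS : Sm a := hy.sm
  set τ := 1 + (star x' - 1) * B + (star x - 1) * A with hτ
  have hτb : Bd τ := by
    have e1 : Bd (star x' - 1) := hx'.conj.2.sm.bd
    have e2 : Bd (star x - 1) := hx.conj.2.sm.bd
    exact (Bd.one.add (e1.mul hBsm.bd)).add (e2.mul hAU.bd)
  set A' := star x' + a * τ with hA'
  have hA'U : U1 A' := hx'.conj.2.add_sm (haS.mul hτb)
  have hA'0 := hA'U.ne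
  have hA's0 := hA'U.conj.ne
  have hstarA' : star A' = x' + star a * (1 + (x' - 1) * B + (x - 1) * A) := by
    rw [hA', hτ]; simp [hAs, hBs]
  have hstara : star a = star y - 1 := by rw [had]; simp
  have hident : a * star A' + star a * A' = a * star a := by
    have hid := trick_identity (im L) t φ ξ A B im_sq ht2.ne hφ2.ne hξ2.ne hE
    have e1 : 2 * t * (im L - t) / (1 + t ^ 2) = a := by rw [had, hyd, cay_eq hts]; ring
    have e2 : 2 * t * (-im L - t) / (1 + t ^ 2) = star a := by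
      rw [hstara, hyd, star_cay_eq htr hts]; ring
    have e3 : 2 * φ * (im L - φ) / (1 + φ ^ 2) = x' - 1 := by rw [hx'd, cay_eq hφs]; ring
    have e4 : 2 * φ * (-im L - φ) / (1 + φ ^ 2) = star x' - 1 := by
      rw [hx'd, star_cay_eq hφr hφs]; ring
    have e5 : 2 * ξ * (im L - ξ) / (1 + ξ ^ 2) = x - 1 := by rw [hxd, cay_eq hξs]; ring
    have e6 : 2 * ξ * (-im L - ξ) / (1 + ξ ^ 2) = star x - 1 := by
      rw [hxd, star_cay_eq hξ hξs]; ring
    rw [e1, e2, e3, e4, e5, e6] at hid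
    rw [hstarA', hA', hτ]
    linear_combination hid
  have hy' : isY (1 - a / A') := by
    refine ⟨?_, (haS.div_U1 hA'U).one_sub⟩
    rw [star_sub, star_one, star_div₀]
    field_simp
    linear_combination -hident
  obtain ⟨R, hR, hRu⟩ := Ru.2 y hy
  obtain ⟨R', hR', hRu'⟩ := Ru'.2 _ hy'
  have hT : (R' * R) (e k) = (1 - a * B * (x' - 1)) • e k + (-(a * star β * (x - 1) * α)) • e i := by
    rw [mul_apply', hRu, hu, div_one, heku, hRu', hu'u', div_one, h_add_left, h_smul_left, huu',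
      heku']
    have e1 : (1 - a / A' - 1) * (star x' * star β + a * star β * τ) = - (a * star β) := by
      have e2 : star x' * star β + a * star β * τ = star β * A' := by rw [hA']; ring
      rw [e2]; field_simp; ring
    rw [e1, hu', hB]
    module
  refine ⟨1 - a * B * (x' - 1), -(a * star β * (x - 1) * α), ?_, ?_, ?_, ?_, ?_⟩
  · exact Sm.one_sub ((haS.mul hBsm.bd).mul hx'.sm.bd)
  · exact (((haS.mul hβ.conj.bd).mul hx.sm.bd).mul hα.bd).neg
  · apply neg_ne_zero.2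
    have e1 : a ≠ 0 := by
      intro h0
      have h1 := cay_sub_one hts
      rw [← hyd, ← had, h0] at h1
      have h2 := (cay_den hts).ne
      field_simp at h1
      have h3 := im_ne (L := L)
      rw [zero_mul] at h1
      exact (mul_ne_zero (mul_ne_zero h20 h3) ht0) h1.symm
    have e2 : x - 1 ≠ 0 := by
      intro h0
      have h1 := cay_sub_one hξs
      rw [← hxd, h0] at h1
      have h2 := (cay_den hξs).ne
      field_simp at h1
      have h3 := im_ne (L := L)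
      rw [zero_mul] at h1
      exact (mul_ne_zero (mul_ne_zero h20 h3) hξ0) h1.symm
    exact mul_ne_zero (mul_ne_zero (mul_ne_zero e1 (star_ne_zero.2 hβ0)) e2) hα.ne
  · rw [inv_neg, N_neg, mul_inv, mul_inv, mul_inv]
    have e1 : N (a⁻¹) = (ν ξ)⁻¹ := by rw [had, hyd, N_cay_sub_one_inv htr hts, hνt]
    have e2 : N ((x - 1)⁻¹) = (ν ξ)⁻¹ := by rw [hxd, N_cay_sub_one_inv hξ hξs]
    have e3 : N ((star β)⁻¹) = N (β⁻¹) := N_inv_star β
    have e4 : N (α⁻¹) = 1 := hα.N_inv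
    have hνp : 0 ≤ (ν ξ)⁻¹ := inv_nonneg.2 (ν_nonneg ξ)
    calc N (a⁻¹ * (star β)⁻¹ * (x - 1)⁻¹ * α⁻¹)
        ≤ N (a⁻¹ * (star β)⁻¹ * (x - 1)⁻¹) * N (α⁻¹) := N_mul _ _
      _ = N (a⁻¹ * (star β)⁻¹ * (x - 1)⁻¹) := by rw [e4, mul_one]
      _ ≤ N (a⁻¹ * (star β)⁻¹) * N ((x - 1)⁻¹) := N_mul _ _
      _ ≤ (N (a⁻¹) * N ((star β)⁻¹)) * N ((x - 1)⁻¹) :=
          mul_le_mul_of_nonneg_right (N_mul _ _) (N_nonneg _)
      _ = N (β⁻¹) * ((ν ξ)⁻¹) ^ 2 := by rw [e1, e2, e3]; ring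
  · rw [← hT]
    exact Rk.map (M.mul_mem hR' hR) (hMG (M.mul_mem hR' hR)).1

end trick

end Pool.Agent.NoMax
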